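import Pool.Agent.Lib_helper64.FO.Defs

namespace Lib_helper64.FO

open scoped RealInnerProductSpace

theorem exists_linearIsometry {d : ℕ} {ι : Type*} [Fintype ι] (u w : ι → E d)
    (h : ∀ i j, ⟪u i, u j⟫ = ⟪w i, w j⟫) :
    ∃ T : E d ≃ₗᵢ[ℝ] E d, ∀ i, T (u i) = w i := by
  classical
  let U : (ι → ℝ) →ₗ[ℝ] E d := Fintype.linearCombination ℝ u
  let W : (ι → ℝ) →ₗ[ℝ] E d := Fintype.linearCombination ℝ w
  have hU : ∀ c, U c = ∑ i, c i • u i := fun c => Fintype.linearCombination_apply _ _ _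
  have hW : ∀ c, W c = ∑ i, c i • w i := fun c => Fintype.linearCombination_apply _ _ _
  have hin : ∀ c, ⟪U c, U c⟫ = ⟪W c, W c⟫ := by
    intro c
    rw [hU, hW]
    simp only [sum_inner, inner_sum, inner_smul_left, inner_smul_right, h]
  have hnorm : ∀ c, ‖U c‖ = ‖W c‖ := by
    intro c
    have := hin c
    rw [real_inner_self_eq_norm_sq, real_inner_self_eq_norm_sq] at this
    exact (pow_left_inj₀ (norm_nonneg _) (norm_nonneg _) two_ne_zero).1 this
  have hker : LinearMap.ker U ≤ LinearMap.ker W := by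
    intro c hc
    rw [LinearMap.mem_ker] at hc ⊢
    rw [← norm_eq_zero, ← hnorm, hc, norm_zero]
  let L : LinearMap.range U →ₗ[ℝ] E d :=
    ((LinearMap.ker U).liftQ W hker) ∘ₗ (U.quotKerEquivRange.symm : LinearMap.range U →ₗ[ℝ] _)
  have hL : ∀ c, L ⟨U c, LinearMap.mem_range_self U c⟩ = W c := by
    intro c
    change ((LinearMap.ker U).liftQ W hker) (U.quotKerEquivRange.symm ⟨U c, _⟩) = W c
    have : U.quotKerEquivRange.symm ⟨U c, LinearMap.mem_range_self U c⟩ = Submodule.Quotient.mk c := by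
      rw [LinearEquiv.symm_apply_eq]
      rfl
    rw [this]
    rfl
  let LI : LinearMap.range U →ₗᵢ[ℝ] E d :=
    { toLinearMap := L
      norm_map' := by
        rintro ⟨_, ⟨c, rfl⟩⟩
        rw [hL c]
        exact (hnorm c).symm }
  let T := LI.extend.toLinearIsometryEquiv rfl
  refine ⟨T, fun i => ?_⟩
  have e1 : U (Pi.single i 1) = u i := by
    rw [hU, Finset.sum_eq_single i]
    · simp
    · intro b _ hb; simp [Pi.single_apply, hb]
    · intro hh; exact absurd (Finset.mem_univ i) hh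
  have e2 : W (Pi.single i 1) = w i := by
    rw [hW, Finset.sum_eq_single i]
    · simp
    · intro b _ hb; simp [Pi.single_apply, hb]
    · intro hh; exact absurd (Finset.mem_univ i) hh
  have e3 : T (U (Pi.single i 1)) = LI ⟨U (Pi.single i 1), LinearMap.mem_range_self U _⟩ := by
    change LI.extend _ = _
    exact LinearIsometry.extend_apply LI ⟨U (Pi.single i 1), LinearMap.mem_range_self U _⟩
  rw [← e1, e3]
  change L _ = w i
  rw [hL, e2]

/-- Congruent finite families in `E d` are related by an isometry of `E d`. -/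
theorem exists_isometry {d : ℕ} {ι : Type*} [Fintype ι] (x y : ι → E d)
    (h : ∀ i j, dist (x i) (x j) = dist (y i) (y j)) :
    ∃ T : E d ≃ᵢ E d, ∀ i, T (x i) = y i := by
  classical
  rcases isEmpty_or_nonempty ι with hι | ⟨⟨i₀⟩⟩
  · exact ⟨IsometryEquiv.refl _, fun i => (hι.false i).elim⟩
  have hin : ∀ i j, ⟪x i - x i₀, x j - x i₀⟫ = ⟪y i - y i₀, y j - y i₀⟫ := by
    intro i j
    rw [real_inner_eq_norm_mul_self_add_norm_mul_self_sub_norm_sub_mul_self_div_two,
      real_inner_eq_norm_mul_self_add_norm_mul_self_sub_norm_sub_mul_self_div_two,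
      sub_sub_sub_cancel_right, sub_sub_sub_cancel_right, ← dist_eq_norm, ← dist_eq_norm,
      ← dist_eq_norm, ← dist_eq_norm, ← dist_eq_norm, ← dist_eq_norm, h, h, h]
  obtain ⟨T, hT⟩ := exists_linearIsometry (fun i => x i - x i₀) (fun i => y i - y i₀) hin
  refine ⟨((IsometryEquiv.subRight (x i₀)).trans T.toIsometryEquiv).trans
    (IsometryEquiv.addRight (y i₀)), fun i => ?_⟩
  change T (x i - x i₀) + y i₀ = y i
  rw [hT i]
  simp

end Lib_helper64.FO
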