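import Pool.Agent.Lib_helper64.FO.Defs

namespace Lib_helper64.FO

open MulAction

/-- Orbits of a subgroup of a simply transitive group. -/
theorem card_orbits_eq_index {G X : Type*} [Group G] [MulAction G X] (x₀ : X)
    (htr : ∀ x : X, ∃ g : G, g • x₀ = x) (hfree : ∀ g : G, g • x₀ = x₀ → g = 1)
    (H : Subgroup G) : Nat.card (orbitRel.Quotient H X) = H.index := by
  classical
  have hfree' : ∀ g h : G, g • x₀ = h • x₀ → g = h := by
    intro g h e
    have : (h⁻¹ * g) • x₀ = x₀ := by rw [mul_smul, e, inv_smul_smul]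
    have := hfree _ this
    exact (inv_mul_eq_one.1 this).symm
  let φ : G → orbitRel.Quotient H X := fun g => Quotient.mk'' (g⁻¹ • x₀)
  have hφ : ∀ a b : G, φ a = φ b ↔ a⁻¹ * b ∈ H := by
    intro a b
    change (Quotient.mk'' (a⁻¹ • x₀) : orbitRel.Quotient H X) = Quotient.mk'' (b⁻¹ • x₀) ↔ _
    rw [Quotient.eq'', orbitRel_apply]
    constructor
    · rintro ⟨h, hh⟩
      have e1 : ((h : G) * b⁻¹) • x₀ = a⁻¹ • x₀ := by rw [mul_smul]; exact hh
      have e2 := hfree' _ _ e1
      rw [← e2]; simp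
    · intro h
      refine ⟨⟨a⁻¹ * b, h⟩, ?_⟩
      change (a⁻¹ * b) • (b⁻¹ • x₀) = a⁻¹ • x₀
      rw [mul_smul, smul_inv_smul]
  have hsurj : Function.Surjective φ := by
    intro q
    induction q using Quotient.inductionOn' with
    | h x =>
      obtain ⟨g, hg⟩ := htr x
      refine ⟨g⁻¹, ?_⟩
      change (Quotient.mk'' (g⁻¹⁻¹ • x₀) : orbitRel.Quotient H X) = _
      rw [inv_inv, hg]
  rw [Subgroup.index_eq_card]
  refine (Nat.card_congr (Equiv.ofBijective (fun q : G ⧸ H => Quotient.liftOn' q φ ?_) ⟨?_, ?_⟩)).symm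
  · intro a b hab
    exact (hφ a b).2 (QuotientGroup.leftRel_apply.1 hab)
  · intro p q
    induction p using Quotient.inductionOn' with
    | h a =>
      induction q using Quotient.inductionOn' with
      | h b =>
        intro hab
        exact Quotient.sound' (QuotientGroup.leftRel_apply.2 ((hφ a b).1 hab))
  · intro q
    obtain ⟨a, rfl⟩ := hsurj q
    exact ⟨Quotient.mk'' a, rfl⟩

/-- In a ranked poset, a chain meeting all ranks is maximal. -/
theorem maxChain_of_ranks {P : Type*} [PartialOrder P] (rk : P → ℤ)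
    (hmono : ∀ x y : P, x < y → rk x < rk y) (C : Set P) (hC : IsChain (· ≤ ·) C)
    (hall : ∀ x : P, ∃ y ∈ C, rk y = rk x) : IsMaxChain (· ≤ ·) C := by
  refine ⟨hC, fun D hD hCD => Set.Subset.antisymm hCD ?_⟩
  intro x hx
  obtain ⟨y, hy, hr⟩ := hall x
  by_cases hxy : x = y
  · subst hxy; exact hy
  · exfalso
    rcases hD hx (hCD hy) hxy with h | h
    · have := hmono x y (lt_of_le_of_ne h hxy); omega
    · have := hmono y x (lt_of_le_of_ne h (Ne.symm hxy)); omega

/-- An order automorphism that fixes a flag of a poset with well-founded order fixes all of its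
elements. -/
theorem fix_of_smul_flag_eq {P : Type*} [PartialOrder P] [Finite P] (Φ : Flag P) (γ : P ≃o P)
    (h : γ • Φ = Φ) : ∀ x ∈ Φ, γ x = x := by
  classical
  have hmem : ∀ x, x ∈ Φ → γ x ∈ Φ := by
    intro x hx
    rw [← h]
    change γ x ∈ ((γ • Φ : Flag P) : Set P)
    rw [Flag.coe_smul]
    exact ⟨x, hx, rfl⟩
  have hmem' : ∀ x, x ∈ Φ → γ⁻¹ x ∈ Φ := by
    intro x hx
    rw [← h] at hx
    change x ∈ ((γ • Φ : Flag P) : Set P) at hx
    rw [Flag.coe_smul] at hx
    obtain ⟨y, hy, hyx⟩ := hx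
    have : γ⁻¹ x = y := by
      rw [← hyx]; exact γ.symm_apply_apply y
    rw [this]; exact hy
  let e : Φ ≃o Φ :=
    { toFun := fun x => ⟨γ x, hmem x x.2⟩
      invFun := fun x => ⟨γ⁻¹ x, hmem' x x.2⟩
      left_inv := fun x => Subtype.ext (γ.symm_apply_apply x)
      right_inv := fun x => Subtype.ext (γ.apply_symm_apply x)
      map_rel_iff' := by
        intro a b
        exact γ.le_iff_le }
  have hsub : Subsingleton (Φ ≃o Φ) := inferInstance
  intro x hx
  have := congrArg (fun g : Φ ≃o Φ => (g ⟨x, hx⟩ : P)) (Subsingleton.elim e (OrderIso.refl _))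
  exact this

end Lib_helper64.FO
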