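import Pool.Agent.Lib_helper64.FO.Cross

namespace Lib_helper64.FO

open Subgroup

instance instFiniteBn (d : ℕ) : Finite (Bn d) :=
  Finite.of_injective (fun b : Bn d => (b.left, b.right)) (fun a b h => by
    have h1 := congrArg Prod.fst h
    have h2 := congrArg Prod.snd h
    exact SemidirectProduct.ext h1 h2)

/-- index of `H` in `H ⊔ K` -/
theorem relIndex_sup_of_normal {G : Type*} [Group G] [Finite G] (H K : Subgroup G) [K.Normal] :
    H.relIndex (H ⊔ K) = H.relIndex K := by
  have h1 : (H ⊓ K).relIndex H * H.relIndex (H ⊔ K) = (H ⊓ K).relIndex (H ⊔ K) :=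
    relIndex_mul_relIndex _ _ _ inf_le_left le_sup_left
  have h2 : (H ⊓ K).relIndex K * K.relIndex (H ⊔ K) = (H ⊓ K).relIndex (H ⊔ K) :=
    relIndex_mul_relIndex _ _ _ inf_le_right le_sup_right
  rw [inf_relIndex_left] at h1
  rw [inf_relIndex_right, relIndex_sup_right] at h2
  have hne : K.relIndex H ≠ 0 := (index_ne_zero_of_finite : (K.subgroupOf H).index ≠ 0)
  have : K.relIndex H * H.relIndex (H ⊔ K) = K.relIndex H * H.relIndex K := by
    rw [h1, ← h2, mul_comm]
  exact Nat.eq_of_mul_eq_mul_left (Nat.pos_of_ne_zero hne) this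

theorem index_Bn {d : ℕ} (H : Subgroup (Bn d)) :
    H.index = (H.map SemidirectProduct.rightHom).index * (H.comap SemidirectProduct.inl).index := by
  have h1 : (H.map SemidirectProduct.rightHom).index =
      (H ⊔ (SemidirectProduct.rightHom : Bn d →* _).ker).index := by
    rw [index_map, MonoidHom.range_eq_top.2 SemidirectProduct.rightHom_surjective, index_top, mul_one]
  have h2 : (H.comap SemidirectProduct.inl).index = H.relIndex (SemidirectProduct.inl : _ →* Bn d).range := by
    rw [index_comap]
  rw [h1, h2, SemidirectProduct.range_inl_eq_ker_rightHom,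
    ← relIndex_sup_of_normal H (SemidirectProduct.rightHom : Bn d →* _).ker, mul_comm,
    relIndex_mul_index le_sup_left]

theorem index_comap_le {G G' : Type*} [Group G] [Group G'] [Finite G] (f : G' →* G) (H : Subgroup G) :
    (H.comap f).index ≤ H.index := by
  rw [index_comap, ← relIndex_top_right]
  exact relIndex_le_of_le_right le_top (by rw [relIndex_top_right]; exact index_ne_zero_of_finite)

/-- sign change at two coordinates -/
def flip2 {d : ℕ} (i j : Fin d) : Fin d → ℤˣ := fun l => if l = i ∨ l = j then -1 else 1

theorem phiB_apply {d : ℕ} (σ : Equiv.Perm (Fin d)) (t : Fin d → ℤˣ) (l : Fin d) :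
    phiB d σ t l = t (σ.symm l) := rfl

theorem phiB_flip2 {d : ℕ} (σ : Equiv.Perm (Fin d)) (i j : Fin d) :
    phiB d σ (flip2 i j) = flip2 (σ i) (σ j) := by
  funext l
  rw [phiB_apply]
  unfold flip2
  have e : ∀ k, (σ.symm l = k ↔ l = σ k) := fun k => Equiv.symm_apply_eq σ
  simp only [e]

theorem conj_inl {d : ℕ} (H : Subgroup (Bn d)) {σ : Equiv.Perm (Fin d)}
    (hσ : σ ∈ H.map SemidirectProduct.rightHom) {t : Fin d → ℤˣ}
    (ht : t ∈ H.comap SemidirectProduct.inl) : phiB d σ t ∈ H.comap SemidirectProduct.inl := by
  obtain ⟨b, hb, rfl⟩ := hσ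
  rw [mem_comap] at ht ⊢
  have : (SemidirectProduct.inl (phiB d (SemidirectProduct.rightHom b) t) : Bn d) =
      b * SemidirectProduct.inl t * b⁻¹ := by
    apply SemidirectProduct.ext
    · funext i
      simp only [SemidirectProduct.left_inl, SemidirectProduct.rightHom_eq_right,
        SemidirectProduct.mul_left, SemidirectProduct.mul_right, SemidirectProduct.right_inl,
        SemidirectProduct.inv_left, mul_one, Pi.mul_apply, phiB_apply]
      have e : (Equiv.symm b.right⁻¹) ((Equiv.symm b.right) i) = i := b.right.apply_symm_apply i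
      rw [e, Pi.inv_apply]
      rw [mul_comm (b.left i), mul_assoc, mul_inv_cancel, mul_one]
    · simp
  rw [this]
  exact H.mul_mem (H.mul_mem hb ht) (H.inv_mem hb)

theorem two_pow_gt {d : ℕ} (hd : 3 ≤ d) : 2 * d < 2 ^ d := by
  induction d, hd using Nat.le_induction with
  | base => norm_num
  | succ n hn ih => rw [pow_succ]; omega

theorem flip2_comm {d : ℕ} (i j : Fin d) : flip2 i j = flip2 j i := by
  funext l; unfold flip2; simp only [or_comm]

theorem flips_of_alt {d : ℕ} (hd : 3 ≤ d) (T : Subgroup (Fin d → ℤˣ)) (hT : T.index ≤ d)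
    (hinv : ∀ σ ∈ alternatingGroup (Fin d), ∀ t ∈ T, phiB d σ t ∈ T) (i j : Fin d) (hij : i ≠ j) :
    flip2 i j ∈ T := by
  classical
  -- a nonconstant element
  obtain ⟨t, htT, p, q, hp, hq⟩ : ∃ t ∈ T, ∃ p q, t p = -1 ∧ t q = 1 := by
    by_contra hcon
    push Not at hcon
    have hsub : (T : Set (Fin d → ℤˣ)) ⊆ {1, -1} := by
      intro t ht
      have i0 : Fin d := ⟨0, by omega⟩
      rcases Int.units_eq_one_or (t i0) with h | h
      · left
        funext l
        rcases Int.units_eq_one_or (t l) with h' | h'
        · exact h'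
        · exact absurd h (hcon t ht l i0 h')
      · right
        funext l
        rcases Int.units_eq_one_or (t l) with h' | h'
        · exact absurd h' (hcon t ht i0 l h)
        · exact h'
    have hc : Nat.card T ≤ 2 := by
      have h1 : (T : Set (Fin d → ℤˣ)).ncard ≤ ({1, -1} : Set (Fin d → ℤˣ)).ncard :=
        Set.ncard_le_ncard hsub (Set.toFinite _)
      have h2 : ({1, -1} : Set (Fin d → ℤˣ)).ncard ≤ 2 := by
        refine (Set.ncard_insert_le _ _).trans ?_
        simp
      exact h1.trans h2
    have h3 := T.card_mul_index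
    have h4 : Nat.card (Fin d → ℤˣ) = 2 ^ d := by
      rw [Nat.card_fun]; simp
    rw [h4] at h3
    have h5 : Nat.card T * T.index ≤ 2 * d := Nat.mul_le_mul hc hT
    have := two_pow_gt hd
    omega
  have hpq : p ≠ q := by
    rintro rfl
    rw [hp] at hq
    exact absurd hq (by decide)
  obtain ⟨m, hmp, hmq⟩ : ∃ m : Fin d, m ≠ p ∧ m ≠ q := by
    have : 0 < ((Finset.univ.erase p).erase q).card := by
      rw [Finset.card_erase_of_mem (by simp [Ne.symm hpq]), Finset.card_erase_of_mem (by simp)]
      simp; omega
    obtain ⟨m, hm⟩ := Finset.card_pos.1 this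
    simp at hm
    exact ⟨m, hm.2, hm.1⟩
  -- a three-cycle c with c.symm p = q, c.symm q = m, c.symm m = p
  let c : Equiv.Perm (Fin d) := Equiv.swap p m * Equiv.swap p q
  have hc : c ∈ alternatingGroup (Fin d) := by
    rw [Equiv.Perm.mem_alternatingGroup, Equiv.Perm.sign_mul, Equiv.Perm.sign_swap (Ne.symm hmp),
      Equiv.Perm.sign_swap hpq]
    simp
  have c1 : c.symm q = p := by
    rw [Equiv.symm_apply_eq]
    change q = Equiv.swap p m (Equiv.swap p q p)
    rw [Equiv.swap_apply_left, Equiv.swap_apply_of_ne_of_ne (Ne.symm hpq) (Ne.symm hmq)]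
  have c2 : c.symm m = q := by
    rw [Equiv.symm_apply_eq]
    change m = Equiv.swap p m (Equiv.swap p q q)
    rw [Equiv.swap_apply_right, Equiv.swap_apply_left]
  have c3 : c.symm p = m := by
    rw [Equiv.symm_apply_eq]
    change p = Equiv.swap p m (Equiv.swap p q m)
    rw [Equiv.swap_apply_of_ne_of_ne hmp hmq, Equiv.swap_apply_right]
  have c4 : ∀ l, l ≠ p → l ≠ q → l ≠ m → c.symm l = l := by
    intro l h1 h2 h3
    rw [Equiv.symm_apply_eq]
    change l = Equiv.swap p m (Equiv.swap p q l)
    rw [Equiv.swap_apply_of_ne_of_ne h1 h2, Equiv.swap_apply_of_ne_of_ne h1 h3]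
  have hprod : t * phiB d c t ∈ T := T.mul_mem htT (hinv c hc t htT)
  have hsome : ∃ a b : Fin d, a ≠ b ∧ flip2 a b ∈ T := by
    rcases Int.units_eq_one_or (t m) with hm | hm
    · refine ⟨p, q, hpq, ?_⟩
      convert hprod using 1
      funext l
      rw [Pi.mul_apply, phiB_apply]
      unfold flip2
      by_cases h1 : l = p
      · subst h1; rw [c3, hp, hm]; simp
      by_cases h2 : l = q
      · subst h2; rw [c1, hp, hq]; simp
      by_cases h3 : l = m
      · subst h3; rw [c2, hm, hq]; simp [h1, h2]
      rw [c4 l h1 h2 h3, if_neg (by simp [h1, h2])]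
      rw [← sq, Int.units_sq]
    · refine ⟨q, m, Ne.symm hmq, ?_⟩
      convert hprod using 1
      funext l
      rw [Pi.mul_apply, phiB_apply]
      unfold flip2
      by_cases h1 : l = p
      · subst h1; rw [c3, hp, hm]; simp [hpq, Ne.symm hmp]
      by_cases h2 : l = q
      · subst h2; rw [c1, hp, hq]; simp
      by_cases h3 : l = m
      · subst h3; rw [c2, hm, hq]; simp
      rw [c4 l h1 h2 h3, if_neg (by simp [h2, h3])]
      rw [← sq, Int.units_sq]
  obtain ⟨a, b, hab, hT2⟩ := hsome
  obtain ⟨σ, hσ, ⟨h1, h2⟩ | ⟨h1, h2⟩⟩ := exists_alt_unordered hab hij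
  · have := hinv σ hσ _ hT2
    rwa [phiB_flip2, h1, h2] at this
  · have := hinv σ hσ _ hT2
    rwa [phiB_flip2, h1, h2, flip2_comm] at this

/-- Subgroups of index at most `d` contain all double sign changes. -/
theorem Bn_flips {d : ℕ} (hd : 3 ≤ d) (H : Subgroup (Bn d)) (hH : H.index ≤ d) :
    ∀ i j : Fin d, i ≠ j → (SemidirectProduct.inl (flip2 i j) : Bn d) ∈ H := by
  have hidx := index_Bn H
  set T := H.comap (SemidirectProduct.inl : _ →* Bn d) with hT
  set Hb := H.map (SemidirectProduct.rightHom : Bn d →* _) with hHb
  by_cases htop : T = ⊤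
  · intro i j _
    have : flip2 i j ∈ T := by rw [htop]; exact mem_top _
    exact this
  · have hTi : 2 ≤ T.index := by
      have h0 : T.index ≠ 0 := index_ne_zero_of_finite
      have h1 : T.index ≠ 1 := fun h => htop (index_eq_one.1 h)
      omega
    have hHbpos : Hb.index ≠ 0 := index_ne_zero_of_finite
    have hHbi : Hb.index * 2 ≤ d := by
      calc Hb.index * 2 ≤ Hb.index * T.index := Nat.mul_le_mul le_rfl hTi
        _ ≤ d := by rw [← hidx]; exact hH
    have hA : alternatingGroup (Fin d) ≤ Hb := by
      rcases Nat.lt_or_ge d 5 with h5 | h5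
      · exact Equiv.Perm.alternatingGroup_le_of_index_le_two (by omega)
      · exact alt_le_of_index_lt (by rw [Fintype.card_fin]; exact h5) _
          (by rw [Fintype.card_fin]; omega)
    have hTd : T.index ≤ d := by
      calc T.index ≤ Hb.index * T.index := Nat.le_mul_of_pos_left _ (Nat.pos_of_ne_zero hHbpos)
        _ ≤ d := by rw [← hidx]; exact hH
    exact fun i j hij => flips_of_alt hd T hTd (fun σ hσ t ht => conj_inl H (hA hσ) ht) i j hij

theorem par_mul {d : ℕ} (x y : Fin d → ℤˣ) : par (x * y) = par x * par y := by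
  unfold par; simp [Finset.prod_mul_distrib]

theorem par_one {d : ℕ} : par (1 : Fin d → ℤˣ) = 1 := by simp [par]

/-- parity of the number of sign changes -/
def parHom (d : ℕ) : Bn d →* ℤˣ where
  toFun b := par b.left
  map_one' := par_one
  map_mul' a b := by
    have h1 : (a * b).left = a.left * (fun i => b.left (a.right.symm i)) := rfl
    rw [h1, par_mul]
    congr 1
    exact Equiv.prod_comp a.right.symm b.left

theorem par_flip2 {d : ℕ} {i j : Fin d} (hij : i ≠ j) : par (flip2 i j) = 1 := by
  classical
  unfold par flip2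
  rw [← Finset.mul_prod_erase _ _ (Finset.mem_univ i),
    ← Finset.mul_prod_erase _ _ (show j ∈ Finset.univ.erase i by simp [Ne.symm hij])]
  rw [Finset.prod_eq_one]
  · simp
  · intro l hl
    simp only [Finset.mem_erase, Finset.mem_univ, and_true] at hl
    simp [hl.1, hl.2]

/-- The double sign changes generate all even sign changes. -/
theorem even_mem {d : ℕ} (T : Subgroup (Fin d → ℤˣ))
    (hfl : ∀ i j : Fin d, i ≠ j → flip2 i j ∈ T) :
    ∀ (n : ℕ) (t : Fin d → ℤˣ), (Finset.univ.filter (fun i => t i = -1)).card = n → par t = 1 →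
      t ∈ T := by
  classical
  intro n
  induction n using Nat.strong_induction_on with
  | _ n ih =>
    intro t hn hpar
    have hprod : par t = (-1) ^ n := by
      unfold par
      rw [← hn, ← Finset.prod_const, Finset.prod_filter]
      refine Finset.prod_congr rfl (fun i _ => ?_)
      rcases Int.units_eq_one_or (t i) with h | h
      · rw [h, if_neg (by decide)]
      · rw [h, if_pos rfl]
    rcases Nat.lt_or_ge n 2 with h2 | h2
    · have hn0 : n = 0 := by
        have h3 : n ≠ 1 := by
          rintro rfl
          rw [hprod] at hpar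
          exact absurd hpar (by decide)
        omega
      subst hn0
      have : t = 1 := by
        funext i
        rcases Int.units_eq_one_or (t i) with h | h
        · exact h
        · exfalso
          have : i ∈ Finset.univ.filter (fun i => t i = -1) := by simp [h]
          rw [Finset.card_eq_zero.1 hn] at this
          simp at this
      rw [this]; exact T.one_mem
    · obtain ⟨i, hi, j, hj, hij⟩ := Finset.one_lt_card.1
        (show 1 < (Finset.univ.filter (fun i => t i = -1)).card by omega)
      simp only [Finset.mem_filter, Finset.mem_univ, true_and] at hi hj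
      have hval : ∀ l, (t * flip2 i j) l = if l = i ∨ l = j then 1 else t l := by
        intro l
        rw [Pi.mul_apply]
        unfold flip2
        by_cases h1 : l = i
        · subst h1; simp [hi]
        · by_cases h3 : l = j
          · subst h3; simp [hj]
          · simp [h1, h3]
      have hlt : (Finset.univ.filter (fun l => (t * flip2 i j) l = -1)).card < n := by
        rw [← hn]
        apply Finset.card_lt_card
        rw [Finset.ssubset_iff_of_subset]
        · refine ⟨i, by simp [hi], ?_⟩
          simp only [Finset.mem_filter, Finset.mem_univ, true_and, hval]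
          simp
        · intro l hl
          simp only [Finset.mem_filter, Finset.mem_univ, true_and, hval] at hl ⊢
          split_ifs at hl with h
          · exact absurd hl (by decide)
          · exact hl
      have h4 := ih _ hlt (t * flip2 i j) rfl (by rw [par_mul, hpar, par_flip2 hij]; rfl)
      have h5 := T.mul_mem h4 (T.inv_mem (hfl i j hij))
      rwa [mul_inv_cancel_right] at h5

/-- Structure of subgroups of index at most `d` of the hyperoctahedral group. -/
theorem Bn_small_index {d : ℕ} (hd : 3 ≤ d) (H : Subgroup (Bn d)) (hH : H.index ≤ d) :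
    (∀ i j : Fin d, i ≠ j → (SemidirectProduct.inl (flip2 i j) : Bn d) ∈ H) ∧
    ((∀ σ ∈ alternatingGroup (Fin d), (SemidirectProduct.inr σ : Bn d) ∈ H) ∨
      ((∀ t : Fin d → ℤˣ, (SemidirectProduct.inl t : Bn d) ∈ H))) := by
  have hfl := Bn_flips hd H hH
  refine ⟨hfl, ?_⟩
  have hidx := index_Bn H
  set T := H.comap (SemidirectProduct.inl : _ →* Bn d) with hT
  set Hb := H.map (SemidirectProduct.rightHom : Bn d →* _) with hHb
  by_cases htop : T = ⊤
  · right
    intro t
    have : t ∈ T := by rw [htop]; exact mem_top t
    exact this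
  · left
    have hTi : 2 ≤ T.index := by
      have h0 : T.index ≠ 0 := index_ne_zero_of_finite
      have h1 : T.index ≠ 1 := fun h => htop (index_eq_one.1 h)
      omega
    have hHbpos : Hb.index ≠ 0 := index_ne_zero_of_finite
    have hHbi : Hb.index * 2 ≤ d := by
      calc Hb.index * 2 ≤ Hb.index * T.index := Nat.mul_le_mul le_rfl hTi
        _ ≤ d := by rw [← hidx]; exact hH
    have hA : alternatingGroup (Fin d) ≤ Hb := by
      rcases Nat.lt_or_ge d 5 with h5 | h5
      · exact Equiv.Perm.alternatingGroup_le_of_index_le_two (by omega)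
      · exact alt_le_of_index_lt (by rw [Fintype.card_fin]; exact h5) _
          (by rw [Fintype.card_fin]; omega)
    have heven : ∀ t, par t = 1 → t ∈ T := fun t ht => even_mem T (fun i j hij => hfl i j hij) _ t rfl ht
    have hnoodd : ∀ t ∈ T, par t = 1 := by
      intro t ht
      by_contra hne
      have hpt : par t = -1 := by
        rcases Int.units_eq_one_or (par t) with h | h
        · exact absurd h hne
        · exact h
      apply htop
      rw [eq_top_iff]
      intro s _
      rcases Int.units_eq_one_or (par s) with h | h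
      · exact heven s h
      · have h1 := heven (s * t) (by rw [par_mul, h, hpt]; rfl)
        have h2 := T.mul_mem h1 (T.inv_mem ht)
        rwa [mul_inv_cancel_right] at h2
    have hle : alternatingGroup (Fin d) ≤ H.comap (SemidirectProduct.inr : _ →* Bn d) := by
      rw [← Equiv.Perm.closure_three_cycles_eq_alternating, closure_le]
      intro σ hσ
      have hσ' : σ ∈ Hb := hA hσ.mem_alternatingGroup
      obtain ⟨b, hb, hbσ⟩ := hσ'
      have hb1 : b.right = σ := hbσ
      have hpar : par b.left = 1 := by
        by_contra hne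
        have hpt : parHom d b = -1 := by
          rcases Int.units_eq_one_or (par b.left) with h | h
          · exact absurd h hne
          · exact h
        have h3 : b ^ 3 ∈ H := H.pow_mem hb 3
        have h4 : (b ^ 3).right = 1 := by
          have : SemidirectProduct.rightHom (b ^ 3) = (SemidirectProduct.rightHom b) ^ 3 := map_pow _ _ _
          change SemidirectProduct.rightHom (b ^ 3) = 1
          rw [this, hbσ]
          have := hσ.orderOf
          rw [← this]; exact pow_orderOf_eq_one σ
        have h5 : b ^ 3 = SemidirectProduct.inl (b ^ 3).left := by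
          apply SemidirectProduct.ext
          · rfl
          · rw [h4]; rfl
        have h6 : (b ^ 3).left ∈ T := by
          change SemidirectProduct.inl (b ^ 3).left ∈ H
          rw [← h5]; exact h3
        have h7 := hnoodd _ h6
        have h8 : par (b ^ 3).left = parHom d (b ^ 3) := rfl
        rw [h8, map_pow, hpt] at h7
        exact absurd h7 (by decide)
      have h9 : (SemidirectProduct.inl b.left : Bn d) ∈ H := heven _ hpar
      have h10 : (SemidirectProduct.inr σ : Bn d) = (SemidirectProduct.inl b.left)⁻¹ * b := by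
        rw [eq_inv_mul_iff_mul_eq, ← hb1, SemidirectProduct.inl_left_mul_inr_right]
      change (SemidirectProduct.inr σ : Bn d) ∈ H
      rw [h10]
      exact H.mul_mem (H.inv_mem h9) hb
    intro σ hσ
    exact hle hσ

end Lib_helper64.FO
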