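import Pool.Agent.Lib_helper64.FO.SimplexThm

namespace Lib_helper64.FO

open MulAction

/-- permutations act on sign vectors -/
def phiB (d : ℕ) : Equiv.Perm (Fin d) →* MulAut (Fin d → ℤˣ) where
  toFun σ :=
    { toFun := fun ε i => ε (σ.symm i)
      invFun := fun ε i => ε (σ i)
      left_inv := fun ε => by funext i; simp
      right_inv := fun ε => by funext i; simp
      map_mul' := fun ε δ => rfl }
  map_one' := rfl
  map_mul' _ _ := rfl

/-- The hyperoctahedral group. -/
abbrev Bn (d : ℕ) := (Fin d → ℤˣ) ⋊[phiB d] Equiv.Perm (Fin d)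

theorem Bn.mul_left_apply {d : ℕ} (a b : Bn d) (i : Fin d) :
    (a * b).left i = a.left i * b.left (a.right.symm i) := rfl

theorem Bn.mul_right_eq {d : ℕ} (a b : Bn d) : (a * b).right = a.right * b.right := rfl

/-- action on sign vectors -/
def svFun {d : ℕ} (b : Bn d) (s : SV d) : SV d :=
  fun i => (s (b.right.symm i)).map (fun a => b.left i * a)

theorem svFun_one {d : ℕ} (s : SV d) : svFun 1 s = s := by
  funext i
  change (s i).map (fun a => (1 : ℤˣ) * a) = s i
  simp

theorem svFun_mul {d : ℕ} (a b : Bn d) (s : SV d) : svFun (a * b) s = svFun a (svFun b s) := by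
  funext i
  change (s ((a * b).right.symm i)).map (fun x => (a * b).left i * x) =
    Option.map (fun x => a.left i * x)
      ((s (b.right.symm (a.right.symm i))).map (fun x => b.left (a.right.symm i) * x))
  rw [Option.map_map, Bn.mul_left_apply]
  have : (a * b).right.symm i = b.right.symm (a.right.symm i) := rfl
  rw [this]
  congr 1
  funext x
  simp [mul_assoc]

theorem svFun_mono {d : ℕ} (b : Bn d) {s t : SV d} (h : s ≤ t) : svFun b s ≤ svFun b t := by
  intro i a ha
  change (s (b.right.symm i)).map (fun a => b.left i * a) = some a at ha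
  change (t (b.right.symm i)).map (fun a => b.left i * a) = some a
  rw [Option.map_eq_some_iff] at ha ⊢
  obtain ⟨c, hc, hc'⟩ := ha
  exact ⟨c, h _ _ hc, hc'⟩

/-- The hyperoctahedral group acting on sign vectors. -/
def svAct (d : ℕ) : Bn d →* (SV d ≃o SV d) where
  toFun b :=
    { toFun := svFun b
      invFun := svFun b⁻¹
      left_inv := fun s => by rw [← svFun_mul, inv_mul_cancel, svFun_one]
      right_inv := fun s => by rw [← svFun_mul, mul_inv_cancel, svFun_one]
      map_rel_iff' := by
        intro s t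
        constructor
        · intro h
          have := svFun_mono b⁻¹ h
          change svFun b⁻¹ (svFun b s) ≤ svFun b⁻¹ (svFun b t) at this
          rwa [← svFun_mul, ← svFun_mul, inv_mul_cancel, svFun_one, svFun_one] at this
        · exact svFun_mono b }
  map_one' := DFunLike.ext _ _ (fun s => svFun_one s)
  map_mul' a b := DFunLike.ext _ _ (fun s => svFun_mul a b s)

/-- The hyperoctahedral group acting on the faces of the cross-polytope. -/
def actX (d : ℕ) : Bn d →* (WithTop (SV d) ≃o WithTop (SV d)) where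
  toFun b := (svAct d b).withTopCongr
  map_one' := by
    refine DFunLike.ext _ _ (fun x => ?_)
    induction x using WithTop.recTopCoe with
    | top => rfl
    | coe s => change ((svAct d 1 s : SV d) : WithTop (SV d)) = s; rw [map_one]; rfl
  map_mul' a b := by
    refine DFunLike.ext _ _ (fun x => ?_)
    induction x using WithTop.recTopCoe with
    | top => rfl
    | coe s =>
      change ((svAct d (a * b) s : SV d) : WithTop (SV d)) = ((svAct d a (svAct d b s) : SV d) : WithTop (SV d))
      rw [map_mul]; rfl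

theorem actX_coe {d : ℕ} (b : Bn d) (s : SV d) :
    actX d b (s : WithTop (SV d)) = (svFun b s : WithTop (SV d)) := rfl

theorem actX_top {d : ℕ} (b : Bn d) : actX d b (⊤ : WithTop (SV d)) = ⊤ := rfl

/-- support of a sign vector -/
def SV.supp {d : ℕ} (s : SV d) : Finset (Fin d) := Finset.univ.filter (fun i => (s i).isSome = true)

theorem SV.weight_eq {d : ℕ} (s : SV d) : s.weight = s.supp.card := rfl

theorem SV.mem_supp {d : ℕ} (s : SV d) (i : Fin d) : i ∈ s.supp ↔ ∃ a, s i = some a := by
  simp [SV.supp, Option.isSome_iff_exists]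

theorem SV.not_mem_supp {d : ℕ} (s : SV d) (i : Fin d) : i ∉ s.supp ↔ s i = none := by
  simp [SV.supp]

theorem weight_svFun {d : ℕ} (b : Bn d) (s : SV d) : (svFun b s).weight = s.weight := by
  rw [SV.weight_eq, SV.weight_eq]
  have : (svFun b s).supp = s.supp.map b.right.toEmbedding := by
    ext i
    rw [Finset.mem_map_equiv, SV.mem_supp, SV.mem_supp]
    simp [svFun]
  rw [this, Finset.card_map]

theorem rkCross_actX {d : ℕ} (b : Bn d) (F : WithTop (SV d)) : rkCross (actX d b F) = rkCross F := by
  induction F using WithTop.recTopCoe with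
  | top => rfl
  | coe s =>
    rw [actX_coe]
    change ((svFun b s).weight : ℤ) - 1 = (s.weight : ℤ) - 1
    rw [weight_svFun]

theorem SV.supp_mono {d : ℕ} {s t : SV d} (h : s ≤ t) : s.supp ⊆ t.supp := by
  intro i hi
  rw [SV.mem_supp] at hi ⊢
  obtain ⟨a, ha⟩ := hi
  exact ⟨a, h i a ha⟩

theorem SV.eq_of_le {d : ℕ} {s t : SV d} (h : s ≤ t) (hc : t.supp.card ≤ s.supp.card) : s = t := by
  have h1 := Finset.eq_of_subset_of_card_le (SV.supp_mono h) hc
  refine le_antisymm h (fun i a ha => ?_)
  have : i ∈ s.supp := by rw [h1, SV.mem_supp]; exact ⟨a, ha⟩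
  rw [SV.mem_supp] at this
  obtain ⟨b, hb⟩ := this
  have h2 := h i b hb
  rw [ha] at h2
  rw [hb, ← h2]

theorem SV.weight_lt {d : ℕ} {s t : SV d} (h : s < t) : s.weight < t.weight := by
  rw [SV.weight_eq, SV.weight_eq]
  by_contra hcon
  exact h.ne (SV.eq_of_le h.le (by omega))

theorem SV.weight_le {d : ℕ} (s : SV d) : s.weight ≤ d := by
  rw [SV.weight_eq]; simpa using Finset.card_le_univ s.supp

theorem rkCross_coe {d : ℕ} (s : SV d) : rkCross (s : WithTop (SV d)) = (s.weight : ℤ) - 1 := rfl

theorem rkCross_top {d : ℕ} : rkCross (⊤ : WithTop (SV d)) = (d : ℤ) := rfl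

theorem rkCross_strictMono {d : ℕ} (x y : WithTop (SV d)) (h : x < y) : rkCross x < rkCross y := by
  induction x using WithTop.recTopCoe with
  | top => exact absurd h not_top_lt
  | coe s =>
    induction y using WithTop.recTopCoe with
    | top =>
      rw [rkCross_coe, rkCross_top]
      have := s.weight_le
      omega
    | coe t =>
      rw [rkCross_coe, rkCross_coe]
      have := SV.weight_lt (WithTop.coe_lt_coe.1 h)
      omega

/-- initial sign vectors -/
def initV (d j : ℕ) : SV d := fun i => if (i : ℕ) < j then some 1 else none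

theorem initV_mono {d j k : ℕ} (h : j ≤ k) : initV d j ≤ initV d k := by
  intro i a ha
  unfold initV at ha ⊢
  by_cases hij : (i : ℕ) < j
  · rw [if_pos hij] at ha
    rw [if_pos (by omega)]; exact ha
  · rw [if_neg hij] at ha; exact absurd ha (by simp)

theorem initV_weight {d j : ℕ} (h : j ≤ d) : (initV d j).weight = j := by
  rw [SV.weight_eq]
  have : (initV d j).supp = Finset.univ.filter (fun i : Fin d => (i : ℕ) < j) := by
    ext i
    rw [SV.mem_supp]
    unfold initV
    by_cases hij : (i : ℕ) < j
    · simp [hij]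
    · simp [hij]
  rw [this, card_init h]

theorem baseX_chain (d : ℕ) :
    IsChain (· ≤ ·) {x : WithTop (SV d) | x = ⊤ ∨ ∃ j ≤ d, x = (initV d j : WithTop (SV d))} := by
  rintro x hx y hy _
  rcases hx with rfl | ⟨j, hj, rfl⟩
  · right; exact le_top
  · rcases hy with rfl | ⟨k, hk, rfl⟩
    · left; exact le_top
    · rcases le_total j k with h | h
      · left; exact WithTop.coe_le_coe.2 (initV_mono h)
      · right; exact WithTop.coe_le_coe.2 (initV_mono h)

/-- The base flag. -/
def baseX (d : ℕ) : Flag (WithTop (SV d)) where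
  carrier := {x | x = ⊤ ∨ ∃ j ≤ d, x = (initV d j : WithTop (SV d))}
  Chain' := baseX_chain d
  max_chain' := by
    have := maxChain_of_ranks (P := WithTop (SV d)) rkCross rkCross_strictMono _ (baseX_chain d)
      (by
        intro x
        induction x using WithTop.recTopCoe with
        | top => exact ⟨⊤, Or.inl rfl, rfl⟩
        | coe s =>
          refine ⟨(initV d s.weight : WithTop (SV d)), Or.inr ⟨s.weight, s.weight_le, rfl⟩, ?_⟩
          rw [rkCross_coe, rkCross_coe, initV_weight s.weight_le])
    intro s hs h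
    exact this.2 hs h

instance instOrderBotSV (d : ℕ) : OrderBot (SV d) where
  bot := fun _ => none
  bot_le := fun s i a h => absurd h (by simp)

theorem SV.bot_apply {d : ℕ} (i : Fin d) : (⊥ : SV d) i = none := rfl

theorem unit_le_iff {d : ℕ} (i : Fin d) (a : ℤˣ) (s : SV d) : SV.unit i a ≤ s ↔ s i = some a := by
  constructor
  · intro h; exact h i a (by simp [SV.unit])
  · intro h j b hb
    unfold SV.unit at hb
    by_cases hji : j = i
    · subst hji; rw [if_pos rfl] at hb; rw [← hb]; exact h
    · rw [if_neg hji] at hb; exact absurd hb (by simp)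

theorem unit_ne_bot {d : ℕ} (i : Fin d) (a : ℤˣ) : SV.unit i a ≠ ⊥ := by
  intro h
  have := congrFun h i
  rw [SV.bot_apply] at this
  simp [SV.unit] at this

theorem isAtom_unit {d : ℕ} (i : Fin d) (a : ℤˣ) : IsAtom (SV.unit i a : WithTop (SV d)) := by
  refine ⟨fun h => unit_ne_bot i a (by
    rw [← WithTop.coe_bot] at h; exact WithTop.coe_injective h), fun x hx => ?_⟩
  induction x using WithTop.recTopCoe with
  | top => exact absurd hx not_top_lt
  | coe s =>
    have hx' := WithTop.coe_lt_coe.1 hx
    have : s = ⊥ := by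
      funext j
      rw [SV.bot_apply]
      cases hs : s j with
      | none => rfl
      | some b =>
        exfalso
        have h1 := hx'.le j b hs
        unfold SV.unit at h1
        by_cases hji : j = i
        · rw [if_pos hji] at h1
          apply hx'.not_ge
          rw [unit_le_iff, ← hji, hs, ← h1]
        · rw [if_neg hji] at h1; exact absurd h1 (by simp)
    rw [this]; rfl

theorem eq_unit_of_isAtom {d : ℕ} (hd : 0 < d) {x : WithTop (SV d)} (hx : IsAtom x) :
    ∃ (i : Fin d) (a : ℤˣ), x = (SV.unit i a : WithTop (SV d)) := by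
  induction x using WithTop.recTopCoe with
  | top =>
    exfalso
    have := hx.2 (SV.unit ⟨0, hd⟩ 1 : WithTop (SV d)) (WithTop.coe_lt_top _)
    rw [← WithTop.coe_bot] at this
    exact unit_ne_bot _ _ (WithTop.coe_injective this)
  | coe s =>
    have hs : s ≠ ⊥ := fun h => hx.1 (by rw [h]; rfl)
    obtain ⟨i, a, hia⟩ : ∃ i a, s i = some a := by
      by_contra hcon
      push Not at hcon
      apply hs
      funext i
      rw [SV.bot_apply]
      cases hi : s i with
      | none => rfl
      | some a => exact absurd hi (hcon i a)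
    refine ⟨i, a, ?_⟩
    have h1 : (SV.unit i a : WithTop (SV d)) ≤ (s : WithTop (SV d)) :=
      WithTop.coe_le_coe.2 ((unit_le_iff i a s).2 hia)
    rcases h1.lt_or_eq with h | h
    · exact absurd (hx.2 _ h) (isAtom_unit i a).1
    · exact h.symm

theorem eq_one_of_fix_atoms {d : ℕ} (γ : WithTop (SV d) ≃o WithTop (SV d))
    (h : ∀ (i : Fin d) (a : ℤˣ), γ (SV.unit i a : WithTop (SV d)) = (SV.unit i a : WithTop (SV d))) :
    γ = 1 := by
  refine DFunLike.ext _ _ (fun x => ?_)
  change γ x = x
  induction x using WithTop.recTopCoe with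
  | top => exact γ.map_top
  | coe s =>
    obtain ⟨t, ht⟩ : ∃ t : SV d, γ (s : WithTop (SV d)) = (t : WithTop (SV d)) := by
      have : γ (s : WithTop (SV d)) ≠ ⊤ := by
        intro h
        rw [← γ.map_top] at h
        exact WithTop.coe_ne_top (γ.injective h)
      obtain ⟨t, ht⟩ := WithTop.ne_top_iff_exists.1 this
      exact ⟨t, ht.symm⟩
    rw [ht]
    congr 1
    have key : ∀ i a, t i = some a ↔ s i = some a := by
      intro i a
      have e1 : (SV.unit i a : WithTop (SV d)) ≤ (t : WithTop (SV d)) ↔
          (SV.unit i a : WithTop (SV d)) ≤ (s : WithTop (SV d)) := by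
        rw [← ht]
        conv_lhs => rw [← h i a]
        exact γ.le_iff_le
      rw [WithTop.coe_le_coe, WithTop.coe_le_coe, unit_le_iff, unit_le_iff] at e1
      exact e1
    exact le_antisymm (fun i a => (key i a).1) (fun i a => (key i a).2)

theorem baseX_free {d : ℕ} (hd : 0 < d) (γ : WithTop (SV d) ≃o WithTop (SV d))
    (h : γ • baseX d = baseX d) : γ = 1 := by
  have hfin : Finite (WithTop (SV d)) := by
    have : Finite (SV d) := by unfold SV; infer_instance
    change Finite (Option (SV d))
    infer_instance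
  have hfix := fix_of_smul_flag_eq (baseX d) γ h
  have hI : ∀ j ≤ d, γ (initV d j : WithTop (SV d)) = (initV d j : WithTop (SV d)) :=
    fun j hj => hfix _ (Or.inr ⟨j, hj, rfl⟩)
  have hp : ∀ i : Fin d, γ (SV.unit i 1 : WithTop (SV d)) = (SV.unit i 1 : WithTop (SV d)) := by
    intro i
    have h1 : IsAtom (γ (SV.unit i 1 : WithTop (SV d))) := (OrderIso.isAtom_iff γ _).2 (isAtom_unit i 1)
    obtain ⟨j, b, hj⟩ := eq_unit_of_isAtom hd h1
    have h2 : γ (SV.unit i 1 : WithTop (SV d)) ≤ (initV d (i + 1) : WithTop (SV d)) := by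
      rw [← hI (i + 1) (by omega), γ.le_iff_le, WithTop.coe_le_coe, unit_le_iff]
      simp [initV]
    have h3 : ¬ γ (SV.unit i 1 : WithTop (SV d)) ≤ (initV d i : WithTop (SV d)) := by
      rw [← hI i (by omega), γ.le_iff_le, WithTop.coe_le_coe, unit_le_iff]
      simp [initV]
    rw [hj, WithTop.coe_le_coe, unit_le_iff] at h2 h3
    rw [hj]
    unfold initV at h2 h3
    by_cases h4 : (j : ℕ) < i + 1
    · rw [if_pos h4] at h2
      have hb : b = 1 := by simpa using h2.symm
      by_cases h5 : (j : ℕ) < i
      · rw [if_pos h5, hb] at h3; exact absurd rfl h3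
      · have : j = i := Fin.ext (by omega)
        rw [this, hb]
    · rw [if_neg h4] at h2; exact absurd h2 (by simp)
  apply eq_one_of_fix_atoms
  intro i a
  rcases Int.units_eq_one_or a with ha | ha
  · rw [ha]; exact hp i
  · rw [ha]
    have h1 : IsAtom (γ (SV.unit i (-1) : WithTop (SV d))) :=
      (OrderIso.isAtom_iff γ _).2 (isAtom_unit i (-1))
    obtain ⟨j, b, hj⟩ := eq_unit_of_isAtom hd h1
    by_cases hji : j = i
    · subst hji
      rcases Int.units_eq_one_or b with hb | hb
      · rw [hb, ← hp j] at hj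
        have := WithTop.coe_injective (γ.injective hj)
        have := congrFun this j
        simp [SV.unit] at this
      · rw [hj, hb]
    · exfalso
      let s : SV d := fun l => if l = j then some b else if l = i then some 1 else none
      have hs1 : (SV.unit j b : WithTop (SV d)) ≤ (s : WithTop (SV d)) := by
        rw [WithTop.coe_le_coe, unit_le_iff]; simp [s]
      have hs2 : (SV.unit i 1 : WithTop (SV d)) ≤ (s : WithTop (SV d)) := by
        rw [WithTop.coe_le_coe, unit_le_iff]; simp [s, Ne.symm hji]
      rw [← hj, ← γ.apply_symm_apply (s : WithTop (SV d)), γ.le_iff_le] at hs1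
      rw [← hp i, ← γ.apply_symm_apply (s : WithTop (SV d)), γ.le_iff_le] at hs2
      have hne : γ.symm (s : WithTop (SV d)) ≠ ⊤ := by
        intro h
        rw [← γ.symm.map_top] at h
        exact WithTop.coe_ne_top (γ.symm.injective h)
      obtain ⟨t, ht⟩ := WithTop.ne_top_iff_exists.1 hne
      rw [← ht, WithTop.coe_le_coe, unit_le_iff] at hs1 hs2
      rw [hs1] at hs2
      simp at hs2

theorem baseX_trans {d : ℕ} (Φ : Flag (WithTop (SV d))) : ∃ b : Bn d, actX d b • baseX d = Φ := by
  classical
  have hfin : Finite (SV d) := by unfold SV; infer_instance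
  obtain ⟨σ, hσ⟩ := exists_sort {s : SV d | (s : WithTop (SV d)) ∈ Φ} SV.supp (by
    intro x hx y hy
    rcases Φ.le_or_le hx hy with h | h
    · left; exact SV.supp_mono (WithTop.coe_le_coe.1 h)
    · right; exact SV.supp_mono (WithTop.coe_le_coe.1 h))
  let ε : Fin d → ℤˣ := fun i =>
    if h : ∃ a, ∃ s : SV d, (s : WithTop (SV d)) ∈ Φ ∧ s i = some a then h.choose else 1
  have hε : ∀ s : SV d, (s : WithTop (SV d)) ∈ Φ → ∀ i a, s i = some a → ε i = a := by
    intro s hs i a hi
    have hex : ∃ a, ∃ s : SV d, (s : WithTop (SV d)) ∈ Φ ∧ s i = some a := ⟨a, s, hs, hi⟩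
    have h1 : ε i = hex.choose := dif_pos hex
    obtain ⟨t, ht, hti⟩ := hex.choose_spec
    rw [h1]
    rcases Φ.le_or_le hs ht with h | h
    · have := WithTop.coe_le_coe.1 h i a hi
      rw [hti] at this
      exact Option.some_injective _ this
    · have := WithTop.coe_le_coe.1 h i _ hti
      rw [hi] at this
      exact (Option.some_injective _ this).symm
  refine ⟨⟨ε, σ⟩, (flag_eq_of_subset _ _ ?_).symm⟩
  intro x hx
  change x ∈ ((actX d ⟨ε, σ⟩ • baseX d : Flag (WithTop (SV d))) : Set (WithTop (SV d)))
  rw [Flag.coe_smul]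
  induction x using WithTop.recTopCoe with
  | top => exact ⟨⊤, Or.inl rfl, rfl⟩
  | coe s =>
    refine ⟨(initV d s.weight : WithTop (SV d)), Or.inr ⟨s.weight, s.weight_le, rfl⟩, ?_⟩
    change actX d ⟨ε, σ⟩ (initV d s.weight : WithTop (SV d)) = (s : WithTop (SV d))
    rw [actX_coe]
    congr 1
    funext i
    change (initV d s.weight (σ.symm i)).map (fun a => ε i * a) = s i
    have h1 := hσ s hx
    have h2 : i ∈ s.supp ↔ ((σ.symm i : Fin d) : ℕ) < s.weight := by
      rw [SV.weight_eq]
      have : (σ.symm i) ∈ s.supp.map σ.symm.toEmbedding ↔ i ∈ s.supp := by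
        rw [Finset.mem_map_equiv]; simp
      rw [← this, h1]
      simp
    by_cases hi : i ∈ s.supp
    · obtain ⟨a, ha⟩ := (SV.mem_supp s i).1 hi
      unfold initV
      rw [if_pos (h2.1 hi), ha, ← hε s hx i a ha]
      simp
    · unfold initV
      rw [if_neg (fun h => hi (h2.2 h)), (SV.not_mem_supp s i).1 hi]
      rfl

theorem actX_surjective {d : ℕ} (hd : 0 < d) : Function.Surjective (actX d) := by
  intro γ
  obtain ⟨σ, hσ⟩ := baseX_trans (γ • baseX d)
  refine ⟨σ, ?_⟩
  have : ((actX d σ)⁻¹ * γ) • baseX d = baseX d := by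
    rw [mul_smul, ← hσ, inv_smul_smul]
  exact inv_mul_eq_one.1 (baseX_free hd _ this)

theorem flagOrbits_cross {d : ℕ} (hd : 0 < d) (f : WithTop (SV d) → E d) :
    flagOrbits rkCross f = ((symGroup rkCross f).comap (actX d)).index := by
  have h1 : flagOrbits rkCross f = (symGroup rkCross f).index := by
    refine card_orbits_eq_index (baseX d) ?_ (fun g hg => baseX_free hd g hg) _
    intro Φ
    obtain ⟨σ, hσ⟩ := baseX_trans Φ
    exact ⟨_, hσ⟩
  rw [h1]
  exact (Subgroup.index_comap_of_surjective _ (actX_surjective hd)).symm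

end Lib_helper64.FO
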