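import Pool.Agent.Lib_helper64.FO.BnGrp

namespace Lib_helper64.FO

open Subgroup
open scoped RealInnerProductSpace

theorem svFun_unit {d : ℕ} (b : Bn d) (i : Fin d) (a : ℤˣ) :
    svFun b (SV.unit i a) = SV.unit (b.right i) (b.left (b.right i) * a) := by
  funext j
  change (SV.unit i a (b.right.symm j)).map (fun x => b.left j * x) = _
  unfold SV.unit
  have e : b.right.symm j = i ↔ j = b.right i := Equiv.symm_apply_eq _
  by_cases h : j = b.right i
  · rw [if_pos (e.2 h), if_pos h, h]; rfl
  · rw [if_neg (fun h' => h (e.1 h')), if_neg h]; rfl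

theorem weight_unit {d : ℕ} (i : Fin d) (a : ℤˣ) : (SV.unit i a).weight = 1 := by
  rw [SV.weight_eq, Finset.card_eq_one]
  refine ⟨i, ?_⟩
  ext j
  rw [SV.mem_supp, Finset.mem_singleton]
  unfold SV.unit
  by_cases h : j = i <;> simp [h]

theorem rkCross_vertex {d : ℕ} (i : Fin d) (a : ℤˣ) : rkCross (crossVertex i a) = 0 := by
  change ((SV.unit i a).weight : ℤ) - 1 = 0
  rw [weight_unit]; simp

theorem exists_vertex_of_rk {d : ℕ} (hd : 0 < d) (v : WithTop (SV d)) (hv : rkCross v = 0) :
    ∃ i a, v = crossVertex i a := by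
  induction v using WithTop.recTopCoe with
  | top =>
    rw [rkCross_top] at hv; omega
  | coe s =>
    rw [rkCross_coe, SV.weight_eq] at hv
    have hc : s.supp.card = 1 := by omega
    obtain ⟨i, hi⟩ := Finset.card_eq_one.1 hc
    have : i ∈ s.supp := by rw [hi]; simp
    obtain ⟨a, ha⟩ := (SV.mem_supp s i).1 this
    refine ⟨i, a, ?_⟩
    unfold crossVertex
    congr 1
    symm
    apply SV.eq_of_le ((unit_le_iff i a s).2 ha)
    rw [hc, ← SV.weight_eq, weight_unit]

theorem mem_symGroup_cross {d : ℕ} (hd : 0 < d) (f : WithTop (SV d) → E d) (b : Bn d) :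
    b ∈ (symGroup rkCross f).comap (actX d) ↔
      ∃ T : E d ≃ᵢ E d, ∀ i a, T (f (crossVertex i a)) =
        f (crossVertex (b.right i) (b.left (b.right i) * a)) := by
  rw [Subgroup.mem_comap]
  constructor
  · rintro ⟨_, T, hT⟩
    refine ⟨T, fun i a => ?_⟩
    rw [hT _ (rkCross_vertex i a)]
    unfold crossVertex
    rw [actX_coe, svFun_unit]
  · rintro ⟨T, hT⟩
    refine ⟨rkCross_actX b, T, ?_⟩
    intro v hv
    obtain ⟨i, a, rfl⟩ := exists_vertex_of_rk hd v hv
    rw [hT i a]
    unfold crossVertex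
    rw [actX_coe, svFun_unit]

theorem CrossForm.dist_sq {d : ℕ} {f : WithTop (SV d) → E d} {c : E d}
    {u : OrthonormalBasis (Fin d) ℝ (E d)} {s : Fin d → ℝ} (h : CrossForm f c u s)
    (i j : Fin d) (a b : ℤˣ) :
    dist (f (crossVertex i a)) (f (crossVertex j b)) ^ 2 =
      if i = j then (((a : ℤ) : ℝ) - ((b : ℤ) : ℝ)) ^ 2 * s i ^ 2 else s i ^ 2 + s j ^ 2 := by
  have ha : (((a : ℤ) : ℝ)) ^ 2 = 1 := by
    rcases Int.units_eq_one_or a with h | h <;> rw [h] <;> norm_num
  have hb : (((b : ℤ) : ℝ)) ^ 2 = 1 := by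
    rcases Int.units_eq_one_or b with h | h <;> rw [h] <;> norm_num
  rw [h.2, h.2, dist_eq_norm, add_sub_add_left_eq_sub]
  by_cases hij : i = j
  · subst hij
    rw [if_pos rfl, ← sub_smul, norm_smul, u.orthonormal.1 i, mul_one, Real.norm_eq_abs, sq_abs]
    ring
  · rw [if_neg hij, ← real_inner_self_eq_norm_sq, inner_sub_left, inner_sub_right, inner_sub_right,
      inner_smul_left, inner_smul_right, inner_smul_left, inner_smul_right, inner_smul_left,
      inner_smul_right, inner_smul_left, inner_smul_right]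
    have e1 : ⟪u i, u j⟫ = 0 := u.orthonormal.2 hij
    have e2 : ⟪u j, u i⟫ = 0 := u.orthonormal.2 (Ne.symm hij)
    have e3 : ⟪u i, u i⟫ = 1 := by rw [real_inner_self_eq_norm_sq, u.orthonormal.1 i]; norm_num
    have e4 : ⟪u j, u j⟫ = 1 := by rw [real_inner_self_eq_norm_sq, u.orthonormal.1 j]; norm_num
    rw [e1, e2, e3, e4]
    simp only [conj_trivial]
    nlinarith

theorem CrossForm.mem_iff {d : ℕ} (hd : 0 < d) {f : WithTop (SV d) → E d} {c : E d}
    {u : OrthonormalBasis (Fin d) ℝ (E d)} {s : Fin d → ℝ} (h : CrossForm f c u s) (b : Bn d) :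
    b ∈ (symGroup rkCross f).comap (actX d) ↔ ∀ i, s (b.right i) = s i := by
  rw [mem_symGroup_cross hd]
  constructor
  · rintro ⟨T, hT⟩ i
    have e1 := h.dist_sq i i 1 (-1)
    have e2 := h.dist_sq (b.right i) (b.right i) (b.left (b.right i) * 1) (b.left (b.right i) * (-1))
    rw [← hT, ← hT, T.isometry.dist_eq, e1, if_pos rfl, if_pos rfl] at e2
    have h1 := h.1 i
    have h2 := h.1 (b.right i)
    have e3 : ((((b.left (b.right i) * 1 : ℤˣ) : ℤ) : ℝ) -
        (((b.left (b.right i) * (-1) : ℤˣ) : ℤ) : ℝ)) ^ 2 = 4 := by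
      rcases Int.units_eq_one_or (b.left (b.right i)) with h | h <;> rw [h] <;> norm_num
    rw [e3] at e2
    norm_num at e2
    have : s i ^ 2 = s (b.right i) ^ 2 := by linarith
    exact ((pow_left_inj₀ h1.le h2.le two_ne_zero).1 this).symm
  · intro hs
    obtain ⟨T, hT⟩ := exists_isometry (fun p : Fin d × ℤˣ => f (crossVertex p.1 p.2))
      (fun p : Fin d × ℤˣ => f (crossVertex (b.right p.1) (b.left (b.right p.1) * p.2))) (by
        rintro ⟨i, a⟩ ⟨j, a'⟩
        have e1 := h.dist_sq i j a a'
        have e2 := h.dist_sq (b.right i) (b.right j) (b.left (b.right i) * a)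
          (b.left (b.right j) * a')
        have e3 : dist (f (crossVertex i a)) (f (crossVertex j a')) ^ 2 =
            dist (f (crossVertex (b.right i) (b.left (b.right i) * a)))
              (f (crossVertex (b.right j) (b.left (b.right j) * a'))) ^ 2 := by
          rw [e1, e2]
          by_cases hij : i = j
          · subst hij
            rw [if_pos rfl, if_pos rfl, hs]
            congr 1
            rcases Int.units_eq_one_or (b.left (b.right i)) with h | h <;> rw [h]
            · simp
            · simp only [neg_mul, one_mul, Units.val_neg, Int.cast_neg]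
              ring
          · rw [if_neg hij, if_neg (fun h' => hij (b.right.injective h')), hs, hs]
        exact (pow_left_inj₀ dist_nonneg dist_nonneg two_ne_zero).1 e3)
    exact ⟨T, fun i a => hT (i, a)⟩

theorem index_fix {d : ℕ} (p : Fin d) :
    ((MulAction.stabilizer (Equiv.Perm (Fin d)) p).comap
      (SemidirectProduct.rightHom : Bn d →* _)).index = d := by
  rw [index_comap_of_surjective _ SemidirectProduct.rightHom_surjective,
    MulAction.index_stabilizer_of_transitive]
  simp

theorem CrossForm.orbits_one {d : ℕ} (hd : 0 < d) {f : WithTop (SV d) → E d} {c : E d}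
    {u : OrthonormalBasis (Fin d) ℝ (E d)} {s : Fin d → ℝ} (h : CrossForm f c u s)
    (hs : ∀ i j, s i = s j) : flagOrbits rkCross f = 1 := by
  rw [flagOrbits_cross hd, index_eq_one, eq_top_iff]
  intro b _
  rw [h.mem_iff hd]
  intro i; exact hs _ _

theorem CrossForm.orbits_d {d : ℕ} (hd : 2 ≤ d) {f : WithTop (SV d) → E d} {c : E d}
    {u : OrthonormalBasis (Fin d) ℝ (E d)} {s : Fin d → ℝ} (h : CrossForm f c u s)
    (p : Fin d) (hs : ∀ i j, i ≠ p → j ≠ p → s i = s j) (hp : ∀ i, i ≠ p → s i ≠ s p) :
    flagOrbits rkCross f = d := by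
  rw [flagOrbits_cross (by omega)]
  refine Eq.trans ?_ (index_fix p)
  congr 1
  ext b
  rw [h.mem_iff (by omega), mem_comap, MulAction.mem_stabilizer_iff]
  change _ ↔ b.right p = p
  constructor
  · intro hb
    by_contra hne
    exact hp _ hne (hb p)
  · intro hb i
    by_cases hi : i = p
    · rw [hi, hb]
    · exact hs _ _ (fun h' => hi (b.right.injective (h'.trans hb.symm))) hi

theorem CrossForm.faithful {d : ℕ} (hd : 0 < d) {f : WithTop (SV d) → E d} {c : E d}
    {u : OrthonormalBasis (Fin d) ℝ (E d)} {s : Fin d → ℝ} (h : CrossForm f c u s) :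
    Faithful rkCross f := by
  apply faithful_of_injective
  · intro F G hF hG hFG
    obtain ⟨i, a, rfl⟩ := exists_vertex_of_rk hd F hF
    obtain ⟨j, b, rfl⟩ := exists_vertex_of_rk hd G hG
    have e := h.dist_sq i j a b
    rw [hFG, dist_self] at e
    have h1 := h.1 i
    have h2 := h.1 j
    by_cases hij : i = j
    · subst hij
      rw [if_pos rfl] at e
      have : (((a : ℤ) : ℝ) - ((b : ℤ) : ℝ)) ^ 2 = 0 := by
        by_contra hne
        have h3 : 0 < (((a : ℤ) : ℝ) - ((b : ℤ) : ℝ)) ^ 2 := lt_of_le_of_ne (sq_nonneg _) (Ne.symm hne)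
        have h4 : 0 < s i ^ 2 := by positivity
        have := mul_pos h3 h4
        rw [← e] at this
        norm_num at this
      have h3 : ((a : ℤ) : ℝ) = ((b : ℤ) : ℝ) := by
        have := pow_eq_zero_iff (two_ne_zero) |>.1 this
        linarith
      have h4 : (a : ℤ) = (b : ℤ) := by exact_mod_cast h3
      rw [Units.ext h4]
    · rw [if_neg hij] at e
      nlinarith [pow_pos h1 2, pow_pos h2 2]
  · intro m F G hF hG h1 h2
    have key : ∀ s t : SV d, s.weight = m + 2 →
        (∀ K, rkCross K = (m : ℤ) → K ≤ (s : WithTop (SV d)) → K ≤ (t : WithTop (SV d))) → s ≤ t := by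
      intro s t hs h i a hia
      have hi : i ∈ s.supp := (SV.mem_supp s i).2 ⟨a, hia⟩
      obtain ⟨K, hK1, hK2, hK3⟩ := Finset.exists_subsuperset_card_eq
        (Finset.singleton_subset_iff.2 hi) (n := m + 1) (by simp) (by rw [← SV.weight_eq]; omega)
      let r : SV d := fun j => if j ∈ K then s j else none
      have hr : r ≤ s := by
        intro j b hb
        simp only [r] at hb
        by_cases hj : j ∈ K
        · rw [if_pos hj] at hb; exact hb
        · rw [if_neg hj] at hb; exact absurd hb (by simp)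
      have hrs : r.supp = K := by
        ext j
        rw [SV.mem_supp]
        simp only [r]
        by_cases hj : j ∈ K
        · simp only [if_pos hj, hj, iff_true]
          exact (SV.mem_supp s j).1 (hK2 hj)
        · simp [hj]
      have := h (r : WithTop (SV d)) (by rw [rkCross_coe, SV.weight_eq, hrs, hK3]; push_cast; ring)
        (WithTop.coe_le_coe.2 hr)
      have := WithTop.coe_le_coe.1 this i a (by
        simp only [r]; rw [if_pos (hK1 (Finset.mem_singleton_self i))]; exact hia)
      exact this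
    induction F using WithTop.recTopCoe with
    | top =>
      induction G using WithTop.recTopCoe with
      | top => rfl
      | coe t =>
        exfalso
        rw [rkCross_top] at hF
        rw [rkCross_coe] at hG
        have := t.weight_le
        omega
    | coe s =>
      induction G using WithTop.recTopCoe with
      | top =>
        exfalso
        rw [rkCross_top] at hG
        rw [rkCross_coe] at hF
        have := s.weight_le
        omega
      | coe t =>
        rw [rkCross_coe] at hF hG
        rw [le_antisymm (key s t (by omega) h1) (key t s (by omega) h2)]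

/-- A function on `Fin d` whose stabiliser has index at most `d` is constant or constant outside one
point, at which it takes another value. -/
theorem small_index_fun {d : ℕ} (hd : 3 ≤ d) {α : Type*} (s : Fin d → α)
    (K : Subgroup (Equiv.Perm (Fin d))) (hK : K.index ≤ d) (hKs : ∀ σ ∈ K, ∀ i, s (σ i) = s i) :
    (∀ i j, s i = s j) ∨ ∃ p, (∀ i j, i ≠ p → j ≠ p → s i = s j) ∧ ∀ i, i ≠ p → s i ≠ s p := by
  classical
  -- invariant sets have size 0, 1, d-1, d
  have hsz : ∀ A : Finset (Fin d), (∀ σ ∈ K, ∀ i, σ i ∈ A ↔ i ∈ A) →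
      A.card ≤ 1 ∨ d ≤ A.card + 1 := by
    intro A hA
    by_contra hcon
    push Not at hcon
    let a : Set.powersetCard (Fin d) A.card := ⟨A, rfl⟩
    have hle : K ≤ MulAction.stabilizer (Equiv.Perm (Fin d)) a := by
      intro σ hσ
      rw [mem_stab_iff]
      exact hA σ hσ
    have h1 := index_antitone hle
    rw [index_stab_powersetCard] at h1
    have h2 := choose_ge_of_mid d A.card (by omega) (by omega)
    have h3 := two_choose_eq d
    obtain ⟨e, rfl⟩ : ∃ e, d = e + 4 := ⟨d - 4, by omega⟩
    have e1 : e + 4 - 1 = e + 3 := by omega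
    rw [e1] at h3
    nlinarith
  by_cases hconst : ∀ i j, s i = s j
  · exact Or.inl hconst
  right
  push Not at hconst
  obtain ⟨i0, j0, hij⟩ := hconst
  let Lv : Fin d → Finset (Fin d) := fun i => Finset.univ.filter (fun l => s l = s i)
  have hLv : ∀ i, ∀ σ ∈ K, ∀ l, σ l ∈ Lv i ↔ l ∈ Lv i := by
    intro i σ hσ l
    simp only [Lv, Finset.mem_filter, Finset.mem_univ, true_and]
    rw [hKs σ hσ l]
  -- some level set has d-1 elements
  obtain ⟨q, hq⟩ : ∃ q, d ≤ (Lv q).card + 1 := by
    by_contra hcon
    push Not at hcon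
    have h1 : ∀ i, (Lv i).card ≤ 1 := by
      intro i
      rcases hsz (Lv i) (hLv i) with h | h
      · exact h
      · have := hcon i; omega
    have h2 := hsz (Lv i0 ∪ Lv j0) (by
      intro σ hσ l
      rw [Finset.mem_union, Finset.mem_union, hLv i0 σ hσ, hLv j0 σ hσ])
    have h3 : (Lv i0 ∪ Lv j0).card ≤ 2 := by
      have := Finset.card_union_le (Lv i0) (Lv j0)
      have := h1 i0; have := h1 j0; omega
    have h4 : 2 ≤ (Lv i0 ∪ Lv j0).card := by
      have : ({i0, j0} : Finset (Fin d)) ⊆ Lv i0 ∪ Lv j0 := by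
        intro l hl
        rw [Finset.mem_insert, Finset.mem_singleton] at hl
        rw [Finset.mem_union]
        rcases hl with rfl | rfl
        · left; simp [Lv]
        · right; simp [Lv]
      have h5 := Finset.card_le_card this
      rw [Finset.card_pair (by rintro rfl; exact hij rfl)] at h5
      exact h5
    rcases Nat.lt_or_ge d 4 with h5 | h5
    · -- d = 3 and s is injective, so K is trivial
      have hd3 : d = 3 := by omega
      subst hd3
      have hsinj : Function.Injective s := by
        intro a b hab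
        have hab' : b ∈ Lv a := by simp [Lv, hab]
        have haa : a ∈ Lv a := by simp [Lv]
        exact Finset.card_le_one.1 (h1 a) a haa b hab'
      have hK1 : K = ⊥ := by
        rw [eq_bot_iff]
        intro σ hσ
        rw [Subgroup.mem_bot]
        ext i
        have := hsinj (hKs σ hσ i)
        rw [this]; rfl
      rw [hK1, index_bot, Nat.card_perm] at hK
      simp [Nat.factorial] at hK
    · omega
  -- the complement is one point
  have hne : (Lv q)ᶜ.card = 1 := by
    have h1 : (Lv q)ᶜ.card + (Lv q).card = d := by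
      rw [Finset.card_compl]
      have := Finset.card_le_univ (Lv q)
      simp at this ⊢
      omega
    have h2 : (Lv q)ᶜ.card ≠ 0 := by
      intro h0
      rw [Finset.card_eq_zero, Finset.compl_eq_empty_iff] at h0
      have e1 : i0 ∈ Lv q := by rw [h0]; simp
      have e2 : j0 ∈ Lv q := by rw [h0]; simp
      simp only [Lv, Finset.mem_filter, Finset.mem_univ, true_and] at e1 e2
      exact hij (e1.trans e2.symm)
    omega
  obtain ⟨p, hp⟩ := Finset.card_eq_one.1 hne
  have hmem : ∀ i, s i = s q ↔ i ≠ p := by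
    intro i
    have : i ∈ (Lv q)ᶜ ↔ i = p := by rw [hp, Finset.mem_singleton]
    simp only [Lv, Finset.mem_compl, Finset.mem_filter, Finset.mem_univ, true_and] at this
    rw [← not_iff_not, this, not_not]
  refine ⟨p, fun i j hi hj => ?_, fun i hi h => ?_⟩
  · rw [(hmem i).2 hi, (hmem j).2 hj]
  · rw [(hmem i).2 hi] at h
    exact (hmem p).1 h.symm rfl

theorem exists_third {d : ℕ} (hd : 3 ≤ d) (i j : Fin d) : ∃ m : Fin d, m ≠ i ∧ m ≠ j := by
  classical
  obtain ⟨m, _, hm⟩ := Finset.exists_mem_notMem_of_card_lt_card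
    (s := ({i, j} : Finset (Fin d))) (t := Finset.univ) (by
      have := Finset.card_le_two (a := i) (b := j)
      rw [Finset.card_univ, Fintype.card_fin]; omega)
  rw [Finset.mem_insert, Finset.mem_singleton, not_or] at hm
  exact ⟨m, hm⟩

theorem comap_rightHom_le {d : ℕ} (H : Subgroup (Bn d)) :
    (H.map (SemidirectProduct.rightHom : Bn d →* _)).index ≤ H.index := by
  rw [index_Bn H]
  exact Nat.le_mul_of_pos_right _ (Nat.pos_of_ne_zero index_ne_zero_of_finite)

/-- an orthogonal family of `d` nonzero vectors in `E d` separates points -/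
theorem eq_zero_of_inner {d : ℕ} (u : Fin d → E d) (hu : ∀ i j, i ≠ j → ⟪u i, u j⟫ = 0)
    (hne : ∀ i, u i ≠ 0) (w : E d) (hw : ∀ i, ⟪w, u i⟫ = 0) : w = 0 := by
  have hli : LinearIndependent ℝ u :=
    linearIndependent_of_ne_zero_of_inner_eq_zero hne (fun i j hij => hu i j hij)
  have hspan : Submodule.span ℝ (Set.range u) = ⊤ :=
    hli.span_eq_top_of_card_eq_finrank' (by simp)
  have hmem : w ∈ Submodule.span ℝ (Set.range u) := by rw [hspan]; trivial
  have : ∀ x ∈ Submodule.span ℝ (Set.range u), ⟪w, x⟫ = 0 := by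
    intro x hx
    induction hx using Submodule.span_induction with
    | mem x hx => obtain ⟨i, rfl⟩ := hx; exact hw i
    | zero => simp
    | add x y _ _ h1 h2 => rw [inner_add_right, h1, h2, add_zero]
    | smul a x _ h => rw [inner_smul_right, h, mul_zero]
  exact inner_self_eq_zero.1 (this w hmem)

theorem orthoBasis_of {d : ℕ} (u : Fin d → E d) (hu : ∀ i j, i ≠ j → ⟪u i, u j⟫ = 0)
    (hne : ∀ i, u i ≠ 0) : ∃ b : OrthonormalBasis (Fin d) ℝ (E d), ∀ i, u i = ‖u i‖ • b i := by
  have hon : Orthonormal ℝ (fun i => ‖u i‖⁻¹ • u i) := by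
    constructor
    · intro i
      rw [norm_smul, norm_inv, norm_norm, inv_mul_cancel₀ (norm_ne_zero_iff.2 (hne i))]
    · intro i j hij
      change ⟪‖u i‖⁻¹ • u i, ‖u j‖⁻¹ • u j⟫ = 0
      rw [inner_smul_left, inner_smul_right, hu i j hij]; simp
  have hspan : ⊤ ≤ Submodule.span ℝ (Set.range (fun i => ‖u i‖⁻¹ • u i)) := by
    rw [hon.linearIndependent.span_eq_top_of_card_eq_finrank' (by simp)]
  refine ⟨OrthonormalBasis.mk hon hspan, fun i => ?_⟩
  rw [OrthonormalBasis.coe_mk, smul_smul, mul_inv_cancel₀ (norm_ne_zero_iff.2 (hne i)), one_smul]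

theorem cross_form_of_small {d : ℕ} (hd : 3 ≤ d) (f : WithTop (SV d) → E d)
    (hf : Faithful rkCross f) (ho : flagOrbits rkCross f ≤ d) :
    ∃ c u s, CrossForm f c u s := by
  have hd0 : 0 < d := by omega
  rw [flagOrbits_cross hd0] at ho
  have hflip := Bn_flips hd _ ho
  -- sign independence of the distances
  have hsgn1 : ∀ i j : Fin d, i ≠ j → ∀ a b : ℤˣ,
      dist (f (crossVertex i a)) (f (crossVertex j b)) =
        dist (f (crossVertex i (-a))) (f (crossVertex j b)) := by
    intro i j hij a b
    obtain ⟨m, hm1, hm2⟩ := exists_third hd i j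
    obtain ⟨T, hT⟩ := (mem_symGroup_cross hd0 f _).1 (hflip i m (Ne.symm hm1))
    have e1 := hT i a
    have e2 := hT j b
    simp only [SemidirectProduct.right_inl, Equiv.Perm.coe_one, id_eq,
      SemidirectProduct.left_inl] at e1 e2
    have g1 : flip2 i m i = -1 := by simp [flip2]
    have g2 : flip2 i m j = 1 := by simp [flip2, Ne.symm hij, Ne.symm hm2]
    rw [g1, neg_one_mul] at e1
    rw [g2, one_mul] at e2
    rw [← T.isometry.dist_eq, e1, e2]
  have hinj : ∀ i : Fin d, f (crossVertex i 1) ≠ f (crossVertex i (-1)) := by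
    intro i h
    have h1 : crossVertex i 1 = crossVertex i (-1) :=
      hf 0 _ _ (by rw [rkCross_vertex]; rfl) (by rw [rkCross_vertex]; rfl) h
    have h2 := congrFun (WithTop.coe_injective h1) i
    simp [SV.unit] at h2
  set u : Fin d → E d := fun i => (1 / 2 : ℝ) • (f (crossVertex i 1) - f (crossVertex i (-1))) with hu
  set c : Fin d → E d := fun i => (1 / 2 : ℝ) • (f (crossVertex i 1) + f (crossVertex i (-1))) with hc
  have hp : ∀ i, f (crossVertex i 1) = c i + u i := by
    intro i; simp only [hu, hc]; rw [← smul_add]; module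
  have hm : ∀ i, f (crossVertex i (-1)) = c i - u i := by
    intro i; simp only [hu, hc]; module
  have hrel : ∀ i j : Fin d, i ≠ j → ⟪u i, u j⟫ = 0 ∧ ⟪c i - c j, u i⟫ = 0 := by
    intro i j hij
    have h1 := hsgn1 i j hij 1 1
    have h2 := hsgn1 i j hij 1 (-1)
    rw [dist_eq_norm, dist_eq_norm, hp, hp, hm] at h1
    rw [dist_eq_norm, dist_eq_norm, hp, hm, hm] at h2
    have sq1 : ∀ x y : E d, ‖x‖ = ‖y‖ → ⟪x, x⟫ = ⟪y, y⟫ := by
      intro x y h
      rw [real_inner_self_eq_norm_sq, real_inner_self_eq_norm_sq, h]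
    have h1' := sq1 _ _ h1
    have h2' := sq1 _ _ h2
    simp only [inner_sub_left, inner_sub_right, inner_add_left, inner_add_right] at h1' h2' ⊢
    rw [real_inner_comm (c i) (u i), real_inner_comm (c j) (u i), real_inner_comm (u j) (u i),
      real_inner_comm (c j) (c i), real_inner_comm (u j) (c i), real_inner_comm (u j) (c j)] at *
    constructor
    · linarith
    · linarith
  have hune : ∀ i, u i ≠ 0 := by
    intro i h
    apply hinj i
    rw [hp, hm, h]; simp
  have hceq : ∀ i j, c i = c j := by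
    intro i j
    by_cases hij : i = j
    · rw [hij]
    have : c i - c j = 0 := by
      apply eq_zero_of_inner u (fun i j hij => (hrel i j hij).1) hune
      intro l
      by_cases hl : l = i
      · rw [hl]; exact (hrel i j hij).2
      by_cases hl2 : l = j
      · rw [hl2, ← neg_sub, inner_neg_left, (hrel j i (Ne.symm hij)).2, neg_zero]
      · have e1 := (hrel l i hl).2
        have e2 := (hrel l j hl2).2
        have : c i - c j = (c l - c j) - (c l - c i) := by abel
        rw [this, inner_sub_left, e1, e2, sub_zero]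
    exact sub_eq_zero.1 this
  obtain ⟨b, hb⟩ := orthoBasis_of u (fun i j hij => (hrel i j hij).1) hune
  refine ⟨c ⟨0, hd0⟩, b, fun i => ‖u i‖, fun i => norm_pos_iff.2 (hune i), fun i a => ?_⟩
  rw [hceq ⟨0, hd0⟩ i]
  rcases Int.units_eq_one_or a with ha | ha
  · rw [ha, hp i]
    simp only [Units.val_one, Int.cast_one, one_mul]
    rw [← hb i]
  · rw [ha, hm i]
    simp only [Units.val_neg, Units.val_one, Int.cast_neg, Int.cast_one, neg_mul, one_mul, neg_smul]
    rw [← hb i, sub_eq_add_neg]

/-- Classification for the cross-polytope. -/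
theorem cross_class {d : ℕ} (hd : 3 ≤ d) (f : WithTop (SV d) → E d) (k : ℕ) (hk : k ≤ d) :
    IsOrbitRealization rkCross f k ↔
      ∃ (c : E d) (u : OrthonormalBasis (Fin d) ℝ (E d)) (s : Fin d → ℝ), CrossForm f c u s ∧
        ((k = 1 ∧ ∀ i j, s i = s j) ∨
          (k = d ∧ ∃ p, (∀ i j, i ≠ p → j ≠ p → s i = s j) ∧ ∀ i, i ≠ p → s i ≠ s p)) := by
  have hd0 : 0 < d := by omega
  constructor
  · rintro ⟨hf, ho⟩
    obtain ⟨c, u, s, h⟩ := cross_form_of_small hd f hf (by omega)
    refine ⟨c, u, s, h, ?_⟩
    have hidx : (((symGroup rkCross f).comap (actX d)).map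
        (SemidirectProduct.rightHom : Bn d →* _)).index ≤ d := by
      refine (comap_rightHom_le _).trans ?_
      rw [← flagOrbits_cross hd0, ho]; exact hk
    rcases small_index_fun hd s _ hidx (by
      rintro σ ⟨b, hb, rfl⟩ i
      exact (h.mem_iff hd0 b).1 hb i) with h1 | ⟨p, h1, h2⟩
    · left
      exact ⟨by rw [← ho, h.orbits_one hd0 h1], h1⟩
    · right
      exact ⟨by rw [← ho, h.orbits_d (by omega) p h1 h2], p, h1, h2⟩
  · rintro ⟨c, u, s, h, h1⟩
    refine ⟨h.faithful hd0, ?_⟩
    rcases h1 with ⟨rfl, h1⟩ | ⟨rfl, p, h1, h2⟩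
    · exact h.orbits_one hd0 h1
    · exact h.orbits_d (by omega) p h1 h2

end Lib_helper64.FO
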