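import Pool.Agent.Lib_helper64.FO.CubeOrb

namespace Lib_helper64.FO

open Subgroup
open scoped RealInnerProductSpace Pointwise

theorem FormII.toFormI {d : ℕ} {g : (Fin d → ℤˣ) → E d} {c : E d}
    {u : OrthonormalBasis (Fin d) ℝ (E d)} {p : Fin d} {α β γ δ : Bool} {a b : ℝ}
    (h : FormII g c u p α β γ δ a b) (h1 : α = false) (h2 : γ = true) (h3 : β = δ) (h4 : a = b) :
    FormI g c u a (if β then -a else a) := by
  classical
  subst h1 h2 h3 h4
  intro x
  rw [h.2.2 x, add_assoc]
  congr 1
  have e : (a * sg ((if true = true then x p else 1) * (if β then par x else 1))) • u p +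
      ∑ i ∈ Finset.univ.erase p,
        (a * sg (x i * (if false = true then x p else 1) * (if β then par x else 1))) • u i =
      ∑ i, (a * sg (x i * (if β then par x else 1))) • u i := by
    rw [← Finset.add_sum_erase _ _ (Finset.mem_univ p)]
    congr 1
    refine Finset.sum_congr rfl (fun i _ => ?_)
    simp
  rw [e, Finset.smul_sum]
  refine Finset.sum_congr rfl (fun i _ => ?_)
  rw [smul_smul]
  congr 1
  rcases Int.units_eq_one_or (par x) with hx | hx
  · rw [hx]; simp
  · rw [hx, if_neg (show ¬ ((-1 : ℤˣ) = 1) by decide)]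
    cases β
    · simp
    · simp [sg_neg]

theorem FormII.orbits_d {d : ℕ} (hd : 4 ≤ d) {f : (WithTop (SV d))ᵒᵈ → E d} {c : E d}
    {u : OrthonormalBasis (Fin d) ℝ (E d)} {p : Fin d} {α β γ δ : Bool} {a b : ℝ}
    (h : FormII (fun x => f (cubeVertex x)) c u p α β γ δ a b)
    (hc : ¬ (α = false ∧ γ = true ∧ β = δ ∧ a = b)) : flagOrbits rkCube f = d := by
  rw [flagOrbits_cube (by omega)]
  refine Eq.trans ?_ (index_fix p)
  congr 1
  ext B
  rw [mem_comap (f := (SemidirectProduct.rightHom : Bn d →* _)), MulAction.mem_stabilizer_iff]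
  change _ ↔ B.right p = p
  constructor
  · intro hB
    by_contra hne
    exact hc (h.crit hd B hB hne)
  · intro hB
    exact h.mem_of_fix B hB

/-- Explicit injectivity condition for the first family. -/
theorem FormI.injective_iff {d : ℕ} (hd : 4 ≤ d) {g : (Fin d → ℤˣ) → E d} {c : E d}
    {u : OrthonormalBasis (Fin d) ℝ (E d)} {a b : ℝ} (h : FormI g c u a b) :
    Function.Injective g ↔ a ≠ 0 ∧ b ≠ 0 ∧ (b = -a → Even d) := by
  have hd0 : 0 < d := by omega
  let z : Fin d := ⟨0, by omega⟩
  let z1 : Fin d := ⟨1, by omega⟩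
  have hz : z ≠ z1 := by intro h; have := congrArg Fin.val h; simp [z, z1] at this
  have hpn : par (-1 : Fin d → ℤˣ) = (-1) ^ d := by
    unfold par
    simp [Finset.prod_const]
  constructor
  · intro hinj
    refine ⟨?_, ?_, ?_⟩
    · rintro rfl
      have e1 := h 1
      have e2 := h (flip2 z z1)
      rw [par_one, if_pos rfl, zero_smul] at e1
      rw [par_flip2 hz, if_pos rfl, zero_smul] at e2
      have := congrFun (hinj (e1.trans e2.symm)) z
      simp [flip2] at this
    · rintro rfl
      have e1 := h (flip1 z)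
      have e2 := h (flip1 z1)
      rw [par_flip1, if_neg (by decide), zero_smul] at e1
      rw [par_flip1, if_neg (by decide), zero_smul] at e2
      have := congrFun (hinj (e1.trans e2.symm)) z
      simp [flip1, hz] at this
    · intro hb
      by_contra hodd
      rw [Nat.not_even_iff_odd] at hodd
      have e1 := h 1
      have e2 := h (-1)
      rw [par_one, if_pos rfl] at e1
      rw [hpn, hodd.neg_one_pow, if_neg (by decide), hb] at e2
      have e3 : g 1 = g (-1) := by
        rw [e1, e2]
        congr 1
        have : ∀ i, sg ((-1 : Fin d → ℤˣ) i) • u i = - (sg ((1 : Fin d → ℤˣ) i) • u i) := by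
          intro i
          simp [sg_neg]
        rw [Finset.sum_congr rfl (fun i _ => this i), Finset.sum_neg_distrib, smul_neg, neg_smul, neg_neg]
      have := congrFun (hinj e3) z
      simp at this
  · rintro ⟨ha, hb, hab⟩ x y hxy
    -- inner products with the basis vectors
    have hin : ∀ w : Fin d → ℤˣ, ∀ i, ⟪u i, g w - c⟫ = coI a b w * sg (w i) := by
      intro w i
      rw [h w, add_sub_cancel_left, inner_smul_right, inner_sum, Finset.sum_eq_single i]
      · rw [inner_smul_right, real_inner_self_eq_norm_sq, u.orthonormal.1 i]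
        unfold coI; ring
      · intro j _ hj
        rw [inner_smul_right, u.orthonormal.2 (Ne.symm hj), mul_zero]
      · intro h'; exact absurd (Finset.mem_univ i) h'
    have hco : ∀ i, coI a b x * sg (x i) = coI a b y * sg (y i) := by
      intro i; rw [← hin x i, ← hin y i, hxy]
    have hne : ∀ w : Fin d → ℤˣ, coI a b w ≠ 0 := by
      intro w; unfold coI; split_ifs <;> assumption
    by_cases hxy' : par x = par y
    · have hc : coI a b x = coI a b y := by unfold coI; rw [hxy']
      funext i
      have h1 := hco i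
      rw [hc] at h1
      exact sg_injective (mul_left_cancel₀ (hne y) h1)
    · exfalso
      -- the ratio is constant
      have key : ∀ i, sg (x i * y i) = coI a b y / coI a b x := by
        intro i
        have h1 := hco i
        have h2 := sg_mul_self (y i)
        rw [sg_mul, eq_div_iff (hne x)]
        linear_combination sg (y i) * h1 + coI a b y * h2
      have hconst : ∀ i, x i * y i = x z * y z := by
        intro i
        apply sg_injective
        rw [key i, key z]
      rcases Int.units_eq_one_or (x z * y z) with h0 | h0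
      · apply hxy'
        have : x = y := by
          funext i
          have h1 := (hconst i).trans h0
          calc x i = x i * (y i * y i) := by rw [units_mul_self, mul_one]
            _ = (x i * y i) * y i := by rw [mul_assoc]
            _ = y i := by rw [h1, one_mul]
        rw [this]
      · have hy : y = -x := by
          funext i
          have h1 := (hconst i).trans h0
          calc y i = (x i * x i) * y i := by rw [units_mul_self, one_mul]
            _ = x i * (x i * y i) := by rw [mul_assoc]
            _ = -x i := by rw [h1]; simp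
        have hk := key z
        rw [h0, sg_neg, sg_one, eq_div_iff (hne x)] at hk
        have hpar : par y = par (-1 : Fin d → ℤˣ) * par x := by
          rw [hy, ← par_mul]; congr 1; funext i; simp
        rw [hpn] at hpar
        have hba : b = -a := by
          unfold coI at hk
          rcases Int.units_eq_one_or (par x) with h1 | h1 <;>
            rcases Int.units_eq_one_or (par y) with h2 | h2 <;>
            rw [h1, h2] at hk hxy' <;> simp at hk hxy' <;> linarith
        rw [(hab hba).neg_one_pow, one_mul] at hpar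
        exact hxy' hpar.symm

/-- a vector with prescribed value `ρ` at `p` and `τ` elsewhere -/
def tv {d : ℕ} (p : Fin d) (τ ρ : ℤˣ) : Fin d → ℤˣ := fun i => if i = p then ρ else τ

theorem par_tv {d : ℕ} (p : Fin d) (τ ρ : ℤˣ) : par (tv p τ ρ) = ρ * τ ^ (d - 1) := by
  classical
  unfold par
  rw [← Finset.mul_prod_erase _ _ (Finset.mem_univ p)]
  have h1 : tv p τ ρ p = ρ := by simp [tv]
  have h2 : ∀ i ∈ Finset.univ.erase p, tv p τ ρ i = τ := by
    intro i hi; simp [tv, (Finset.mem_erase.1 hi).1]
  rw [h1, Finset.prod_congr rfl h2, Finset.prod_const, Finset.card_erase_of_mem (Finset.mem_univ p)]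
  simp

theorem FormII.eq_iff {d : ℕ} {g : (Fin d → ℤˣ) → E d} {c : E d}
    {u : OrthonormalBasis (Fin d) ℝ (E d)} {p : Fin d} {α β γ δ : Bool} {a b : ℝ}
    (h : FormII g c u p α β γ δ a b) (x y : Fin d → ℤˣ) :
    g x = g y ↔ cB γ δ p x = cB γ δ p y ∧ ∀ i, i ≠ p → cA α β p i x = cA α β p i y := by
  classical
  constructor
  · intro hxy
    have h1 := h.dist_sq x y
    rw [hxy, dist_self] at h1
    have hn : ∀ i ∈ Finset.univ.erase p,
        0 ≤ a ^ 2 * (sg (cA α β p i x) - sg (cA α β p i y)) ^ 2 := fun i _ => by positivity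
    have hs := Finset.sum_nonneg hn
    have hb2 : 0 ≤ b ^ 2 * (sg (cB γ δ p x) - sg (cB γ δ p y)) ^ 2 := by positivity
    have ha := h.1
    have hb := h.2.1
    have e1 : b ^ 2 * (sg (cB γ δ p x) - sg (cB γ δ p y)) ^ 2 = 0 := by
      have : (0 : ℝ) ^ 2 = 0 := by norm_num
      linarith
    have e2 : ∑ i ∈ Finset.univ.erase p,
        a ^ 2 * (sg (cA α β p i x) - sg (cA α β p i y)) ^ 2 = 0 := by
      have : (0 : ℝ) ^ 2 = 0 := by norm_num
      linarith
    rw [Finset.sum_eq_zero_iff_of_nonneg hn] at e2
    have hz : ∀ (r s t : ℝ), 0 < r → r ^ 2 * (s - t) ^ 2 = 0 → s = t := by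
      intro r s t hr h'
      have h2 : r ^ 2 ≠ 0 := by positivity
      have h3 : (s - t) ^ 2 = 0 := by
        rcases mul_eq_zero.1 h' with h4 | h4
        · exact absurd h4 h2
        · exact h4
      exact sub_eq_zero.1 (pow_eq_zero_iff two_ne_zero |>.1 h3)
    exact ⟨sg_injective (hz b _ _ hb e1), fun i hi =>
      sg_injective (hz a _ _ ha (e2 i (Finset.mem_erase.2 ⟨hi, Finset.mem_univ i⟩)))⟩
  · rintro ⟨h1, h2⟩
    rw [h.2.2 x, h.2.2 y]
    unfold cB at h1
    rw [h1]
    congr 1
    refine Finset.sum_congr rfl (fun i hi => ?_)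
    have := h2 i (Finset.mem_erase.1 hi).1
    unfold cA at this
    rw [this]

theorem FormII.injective_iff {d : ℕ} (hd : 4 ≤ d) {g : (Fin d → ℤˣ) → E d} {c : E d}
    {u : OrthonormalBasis (Fin d) ℝ (E d)} {p : Fin d} {α β γ δ : Bool} {a b : ℝ}
    (h : FormII g c u p α β γ δ a b) : Function.Injective g ↔ Indep d α β γ δ := by
  classical
  obtain ⟨q, hq, _⟩ := exists_third (by omega : 3 ≤ d) p p
  -- injectivity in terms of the vectors tv
  have h1 : Function.Injective g ↔ ∀ τ ρ : ℤˣ,
      τ * (if α then ρ else 1) * (if β then ρ * τ ^ (d - 1) else 1) = 1 →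
      (if γ then ρ else 1) * (if δ then ρ * τ ^ (d - 1) else 1) = 1 → τ = 1 ∧ ρ = 1 := by
    constructor
    · intro hinj τ ρ h1 h2
      have : g (tv p τ ρ) = g 1 := by
        rw [h.eq_iff]
        constructor
        · unfold cB
          rw [par_tv, par_one]
          have : tv p τ ρ p = ρ := by simp [tv]
          rw [this, h2]; simp
        · intro i hi
          unfold cA
          rw [par_tv, par_one]
          have e1 : tv p τ ρ p = ρ := by simp [tv]
          have e2 : tv p τ ρ i = τ := by simp [tv, hi]
          rw [e1, e2, h1]; simp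
      have h3 := hinj this
      have e1 := congrFun h3 p
      have e2 := congrFun h3 q
      simp only [tv, if_pos, Pi.one_apply, if_neg hq] at e1 e2
      exact ⟨e2, e1⟩
    · intro hker x y hxy
      rw [h.eq_iff] at hxy
      obtain ⟨hB, hA⟩ := hxy
      set t := x * y with ht
      have hpt : par t = par x * par y := par_mul x y
      have hA' : ∀ i, i ≠ p → t i * (if α then t p else 1) * (if β then par t else 1) = 1 := by
        intro i hi
        have h2 := hA i hi
        unfold cA at h2
        have h3 : t i * (if α then t p else 1) * (if β then par t else 1) =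
            (x i * (if α then x p else 1) * (if β then par x else 1)) *
            (y i * (if α then y p else 1) * (if β then par y else 1)) := by
          rw [hpt]
          have e : ∀ j, t j = x j * y j := fun j => rfl
          rw [e, e]
          cases α <;> cases β <;> simp [mul_assoc, mul_comm, mul_left_comm]
        rw [h3, h2, units_mul_self]
      have hB' : (if γ then t p else 1) * (if δ then par t else 1) = 1 := by
        unfold cB at hB
        have h3 : (if γ then t p else 1) * (if δ then par t else 1) =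
            ((if γ then x p else 1) * (if δ then par x else 1)) *
            ((if γ then y p else 1) * (if δ then par y else 1)) := by
          rw [hpt]
          have e : ∀ j, t j = x j * y j := fun j => rfl
          rw [e]
          cases γ <;> cases δ <;> simp [mul_assoc, mul_comm, mul_left_comm]
        rw [h3, hB, units_mul_self]
      have hconst : ∀ i, i ≠ p → t i = t q := by
        intro i hi
        have h2 := (hA' i hi).trans (hA' q hq).symm
        exact mul_right_cancel (mul_right_cancel h2)
      have htv : t = tv p (t q) (t p) := by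
        funext i
        unfold tv
        by_cases hi : i = p
        · rw [if_pos hi, hi]
        · rw [if_neg hi, hconst i hi]
      have hpt2 : par t = t p * t q ^ (d - 1) := by
        conv_lhs => rw [htv]
        rw [par_tv]
      have h4 := hker (t q) (t p) (by rw [← hpt2]; exact hA' q hq) (by rw [← hpt2]; exact hB')
      have h5 : ∀ i, t i = 1 := by
        intro i
        by_cases hi : i = p
        · rw [hi]; exact h4.2
        · rw [hconst i hi]; exact h4.1
      funext i
      have h6 : x i * y i = 1 := h5 i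
      calc x i = x i * (y i * y i) := by rw [units_mul_self, mul_one]
        _ = (x i * y i) * y i := by rw [mul_assoc]
        _ = y i := by rw [h6, one_mul]
  rw [h1]
  have hpow : ∀ τ : ℤˣ, τ = 1 ∨ τ = -1 := Int.units_eq_one_or
  have hn1 : ((-1 : ℤˣ) = 1) ↔ False := by decide
  have hn2 : ((1 : ℤˣ) = -1) ↔ False := by decide
  rcases Nat.even_or_odd d with hev | hodd
  · have hodd' : Odd (d - 1) := by
      obtain ⟨k, hk⟩ := hev
      exact ⟨k - 1, by omega⟩
    have hno : ¬ Odd d := Nat.not_odd_iff_even.2 hev
    have e0 : (-1 : ℤˣ) ^ (d - 1) = -1 := hodd'.neg_one_pow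
    unfold Indep
    constructor
    · intro hk
      have k1 := hk 1 (-1)
      have k2 := hk (-1) 1
      have k3 := hk (-1) (-1)
      rw [e0] at k2 k3
      rw [one_pow] at k1
      cases α <;> cases β <;> cases γ <;> cases δ <;>
        simp [hn1, hn2, hev, hno] at k1 k2 k3 ⊢
    · intro hI τ ρ
      rcases hpow τ with rfl | rfl <;> rcases hpow ρ with rfl | rfl <;>
        cases α <;> cases β <;> cases γ <;> cases δ <;>
        simp [hn1, hn2, hev, hno, e0] at hI ⊢
  · have hev' : Even (d - 1) := by
      obtain ⟨k, hk⟩ := hodd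
      exact ⟨k, by omega⟩
    have hne : ¬ Even d := Nat.not_even_iff_odd.2 hodd
    have e0 : (-1 : ℤˣ) ^ (d - 1) = 1 := hev'.neg_one_pow
    unfold Indep
    constructor
    · intro hk
      have k1 := hk 1 (-1)
      have k2 := hk (-1) 1
      have k3 := hk (-1) (-1)
      rw [e0] at k2 k3
      rw [one_pow] at k1
      cases α <;> cases β <;> cases γ <;> cases δ <;>
        simp [hn1, hn2, hodd, hne] at k1 k2 k3 ⊢
    · intro hI τ ρ
      rcases hpow τ with rfl | rfl <;> rcases hpow ρ with rfl | rfl <;>
        cases α <;> cases β <;> cases γ <;> cases δ <;>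
        simp [hn1, hn2, hodd, hne, e0] at hI ⊢

/-- Classification for the cube. -/
theorem cube_class {d : ℕ} (hd : 4 ≤ d) (f : (WithTop (SV d))ᵒᵈ → E d) (k : ℕ) (hk : k ≤ d) :
    IsOrbitRealization rkCube f k ↔
      ∃ (c : E d) (u : OrthonormalBasis (Fin d) ℝ (E d)),
        (∃ a b : ℝ, FormI (fun x => f (cubeVertex x)) c u a b ∧
          (a ≠ 0 ∧ b ≠ 0 ∧ (b = -a → Even d)) ∧
          ((k = 1 ∧ a ^ 2 = b ^ 2) ∨ (k = 2 ∧ a ^ 2 ≠ b ^ 2))) ∨
        (∃ (p : Fin d) (α β γ δ : Bool) (a b : ℝ),
          FormII (fun x => f (cubeVertex x)) c u p α β γ δ a b ∧ Indep d α β γ δ ∧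
          ¬ (α = false ∧ γ = true ∧ β = δ ∧ a = b) ∧ k = d) := by
  have hd0 : 0 < d := by omega
  constructor
  · rintro ⟨hf, ho⟩
    have hinj := (cube_faithful_iff f).1 hf
    have hI : ∀ c u a b, FormI (fun x => f (cubeVertex x)) c u a b →
        ∃ (c : E d) (u : OrthonormalBasis (Fin d) ℝ (E d)),
        (∃ a b : ℝ, FormI (fun x => f (cubeVertex x)) c u a b ∧
          (a ≠ 0 ∧ b ≠ 0 ∧ (b = -a → Even d)) ∧
          ((k = 1 ∧ a ^ 2 = b ^ 2) ∨ (k = 2 ∧ a ^ 2 ≠ b ^ 2))) ∨
        (∃ (p : Fin d) (α β γ δ : Bool) (a b : ℝ),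
          FormII (fun x => f (cubeVertex x)) c u p α β γ δ a b ∧ Indep d α β γ δ ∧
          ¬ (α = false ∧ γ = true ∧ β = δ ∧ a = b) ∧ k = d) := by
      intro c u a b h
      refine ⟨c, u, Or.inl ⟨a, b, h, (h.injective_iff hd).1 hinj, ?_⟩⟩
      by_cases hab : a ^ 2 = b ^ 2
      · left; exact ⟨by rw [← ho, h.orbits_one hd0 hab], hab⟩
      · right; exact ⟨by rw [← ho, h.orbits_two (by omega) hab], hab⟩
    rcases cube_forms hd f hf (by omega) with ⟨c, u, a, b, h⟩ | ⟨c, u, p, α, β, γ, δ, a, b, h⟩
    · exact hI c u a b h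
    · by_cases hc : α = false ∧ γ = true ∧ β = δ ∧ a = b
      · exact hI c u _ _ (h.toFormI hc.1 hc.2.1 hc.2.2.1 hc.2.2.2)
      · exact ⟨c, u, Or.inr ⟨p, α, β, γ, δ, a, b, h, (h.injective_iff hd).1 hinj, hc,
          by rw [← ho, h.orbits_d hd hc]⟩⟩
  · rintro ⟨c, u, ⟨a, b, h, hi, h1⟩ | ⟨p, α, β, γ, δ, a, b, h, hi, hc, rfl⟩⟩
    · refine ⟨(cube_faithful_iff f).2 ((h.injective_iff hd).2 hi), ?_⟩
      rcases h1 with ⟨rfl, hab⟩ | ⟨rfl, hab⟩
      · exact h.orbits_one hd0 hab
      · exact h.orbits_two (by omega) hab
    · exact ⟨(cube_faithful_iff f).2 ((h.injective_iff hd).2 hi), h.orbits_d hd hc⟩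

end Lib_helper64.FO
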