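import Pool.Agent.Lib_helper64.FO.CubePoset

namespace Lib_helper64.FO

open Subgroup
open scoped RealInnerProductSpace Pointwise

/-- `H` acts on the realization `g` of the vertices by isometries; this is the linear part. -/
def Acts {d : ℕ} (g : (Fin d → ℤˣ) → E d) (b : Bn d) : Prop :=
  ∃ L : E d ≃ₗᵢ[ℝ] E d, ∀ x y, L (g x - g y) = g (bx b x) - g (bx b y)

theorem chi_singleton {d : ℕ} (i : Fin d) (x : Fin d → ℤˣ) : chi {i} x = x i := by
  simp [chi]

theorem chi_empty {d : ℕ} (x : Fin d → ℤˣ) : chi ∅ x = 1 := by simp [chi]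

theorem chi_univ {d : ℕ} (x : Fin d → ℤˣ) : chi Finset.univ x = par x := rfl

theorem chi_compl {d : ℕ} (S : Finset (Fin d)) (x : Fin d → ℤˣ) : chi Sᶜ x = chi S x * par x := by
  have : chi S x * chi Sᶜ x = par x := Finset.prod_mul_prod_compl S x
  rw [← this, ← mul_assoc, units_mul_self, one_mul]

theorem hat_flip_orth {d : ℕ} (g : (Fin d → ℤˣ) → E d) (t : Fin d → ℤˣ)
    (h : Acts g (SemidirectProduct.inl t)) (S S' : Finset (Fin d)) (hS : S.Nonempty)
    (hS' : S'.Nonempty) (hne : chi S t ≠ chi S' t) : ⟪hat g S, hat g S'⟫ = 0 := by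
  obtain ⟨L, hL⟩ := h
  have e1 := hat_lin g _ L hL S hS
  have e2 := hat_lin g _ L hL S' hS'
  have hid : ∀ S : Finset (Fin d), S.map
      (Equiv.toEmbedding (SemidirectProduct.inl t : Bn d).right) = S := by
    intro S
    ext i
    rw [Finset.mem_map_equiv]
    exact Iff.rfl
  rw [hid] at e1 e2
  have e3 : (SemidirectProduct.inl t : Bn d).left = t := rfl
  rw [e3] at e1 e2
  have h1 : ⟪L (hat g S), L (hat g S')⟫ = ⟪hat g S, hat g S'⟫ := L.inner_map_map _ _
  rw [e1, e2, inner_smul_left, inner_smul_right] at h1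
  have h2 : sg (chi S t) * sg (chi S' t) = -1 := by
    rcases Int.units_eq_one_or (chi S t) with h | h <;>
      rcases Int.units_eq_one_or (chi S' t) with h' | h' <;> rw [h, h'] at hne ⊢ <;>
      simp [sg] at hne ⊢
  simp only [conj_trivial] at h1
  rw [← mul_assoc, h2] at h1
  linarith

theorem hat_orth {d : ℕ} (g : (Fin d → ℤˣ) → E d)
    (hfl : ∀ i j : Fin d, i ≠ j → Acts g (SemidirectProduct.inl (flip2 i j)))
    (S S' : Finset (Fin d)) (hS : S.Nonempty) (hS' : S'.Nonempty) (hne : S ≠ S') (hnc : S' ≠ Sᶜ) :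
    ⟪hat g S, hat g S'⟫ = 0 := by
  classical
  obtain ⟨i, hi⟩ : ∃ i, (i ∈ S ↔ i ∉ S') := by
    by_contra hcon
    push Not at hcon
    apply hne
    ext i
    have := hcon i
    tauto
  obtain ⟨j, hj⟩ : ∃ j, (j ∈ S ↔ j ∈ S') := by
    by_contra hcon
    push Not at hcon
    apply hnc
    ext j
    rw [Finset.mem_compl]
    have := hcon j
    tauto
  have hij : i ≠ j := by
    rintro rfl
    tauto
  apply hat_flip_orth g (flip2 i j) (hfl i j hij) S S' hS hS'
  rw [flip2_eq hij, chi_mul, chi_mul, chi_flip1, chi_flip1, chi_flip1, chi_flip1]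
  by_cases h1 : i ∈ S <;> by_cases h2 : i ∈ S' <;> by_cases h3 : j ∈ S <;> by_cases h4 : j ∈ S' <;>
    simp [h1, h2, h3, h4] at hi hj ⊢

theorem hat_norm {d : ℕ} (g : (Fin d → ℤˣ) → E d) (b : Bn d) (h : Acts g b) (S : Finset (Fin d))
    (hS : S.Nonempty) : ‖hat g (S.map b.right.toEmbedding)‖ = ‖hat g S‖ := by
  obtain ⟨L, hL⟩ := h
  have e1 := hat_lin g _ L hL S hS
  have : ‖L (hat g S)‖ = ‖hat g S‖ := L.norm_map _
  rw [← this, e1, norm_smul]
  have : ‖sg (chi (S.map b.right.toEmbedding) b.left)‖ = 1 := by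
    rcases sg_eq_or (chi (S.map b.right.toEmbedding) b.left) with h | h <;> rw [h] <;> simp
  rw [this, one_mul]

/-- for pure permutations -/
theorem hat_inr {d : ℕ} (g : (Fin d → ℤˣ) → E d) (σ : Equiv.Perm (Fin d)) (L : E d ≃ₗᵢ[ℝ] E d)
    (hL : ∀ x y, L (g x - g y) =
      g (bx (SemidirectProduct.inr σ : Bn d) x) - g (bx (SemidirectProduct.inr σ : Bn d) y))
    (S : Finset (Fin d)) (hS : S.Nonempty) :
    L (hat g S) = hat g (S.map σ.toEmbedding) := by
  have e1 := hat_lin g _ L hL S hS
  have e2 : (SemidirectProduct.inr σ : Bn d).right = σ := rfl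
  rw [e2] at e1
  rw [e1]
  have : chi (S.map σ.toEmbedding) (SemidirectProduct.inr σ : Bn d).left = 1 := by
    unfold chi
    exact Finset.prod_eq_one (fun i _ => rfl)
  rw [this, sg_one, one_smul]

/-- orthogonal nonzero Fourier coefficients: at most `d` -/
theorem card_le_of_orth {d : ℕ} (g : (Fin d → ℤˣ) → E d) (F : Finset (Finset (Fin d)))
    (hne : ∀ S ∈ F, hat g S ≠ 0) (ho : ∀ S ∈ F, ∀ S' ∈ F, S ≠ S' → ⟪hat g S, hat g S'⟫ = 0) :
    F.card ≤ d := by
  classical
  have hli : LinearIndependent ℝ (fun S : F => hat g (S : Finset (Fin d))) :=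
    linearIndependent_of_ne_zero_of_inner_eq_zero (fun S => hne S S.2)
      (fun S S' h => ho S S.2 S' S'.2 (fun h' => h (Subtype.ext h')))
  have := hli.fintype_card_le_finrank
  simpa using this

theorem exists_alt_map {d : ℕ} (S S' : Finset (Fin d)) (hc : S'.card = S.card) (h2 : 2 ≤ S.card) :
    ∃ σ ∈ alternatingGroup (Fin d), S.map σ.toEmbedding = S' := by
  classical
  have := Set.powersetCard.isPretransitive (α := Fin d) (n := S.card)
  obtain ⟨g, hg⟩ := MulAction.exists_smul_eq (Equiv.Perm (Fin d))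
    (⟨S, rfl⟩ : Set.powersetCard (Fin d) S.card) ⟨S', hc⟩
  have hg' : S.map g.toEmbedding = S' := by
    have h1 := congrArg (fun s : Set.powersetCard (Fin d) S.card => (s : Finset (Fin d))) hg
    simp only [Set.powersetCard.coe_smul] at h1
    rw [← h1]
    ext i
    rw [Finset.mem_map_equiv, ← Finset.inv_smul_mem_iff]
    exact Iff.rfl
  rcases Int.units_eq_one_or (Equiv.Perm.sign g) with h | h
  · exact ⟨g, Equiv.Perm.mem_alternatingGroup.2 h, hg'⟩
  · obtain ⟨a, ha, b, hb, hab⟩ := Finset.one_lt_card.1 (show 1 < S.card by omega)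
    refine ⟨g * Equiv.swap a b, ?_, ?_⟩
    · rw [Equiv.Perm.mem_alternatingGroup, Equiv.Perm.sign_mul, h, Equiv.Perm.sign_swap hab]; simp
    · rw [← hg']
      ext i
      rw [Finset.mem_map_equiv, Finset.mem_map_equiv]
      change Equiv.swap a b (g.symm i) ∈ S ↔ g.symm i ∈ S
      by_cases h1 : g.symm i = a
      · rw [h1]; simp [ha, hb]
      by_cases h3 : g.symm i = b
      · rw [h3]; simp [ha, hb]
      rw [Equiv.swap_apply_of_ne_of_ne h1 h3]

theorem compl_card {d : ℕ} (S : Finset (Fin d)) : Sᶜ.card + S.card = d := by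
  rw [Finset.card_compl]
  have := Finset.card_le_univ S
  simp at this ⊢
  omega

/-- The Fourier coefficients in the middle vanish if the alternating group acts. -/
theorem mid_zero_of_alt {d : ℕ} (hd : 5 ≤ d) (g : (Fin d → ℤˣ) → E d)
    (hfl : ∀ i j : Fin d, i ≠ j → Acts g (SemidirectProduct.inl (flip2 i j)))
    (halt : ∀ σ ∈ alternatingGroup (Fin d), Acts g (SemidirectProduct.inr σ))
    (S : Finset (Fin d)) (h2 : 2 ≤ S.card) (h2' : S.card + 2 ≤ d) : hat g S = 0 := by
  classical
  by_contra hne
  have hall : ∀ S' : Finset (Fin d), S'.card = S.card → hat g S' ≠ 0 := by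
    intro S' hc
    obtain ⟨σ, hσ, hS⟩ := exists_alt_map S S' hc h2
    have h1 := hat_norm g _ (halt σ hσ) S (Finset.card_pos.1 (by omega))
    have h3 : (SemidirectProduct.inr σ : Bn d).right = σ := rfl
    rw [h3, hS] at h1
    rw [← norm_ne_zero_iff, h1]
    exact norm_ne_zero_iff.2 hne
  have hnonempty : ∀ S' : Finset (Fin d), S'.card = S.card → S'.Nonempty :=
    fun S' h => Finset.card_pos.1 (by omega)
  rcases Nat.lt_or_ge S.card 3 with h3 | h3
  · have hS2 : S.card = 2 := by omega
    have := card_le_of_orth g (Finset.powersetCard 2 Finset.univ) (fun S' hS' => by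
        rw [Finset.mem_powersetCard] at hS'
        exact hall S' (by omega)) (fun S1 h1 S3 h3 hne' => by
        rw [Finset.mem_powersetCard] at h1 h3
        apply hat_orth g hfl S1 S3 (hnonempty _ (by omega)) (hnonempty _ (by omega)) hne'
        rintro rfl
        have := compl_card S1
        omega)
    rw [Finset.card_powersetCard, Finset.card_univ, Fintype.card_fin] at this
    have := two_choose_ge hd
    omega
  · let z : Fin d := ⟨0, by omega⟩
    let F : Finset (Finset (Fin d)) :=
      (Finset.powersetCard (S.card - 1) (Finset.univ.erase z)).image (fun A => insert z A)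
    have hFmem : ∀ A ∈ F, z ∈ A ∧ A.card = S.card := by
      intro A hA
      obtain ⟨B, hB, rfl⟩ := Finset.mem_image.1 hA
      rw [Finset.mem_powersetCard] at hB
      refine ⟨Finset.mem_insert_self _ _, ?_⟩
      rw [Finset.card_insert_of_notMem, hB.2]
      · omega
      · intro h
        exact (Finset.mem_erase.1 (hB.1 h)).1 rfl
    have hFc : F.card = (d - 1).choose (S.card - 1) := by
      rw [Finset.card_image_of_injOn, Finset.card_powersetCard, Finset.card_erase_of_mem (Finset.mem_univ z)]
      · simp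
      · intro A hA B hB hAB
        have hA' := Finset.mem_powersetCard.1 (Finset.mem_coe.1 hA)
        have hB' := Finset.mem_powersetCard.1 (Finset.mem_coe.1 hB)
        have hzA : z ∉ A := fun h => (Finset.mem_erase.1 (hA'.1 h)).1 rfl
        have hzB : z ∉ B := fun h => (Finset.mem_erase.1 (hB'.1 h)).1 rfl
        have := congrArg (fun C => Finset.erase C z) hAB
        simpa [Finset.erase_insert hzA, Finset.erase_insert hzB] using this
    have := card_le_of_orth g F (fun A hA => hall A (hFmem A hA).2) (fun A hA B hB hne' => by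
      apply hat_orth g hfl A B (hnonempty _ (hFmem A hA).2) (hnonempty _ (hFmem B hB).2) hne'
      rintro rfl
      exact (Finset.mem_compl.1 (hFmem _ hB).1) (hFmem _ hA).1)
    rw [hFc] at this
    have h4 := choose_ge_of_mid (d - 1) (S.card - 1) (by omega) (by omega)
    have h5 := two_choose_eq (d - 1)
    obtain ⟨e, rfl⟩ : ∃ e, d = e + 5 := ⟨d - 5, by omega⟩
    have e1 : e + 5 - 1 = e + 4 := by omega
    have e2 : e + 4 - 1 = e + 3 := by omega
    rw [e1, e2] at h5
    rw [e1] at h4 this
    nlinarith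

/-- Sum over all subsets of a function supported in sizes `0, 1, d-1, d`. -/
theorem sum_decomp {d : ℕ} (hd : 3 ≤ d) (F : Finset (Fin d) → E d)
    (hF : ∀ S : Finset (Fin d), 2 ≤ S.card → S.card + 2 ≤ d → F S = 0) :
    ∑ S : Finset (Fin d), F S = F ∅ + F Finset.univ + ∑ i, F {i} + ∑ i, F {i}ᶜ := by
  classical
  have h0 : ∑ S : Finset (Fin d), F S =
      ∑ j ∈ Finset.range (d + 1), ∑ S ∈ Finset.powersetCard j (Finset.univ : Finset (Fin d)), F S := by
    have := Finset.sum_powerset (Finset.univ : Finset (Fin d)) F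
    rw [Finset.powerset_univ, Finset.card_univ, Fintype.card_fin] at this
    exact this
  obtain ⟨e, rfl⟩ : ∃ e, d = e + 3 := ⟨d - 3, by omega⟩
  rw [h0]
  set G : ℕ → E (e + 3) := fun j =>
    ∑ S ∈ Finset.powersetCard j (Finset.univ : Finset (Fin (e + 3))), F S with hG
  have h1 : ∑ j ∈ Finset.range (e + 3 + 1), G j =
      ∑ j ∈ Finset.range e, G (j + 2) + G 1 + G 0 + G (e + 2) + G (e + 3) := by
    rw [Finset.sum_range_succ, Finset.sum_range_succ, Finset.sum_range_succ', Finset.sum_range_succ']
  have h2 : ∑ j ∈ Finset.range e, G (j + 2) = 0 := by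
    apply Finset.sum_eq_zero
    intro j hj
    rw [Finset.mem_range] at hj
    apply Finset.sum_eq_zero
    intro S hS
    rw [Finset.mem_powersetCard] at hS
    exact hF S (by omega) (by omega)
  have h3 : G 0 = F ∅ := by
    simp [hG]
  have h4 : G (e + 3) = F Finset.univ := by
    have : Finset.powersetCard (e + 3) (Finset.univ : Finset (Fin (e + 3))) = {Finset.univ} := by
      have := Finset.powersetCard_self (Finset.univ : Finset (Fin (e + 3)))
      rw [Finset.card_univ, Fintype.card_fin] at this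
      exact this
    simp only [hG]
    rw [this, Finset.sum_singleton]
  have h5 : G 1 = ∑ i, F {i} := by
    simp only [hG]
    rw [Finset.powersetCard_one, Finset.sum_map]
    rfl
  have h6 : G (e + 2) = ∑ i, F {i}ᶜ := by
    have h7 : G (e + 2) = ∑ S ∈ Finset.powersetCard 1 (Finset.univ : Finset (Fin (e + 3))), F Sᶜ := by
      simp only [hG]
      refine Finset.sum_nbij' (fun S => Sᶜ) (fun S => Sᶜ) ?_ ?_ ?_ ?_ ?_
      · intro S hS
        rw [Finset.mem_powersetCard] at hS ⊢
        have := compl_card S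
        exact ⟨Finset.subset_univ _, by omega⟩
      · intro S hS
        rw [Finset.mem_powersetCard] at hS ⊢
        have := compl_card S
        exact ⟨Finset.subset_univ _, by omega⟩
      · intro S _; exact compl_compl S
      · intro S _; exact compl_compl S
      · intro S _; rw [compl_compl]
    rw [h7, Finset.powersetCard_one, Finset.sum_map]
    rfl
  rw [h1, h2, h3, h4, h5, h6]
  abel

/-- In dimension four the Fourier coefficients in the middle vanish. -/
theorem mid_zero_four {d : ℕ} (hd : d = 4) (g : (Fin d → ℤˣ) → E d) (hinj : Function.Injective g)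
    (hfl : ∀ i j : Fin d, i ≠ j → Acts g (SemidirectProduct.inl (flip2 i j)))
    (htr : ∀ i j : Fin d, ∃ σ : Equiv.Perm (Fin d), Acts g (SemidirectProduct.inr σ) ∧ σ i = j)
    (S : Finset (Fin d)) (hS2 : S.card = 2) : hat g S = 0 := by
  classical
  have hcc : ∀ i : Fin d, ({i} : Finset (Fin d))ᶜ.card = 3 := by
    intro i
    have := compl_card ({i} : Finset (Fin d))
    rw [Finset.card_singleton] at this
    omega
  have hc1 : ∀ i : Fin d, ({i} : Finset (Fin d))ᶜ.Nonempty := fun i =>
    Finset.card_pos.1 (by rw [hcc]; norm_num)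
  have hmapc : ∀ (σ : Equiv.Perm (Fin d)) (i : Fin d),
      (({i} : Finset (Fin d))ᶜ).map σ.toEmbedding = {σ i}ᶜ := by
    intro σ i
    ext j
    rw [Finset.mem_map_equiv, Finset.mem_compl, Finset.mem_compl, Finset.mem_singleton,
      Finset.mem_singleton, Equiv.symm_apply_eq]
  have hns : ∀ i j : Fin d, ‖hat g {i}‖ = ‖hat g {j}‖ := by
    intro i j
    obtain ⟨σ, hσ, rfl⟩ := htr i j
    have := hat_norm g _ hσ {i} (Finset.singleton_nonempty i)
    have h4 : (SemidirectProduct.inr σ : Bn d).right = σ := rfl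
    rw [h4, Finset.map_singleton] at this
    exact this.symm
  have hnc : ∀ i j : Fin d, ‖hat g {i}ᶜ‖ = ‖hat g {j}ᶜ‖ := by
    intro i j
    obtain ⟨σ, hσ, rfl⟩ := htr i j
    have := hat_norm g _ hσ {i}ᶜ (hc1 i)
    have h4 : (SemidirectProduct.inr σ : Bn d).right = σ := rfl
    rw [h4, hmapc] at this
    exact this.symm
  let z : Fin d := ⟨0, by omega⟩
  have hSne : S.Nonempty := Finset.card_pos.1 (by omega)
  -- card comparisons
  have key : ∀ w : Fin d → Finset (Fin d), (∀ i, w i = {i}) ∨ (∀ i, w i = {i}ᶜ) →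
      hat g (w z) ≠ 0 → hat g S = 0 := by
    intro w hw hne
    have hwne : ∀ i, (w i).Nonempty := by
      intro i
      rcases hw with h | h
      · rw [h]; exact Finset.singleton_nonempty i
      · rw [h]; exact hc1 i
    have hall : ∀ i, hat g (w i) ≠ 0 := by
      intro i
      rw [← norm_ne_zero_iff] at hne ⊢
      rcases hw with h | h
      · rw [h] at hne ⊢; rw [hns i z]; exact hne
      · rw [h] at hne ⊢; rw [hnc i z]; exact hne
    apply eq_zero_of_inner (fun i => hat g (w i)) _ hall
    · intro i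
      have hwc : (w i).card = 1 ∨ (w i).card = 3 := by
        rcases hw with h | h
        · left; rw [h]; simp
        · right; rw [h]; exact hcc i
      apply hat_orth g hfl S (w i) hSne (hwne i)
      · intro h
        rw [← h, hS2] at hwc
        omega
      · intro h
        have h1 := compl_card S
        rw [← h, hS2] at h1
        omega
    · intro i j hij
      apply hat_orth g hfl (w i) (w j) (hwne i) (hwne j)
      · intro h
        rcases hw with h' | h'
        · rw [h', h'] at h; exact hij (Finset.singleton_injective h)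
        · rw [h', h'] at h; exact hij (Finset.singleton_injective (compl_injective h))
      · intro h
        have h1 := compl_card (w i)
        rw [← h] at h1
        rcases hw with h' | h'
        · rw [h', h', Finset.card_singleton, Finset.card_singleton] at h1; omega
        · rw [h', h', hcc, hcc] at h1; omega
  by_cases h1 : hat g {z} = 0
  · by_cases h2 : hat g {z}ᶜ = 0
    · exfalso
      have hz1 : ∀ i : Fin d, hat g {i} = 0 := by
        intro i; rw [← norm_eq_zero, hns i z, h1, norm_zero]
      have hz2 : ∀ i : Fin d, hat g {i}ᶜ = 0 := by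
        intro i; rw [← norm_eq_zero, hnc i z, h2, norm_zero]
      have hneg : ∀ S : Finset (Fin d), chi S (-1) = (-1) ^ S.card := by
        intro S; unfold chi; simp [Finset.prod_const]
      have : g 1 = g (-1) := by
        rw [hat_inv g 1, hat_inv g (-1)]
        refine Finset.sum_congr rfl (fun S _ => ?_)
        have hS4 := Finset.card_le_univ S
        rw [Fintype.card_fin] at hS4
        have e1 : chi S (1 : Fin d → ℤˣ) = 1 := by unfold chi; simp
        rw [e1, hneg]
        have hcases : S.card = 0 ∨ S.card = 1 ∨ S.card = 2 ∨ S.card = 3 ∨ S.card = 4 := by omega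
        rcases hcases with h | h | h | h | h
        · rw [h]; simp
        · obtain ⟨i, rfl⟩ := Finset.card_eq_one.1 h
          rw [hz1 i]; simp
        · rw [h]; simp
        · have h5 := compl_card S
          obtain ⟨i, hi⟩ := Finset.card_eq_one.1 (show Sᶜ.card = 1 by omega)
          have : S = {i}ᶜ := by rw [← hi, compl_compl]
          rw [this, hz2 i]; simp
        · rw [h]
          have : ((-1 : ℤˣ)) ^ 4 = 1 := by decide
          rw [this]
      have := congrFun (hinj this) z
      simp at this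
    · exact key (fun i => {i}ᶜ) (Or.inr fun _ => rfl) h2
  · exact key (fun i => {i}) (Or.inl fun _ => rfl) h1

theorem formI_of {d : ℕ} (hd : 3 ≤ d) (g : (Fin d → ℤˣ) → E d) (hinj : Function.Injective g)
    (hfl : ∀ i j : Fin d, i ≠ j → Acts g (SemidirectProduct.inl (flip2 i j)))
    (htr : ∀ i j : Fin d, ∃ σ : Equiv.Perm (Fin d), Acts g (SemidirectProduct.inr σ) ∧ σ i = j)
    (hmid : ∀ S : Finset (Fin d), 2 ≤ S.card → S.card + 2 ≤ d → hat g S = 0) :
    ∃ c u a b, FormI g c u a b := by
  classical
  have hdec : ∀ x, g x = hat g ∅ + sg (par x) • hat g Finset.univ + ∑ i, sg (x i) • hat g {i} +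
      ∑ i, (sg (x i) * sg (par x)) • hat g {i}ᶜ := by
    intro x
    rw [hat_inv g x, sum_decomp hd (fun S => sg (chi S x) • hat g S)
      (fun S h1 h2 => by rw [hmid S h1 h2, smul_zero])]
    simp only [chi_empty, sg_one, one_smul, chi_univ, chi_singleton, chi_compl, sg_mul]
  set P : Fin d → E d := fun i => hat g {i} + hat g {i}ᶜ with hP
  set M : Fin d → E d := fun i => hat g {i} - hat g {i}ᶜ with hM
  have heven : ∀ x, par x = 1 → g x = hat g ∅ + hat g Finset.univ + ∑ i, sg (x i) • P i := by
    intro x hx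
    rw [hdec x, hx]
    simp only [sg_one, one_smul, mul_one, hP, smul_add, Finset.sum_add_distrib]
    abel
  have hodd : ∀ x, par x = -1 → g x = hat g ∅ - hat g Finset.univ + ∑ i, sg (x i) • M i := by
    intro x hx
    rw [hdec x, hx]
    simp only [sg_neg, sg_one, neg_smul, one_smul, mul_neg, mul_one, hM, smul_sub,
      Finset.sum_sub_distrib, Finset.sum_neg_distrib]
    abel
  have hc1 : ∀ i : Fin d, ({i} : Finset (Fin d))ᶜ.Nonempty := by
    intro i
    have := compl_card ({i} : Finset (Fin d))
    rw [Finset.card_singleton] at this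
    exact Finset.card_pos.1 (by omega)
  have hcc : ∀ i : Fin d, ({i} : Finset (Fin d))ᶜ.card = d - 1 := by
    intro i
    have := compl_card ({i} : Finset (Fin d))
    rw [Finset.card_singleton] at this
    omega
  have hmapc : ∀ (σ : Equiv.Perm (Fin d)) (i : Fin d),
      (({i} : Finset (Fin d))ᶜ).map σ.toEmbedding = {σ i}ᶜ := by
    intro σ i
    ext j
    rw [Finset.mem_map_equiv, Finset.mem_compl, Finset.mem_compl, Finset.mem_singleton,
      Finset.mem_singleton, Equiv.symm_apply_eq]
  -- transitivity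
  have hact : ∀ i j : Fin d, ∃ L : E d ≃ₗᵢ[ℝ] E d, L (P i) = P j ∧ L (M i) = M j := by
    intro i j
    obtain ⟨σ, ⟨L, hL⟩, rfl⟩ := htr i j
    have e1 := hat_inr g σ L hL {i} (Finset.singleton_nonempty i)
    have e2 := hat_inr g σ L hL {i}ᶜ (hc1 i)
    rw [hmapc] at e2
    rw [Finset.map_singleton] at e1
    have e1' : L (hat g {i}) = hat g {σ i} := e1
    refine ⟨L, ?_, ?_⟩
    · simp only [hP]; rw [map_add, e1', e2]
    · simp only [hM]; rw [map_sub, e1', e2]
  -- orthogonality
  have ho : ∀ i j : Fin d, i ≠ j → ⟪hat g {i}, hat g {j}⟫ = 0 ∧ ⟪hat g {i}, hat g {j}ᶜ⟫ = 0 ∧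
      ⟪hat g {i}ᶜ, hat g {j}⟫ = 0 ∧ ⟪hat g {i}ᶜ, hat g {j}ᶜ⟫ = 0 := by
    intro i j hij
    have hsne : ({i} : Finset (Fin d)) ≠ {j} := fun h => hij (Finset.singleton_injective h)
    have hcard : ∀ k l : Fin d, ({k} : Finset (Fin d)) ≠ {l}ᶜ := by
      intro k l h
      have := congrArg Finset.card h
      rw [hcc, Finset.card_singleton] at this
      omega
    refine ⟨hat_orth g hfl _ _ (Finset.singleton_nonempty _) (Finset.singleton_nonempty _) hsne ?_,
      hat_orth g hfl _ _ (Finset.singleton_nonempty _) (hc1 j) (hcard i j) ?_,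
      hat_orth g hfl _ _ (hc1 i) (Finset.singleton_nonempty _) (Ne.symm (hcard j i)) ?_,
      hat_orth g hfl _ _ (hc1 i) (hc1 j) (fun h => hsne (compl_injective h)) ?_⟩
    · exact hcard j i
    · intro h; exact hsne (compl_injective h).symm
    · rw [compl_compl]; exact Ne.symm hsne
    · rw [compl_compl]; exact Ne.symm (hcard i j)
  have hoU : ∀ i : Fin d, ⟪hat g {i}, hat g Finset.univ⟫ = 0 ∧ ⟪hat g {i}ᶜ, hat g Finset.univ⟫ = 0 := by
    intro i
    have hu : (Finset.univ : Finset (Fin d)).Nonempty := ⟨i, Finset.mem_univ i⟩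
    have hcu : (Finset.univ : Finset (Fin d)).card = d := by simp
    refine ⟨hat_orth g hfl _ _ (Finset.singleton_nonempty _) hu ?_ ?_,
      hat_orth g hfl _ _ (hc1 i) hu ?_ ?_⟩
    · intro h; have := congrArg Finset.card h; rw [hcu, Finset.card_singleton] at this; omega
    · intro h; have := congrArg Finset.card h; rw [hcu, hcc] at this; omega
    · intro h; have := congrArg Finset.card h; rw [hcu, hcc] at this; omega
    · intro h; have := congrArg Finset.card h
      rw [compl_compl, hcu, Finset.card_singleton] at this; omega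
  have hPP : ∀ i j, i ≠ j → ⟪P i, P j⟫ = 0 := by
    intro i j hij
    obtain ⟨h1, h2, h3, h4⟩ := ho i j hij
    simp only [hP, inner_add_left, inner_add_right, h1, h2, h3, h4]; ring
  have hMP : ∀ i j, i ≠ j → ⟪M i, P j⟫ = 0 := by
    intro i j hij
    obtain ⟨h1, h2, h3, h4⟩ := ho i j hij
    simp only [hP, hM, inner_sub_left, inner_add_right, h1, h2, h3, h4]; ring
  have hUP : ∀ i, ⟪hat g Finset.univ, P i⟫ = 0 := by
    intro i
    obtain ⟨h1, h2⟩ := hoU i
    rw [real_inner_comm]
    simp only [hP, inner_add_left, h1, h2]; ring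
  let z : Fin d := ⟨0, by omega⟩
  let z1 : Fin d := ⟨1, by omega⟩
  have hz : z ≠ z1 := by intro h; have := congrArg Fin.val h; simp [z, z1] at this
  have hPne : ∀ i, P i ≠ 0 := by
    intro i hi
    have hall : ∀ j, P j = 0 := by
      intro j
      obtain ⟨L, h1, _⟩ := hact i j
      rw [← h1, hi, map_zero]
    have e1 := heven 1 par_one
    have e2 := heven (flip2 z z1) (par_flip2 hz)
    simp only [hall, smul_zero, Finset.sum_const_zero, add_zero] at e1 e2
    have := hinj (e1.trans e2.symm)
    have := congrFun this z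
    simp [flip2] at this
  have hU0 : hat g Finset.univ = 0 := eq_zero_of_inner P hPP hPne _ hUP
  obtain ⟨u, hu⟩ := orthoBasis_of P hPP hPne
  -- M i is a multiple of P i
  have hMi : ∀ i, M i = (⟪M i, P i⟫ / ‖P i‖ ^ 2) • P i := by
    intro i
    have : M i - (⟪M i, P i⟫ / ‖P i‖ ^ 2) • P i = 0 := by
      apply eq_zero_of_inner P hPP hPne
      intro j
      rw [inner_sub_left, inner_smul_left]
      by_cases hij : i = j
      · subst hij
        rw [real_inner_self_eq_norm_sq]
        have : ‖P i‖ ^ 2 ≠ 0 := pow_ne_zero _ (norm_ne_zero_iff.2 (hPne i))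
        simp only [conj_trivial]
        rw [div_mul_cancel₀ _ this, sub_self]
      · rw [hMP i j hij, hPP i j hij]; simp
    exact sub_eq_zero.1 this
  have hnorm : ∀ i, ‖P i‖ = ‖P z‖ := by
    intro i
    obtain ⟨L, h1, _⟩ := hact i z
    rw [← h1, L.norm_map]
  have hinn : ∀ i, ⟪M i, P i⟫ = ⟪M z, P z⟫ := by
    intro i
    obtain ⟨L, h1, h2⟩ := hact i z
    rw [← h1, ← h2, L.inner_map_map]
  refine ⟨hat g ∅, u, ‖P z‖, (⟪M z, P z⟫ / ‖P z‖ ^ 2) * ‖P z‖, fun x => ?_⟩
  rcases Int.units_eq_one_or (par x) with hx | hx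
  · rw [if_pos hx, heven x hx, hU0, add_zero, Finset.smul_sum]
    congr 1
    refine Finset.sum_congr rfl (fun i _ => ?_)
    rw [hu i, hnorm i, smul_smul, smul_smul, mul_comm]
  · rw [if_neg (by rw [hx]; decide), hodd x hx, hU0, sub_zero, Finset.smul_sum]
    congr 1
    refine Finset.sum_congr rfl (fun i _ => ?_)
    rw [hMi i, hinn i, hu i]
    have hn : ‖(‖P i‖ • u i)‖ = ‖P z‖ := by rw [← hu i, hnorm i]
    rw [hn, hnorm i, smul_smul, smul_smul, smul_smul]
    congr 1; ring

end Lib_helper64.FO
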