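import Pool.Agent.Lib_helper64.FO.CubeI

namespace Lib_helper64.FO

open Subgroup
open scoped RealInnerProductSpace Pointwise

/-- the sets of the large orbit -/
def Afam {d : ℕ} (α β : Bool) (p i : Fin d) : Finset (Fin d) :=
  if β then (if α then {i, p} else {i})ᶜ else (if α then {i, p} else {i})

theorem chi_Afam {d : ℕ} (α β : Bool) {p i : Fin d} (hip : i ≠ p) (x : Fin d → ℤˣ) :
    chi (Afam α β p i) x = x i * (if α then x p else 1) * (if β then par x else 1) := by
  have h1 : chi ({i, p} : Finset (Fin d)) x = x i * x p := by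
    unfold chi; rw [Finset.prod_pair hip]
  cases α <;> cases β <;> simp [-Finset.compl_insert, Afam, chi_compl, h1, chi_singleton]

theorem orth_all {d : ℕ} (g : (Fin d → ℤˣ) → E d)
    (hT : ∀ t, Acts g (SemidirectProduct.inl t)) (S S' : Finset (Fin d)) (hS : S.Nonempty)
    (hS' : S'.Nonempty) (hne : S ≠ S') : ⟪hat g S, hat g S'⟫ = 0 := by
  classical
  obtain ⟨i, hi⟩ : ∃ i, (i ∈ S ↔ i ∉ S') := by
    by_contra hcon
    push Not at hcon
    apply hne
    ext i
    have := hcon i
    tauto
  apply hat_flip_orth g (flip1 i) (hT _) S S' hS hS'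
  rw [chi_flip1, chi_flip1]
  by_cases h1 : i ∈ S <;> by_cases h2 : i ∈ S' <;> simp [h1, h2] at hi ⊢

theorem exists_fix_map {d : ℕ} (p : Fin d) (S S' : Finset (Fin d)) (hp : p ∈ S ↔ p ∈ S')
    (hc : S'.card = S.card) : ∃ σ : Equiv.Perm (Fin d), σ p = p ∧ S.map σ.toEmbedding = S' := by
  classical
  have := Set.powersetCard.isPretransitive (α := Fin d) (n := S.card)
  obtain ⟨g, hg⟩ := MulAction.exists_smul_eq (Equiv.Perm (Fin d))
    (⟨S, rfl⟩ : Set.powersetCard (Fin d) S.card) ⟨S', hc⟩
  have hg' : ∀ i, g i ∈ S' ↔ i ∈ S := by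
    intro i
    have h1 := congrArg (fun s : Set.powersetCard (Fin d) S.card => (s : Finset (Fin d))) hg
    simp only [Set.powersetCard.coe_smul] at h1
    rw [← h1]
    exact Finset.smul_mem_smul_finset_iff g
  refine ⟨Equiv.swap (g p) p * g, ?_, ?_⟩
  · rw [Equiv.Perm.mul_apply, Equiv.swap_apply_left]
  · ext i
    rw [Finset.mem_map_equiv]
    change g.symm ((Equiv.swap (g p) p).symm i) ∈ S ↔ i ∈ S'
    rw [Equiv.symm_swap, ← hg', Equiv.apply_symm_apply]
    by_cases h1 : i = g p
    · rw [h1, Equiv.swap_apply_left, hg', ← hp]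
    by_cases h2 : i = p
    · rw [h2, Equiv.swap_apply_right, hg', hp]
    rw [Equiv.swap_apply_of_ne_of_ne h1 h2]

theorem formII_of {d : ℕ} (hd : 4 ≤ d) (g : (Fin d → ℤˣ) → E d) (hinj : Function.Injective g)
    (hT : ∀ t, Acts g (SemidirectProduct.inl t)) (p : Fin d)
    (hst : ∀ σ : Equiv.Perm (Fin d), σ p = p → Acts g (SemidirectProduct.inr σ)) :
    ∃ c u α β γ δ a b, FormII g c u p α β γ δ a b := by
  classical
  set N : Finset (Finset (Fin d)) := Finset.univ.filter (fun S => S.Nonempty ∧ hat g S ≠ 0) with hN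
  have hNm : ∀ S, S ∈ N ↔ S.Nonempty ∧ hat g S ≠ 0 := by intro S; simp [hN]
  have hNc : N.card ≤ d := card_le_of_orth g N (fun S hS => ((hNm S).1 hS).2)
    (fun S hS S' hS' hne => orth_all g hT S S' ((hNm S).1 hS).1 ((hNm S').1 hS').1 hne)
  -- norms are constant on types
  have hnorm : ∀ S S' : Finset (Fin d), S.Nonempty → (p ∈ S ↔ p ∈ S') → S'.card = S.card →
      ‖hat g S'‖ = ‖hat g S‖ := by
    intro S S' hS hp hc
    obtain ⟨σ, h1, h2⟩ := exists_fix_map p S S' hp hc
    have h3 := hat_norm g _ (hst σ h1) S hS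
    have h4 : (SemidirectProduct.inr σ : Bn d).right = σ := rfl
    rw [h4, h2] at h3
    exact h3
  have htype : ∀ S S' : Finset (Fin d), S ∈ N → (p ∈ S ↔ p ∈ S') → S'.card = S.card → S' ∈ N := by
    intro S S' hS hp hc
    rw [hNm] at hS ⊢
    have h1 := Finset.card_pos.2 hS.1
    refine ⟨Finset.card_pos.1 (by omega), ?_⟩
    rw [← norm_ne_zero_iff, hnorm S S' hS.1 hp hc]
    exact norm_ne_zero_iff.2 hS.2
  -- Fourier expansion only depends on N
  have hfour : ∀ x y, (∀ S ∈ N, chi S x = chi S y) → g x = g y := by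
    intro x y h
    rw [hat_inv g x, hat_inv g y]
    refine Finset.sum_congr rfl (fun S _ => ?_)
    by_cases hS : S ∈ N
    · rw [h S hS]
    · rw [hNm, not_and_or, not_not] at hS
      rcases hS with h1 | h1
      · rw [Finset.not_nonempty_iff_eq_empty] at h1
        rw [h1, chi_empty, chi_empty]
      · rw [h1, smul_zero, smul_zero]
  -- middle sizes are impossible
  have hmid : ∀ S ∈ N, (S.erase p).card ≤ 1 ∨ d ≤ (S.erase p).card + 2 := by
    intro S hS
    by_contra hcon
    push Not at hcon
    obtain ⟨h1, h2⟩ := hcon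
    set j := (S.erase p).card with hj
    let F : Finset (Finset (Fin d)) :=
      (Finset.powersetCard j (Finset.univ.erase p)).image (fun A => if p ∈ S then insert p A else A)
    have hpA : ∀ A ∈ Finset.powersetCard j (Finset.univ.erase p), p ∉ A ∧ A.card = j := by
      intro A hA
      rw [Finset.mem_powersetCard] at hA
      exact ⟨fun h => (Finset.mem_erase.1 (hA.1 h)).1 rfl, hA.2⟩
    have hFN : F ⊆ N := by
      intro B hB
      obtain ⟨A, hA, rfl⟩ := Finset.mem_image.1 hB
      obtain ⟨hA1, hA2⟩ := hpA A hA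
      by_cases hpS : p ∈ S
      · rw [if_pos hpS]
        apply htype S _ hS
        · simp [hpS]
        · rw [Finset.card_insert_of_notMem hA1, hA2, hj, Finset.card_erase_of_mem hpS]
          have := Finset.card_pos.2 ⟨p, hpS⟩
          omega
      · rw [if_neg hpS]
        apply htype S _ hS
        · simp [hpS, hA1]
        · rw [hA2, hj, Finset.erase_eq_of_notMem hpS]
    have hFc : F.card = (d - 1).choose j := by
      rw [Finset.card_image_of_injOn, Finset.card_powersetCard,
        Finset.card_erase_of_mem (Finset.mem_univ p)]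
      · simp
      · intro A hA B hB hAB
        obtain ⟨hA1, _⟩ := hpA A (Finset.mem_coe.1 hA)
        obtain ⟨hB1, _⟩ := hpA B (Finset.mem_coe.1 hB)
        by_cases hpS : p ∈ S
        · simp only [if_pos hpS] at hAB
          have := congrArg (fun C => Finset.erase C p) hAB
          simpa [Finset.erase_insert hA1, Finset.erase_insert hB1] using this
        · simp only [if_neg hpS] at hAB
          exact hAB
    have h3 := (Finset.card_le_card hFN).trans hNc
    rw [hFc] at h3
    have h4 := choose_ge_of_mid (d - 1) j (by omega) (by omega)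
    have h5 := two_choose_eq (d - 1)
    obtain ⟨e, rfl⟩ : ∃ e, d = e + 5 := ⟨d - 5, by omega⟩
    have e1 : e + 5 - 1 = e + 4 := by omega
    have e2 : e + 4 - 1 = e + 3 := by omega
    rw [e1, e2] at h5
    rw [e1] at h3 h4
    nlinarith
  -- classification of the members of N
  have hcls : ∀ S ∈ N, (∃ α β, ∃ i, i ≠ p ∧ S = Afam α β p i) ∨
      (∃ γ δ : Bool, ∀ x, chi S x = (if γ then x p else 1) * (if δ then par x else 1)) := by
    intro S hS
    have hSne := ((hNm S).1 hS).1
    rcases hmid S hS with h1 | h1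
    · rcases Nat.lt_or_ge (S.erase p).card 1 with h2 | h2
      · -- S = {p}
        right
        refine ⟨true, false, fun x => ?_⟩
        have h3 : S.erase p = ∅ := Finset.card_eq_zero.1 (by omega)
        have h4 : S = {p} := by
          rw [Finset.erase_eq_empty_iff] at h3
          rcases h3 with h3 | h3
          · rw [h3] at hSne; exact absurd hSne (by simp)
          · exact h3
        rw [h4, chi_singleton]; simp
      · left
        obtain ⟨i, hi⟩ := Finset.card_eq_one.1 (show (S.erase p).card = 1 by omega)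
        have hip : i ≠ p := by
          have : i ∈ S.erase p := by rw [hi]; simp
          exact (Finset.mem_erase.1 this).1
        by_cases hpS : p ∈ S
        · refine ⟨true, false, i, hip, ?_⟩
          have : S = insert p (S.erase p) := (Finset.insert_erase hpS).symm
          rw [this, hi]
          simp only [Afam, if_true, Bool.false_eq_true, if_false]
          exact Finset.pair_comm p i
        · refine ⟨false, false, i, hip, ?_⟩
          rw [Finset.erase_eq_of_notMem hpS] at hi
          rw [hi]
          simp [Afam]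
    · -- work with the complement
      have hsum : (Sᶜ.erase p).card + (S.erase p).card = d - 1 := by
        have h3 := compl_card S
        by_cases hpS : p ∈ S
        · rw [Finset.erase_eq_of_notMem (show p ∉ Sᶜ by simpa using hpS), Finset.card_erase_of_mem hpS]
          have := Finset.card_pos.2 ⟨p, hpS⟩
          omega
        · rw [Finset.erase_eq_of_notMem hpS, Finset.card_erase_of_mem (show p ∈ Sᶜ by simpa using hpS)]
          have := Finset.card_pos.2 ⟨p, (show p ∈ Sᶜ by simpa using hpS)⟩
          omega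
      rcases Nat.lt_or_ge (Sᶜ.erase p).card 1 with h2 | h2
      · right
        have h3 : Sᶜ.erase p = ∅ := Finset.card_eq_zero.1 (by omega)
        rw [Finset.erase_eq_empty_iff] at h3
        rcases h3 with h3 | h3
        · refine ⟨false, true, fun x => ?_⟩
          have : S = Finset.univ := by rw [← compl_compl S, h3]; simp
          rw [this, chi_univ]; simp
        · refine ⟨true, true, fun x => ?_⟩
          have : S = {p}ᶜ := by rw [← compl_compl S, h3]
          rw [this, chi_compl, chi_singleton]; simp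
      · left
        obtain ⟨i, hi⟩ := Finset.card_eq_one.1 (show (Sᶜ.erase p).card = 1 by omega)
        have hip : i ≠ p := by
          have : i ∈ Sᶜ.erase p := by rw [hi]; simp
          exact (Finset.mem_erase.1 this).1
        by_cases hpS : p ∈ Sᶜ
        · refine ⟨true, true, i, hip, ?_⟩
          have : Sᶜ = insert p (Sᶜ.erase p) := (Finset.insert_erase hpS).symm
          rw [hi] at this
          rw [← compl_compl S, this]
          simp only [Afam, if_true]
          rw [Finset.pair_comm p i]
        · refine ⟨false, true, i, hip, ?_⟩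
          rw [Finset.erase_eq_of_notMem hpS] at hi
          rw [← compl_compl S, hi]
          simp [Afam]
  -- type data of Afam
  have hAtype : ∀ (α β : Bool) (i j : Fin d), i ≠ p → j ≠ p →
      (p ∈ Afam α β p i ↔ p ∈ Afam α β p j) ∧ (Afam α β p j).card = (Afam α β p i).card := by
    intro α β i j hi hj
    have c1 : ∀ k : Fin d, ({k} : Finset (Fin d))ᶜ.card = d - 1 := by
      intro k
      have := compl_card ({k} : Finset (Fin d))
      rw [Finset.card_singleton] at this; omega
    have c2 : ∀ k : Fin d, k ≠ p → ({k, p} : Finset (Fin d)).card = 2 := fun k hk => Finset.card_pair hk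
    have c3 : ∀ k : Fin d, k ≠ p → ({k, p} : Finset (Fin d))ᶜ.card = d - 2 := by
      intro k hk
      have := compl_card ({k, p} : Finset (Fin d))
      rw [c2 k hk] at this; omega
    cases α <;> cases β <;> simp [-Finset.compl_insert, Afam, Ne.symm hi, Ne.symm hj, c1, c2, c3, hi, hj]
  have hAinj : ∀ (α β : Bool) (i j : Fin d), i ≠ p → j ≠ p → Afam α β p i = Afam α β p j → i = j := by
    intro α β i j hi hj h
    by_contra hij
    have h1 := congrArg (fun S => chi S (flip1 i)) h
    simp only [chi_Afam α β hi, chi_Afam α β hj] at h1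
    have h2 : flip1 i i = (-1 : ℤˣ) := by simp [flip1]
    have h3 : flip1 i j = (1 : ℤˣ) := by simp [flip1, Ne.symm hij]
    rw [h2, h3, mul_right_cancel_iff, mul_right_cancel_iff] at h1
    exact absurd h1 (by decide)
  have hAne : ∀ (α β α' β' : Bool) (i j : Fin d), i ≠ p → j ≠ p → (α, β) ≠ (α', β') →
      Afam α β p i ≠ Afam α' β' p j := by
    intro α β α' β' i j hi hj hne h
    -- evaluate the characters at a point different from i, j, p
    obtain ⟨k, hk1, hk2, hk3⟩ : ∃ k : Fin d, k ≠ i ∧ k ≠ j ∧ k ≠ p := by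
      obtain ⟨m, _, hm⟩ := Finset.exists_mem_notMem_of_card_lt_card
        (s := ({i, j, p} : Finset (Fin d))) (t := Finset.univ) (by
          have := Finset.card_le_three (a := i) (b := j) (c := p)
          rw [Finset.card_univ, Fintype.card_fin]; omega)
      simp only [Finset.mem_insert, Finset.mem_singleton, not_or] at hm
      exact ⟨m, hm.1, hm.2.1, hm.2.2⟩
    have h1 : (k ∈ Afam α β p i ↔ k ∈ Afam α' β' p j) := by rw [h]
    have h2 : (Afam α β p i).card = (Afam α' β' p j).card := by rw [h]
    have c1 : ∀ k : Fin d, ({k} : Finset (Fin d))ᶜ.card = d - 1 := by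
      intro k
      have := compl_card ({k} : Finset (Fin d))
      rw [Finset.card_singleton] at this; omega
    have c2 : ∀ k : Fin d, k ≠ p → ({k, p} : Finset (Fin d)).card = 2 := fun k hk => Finset.card_pair hk
    have c3 : ∀ k : Fin d, k ≠ p → ({k, p} : Finset (Fin d))ᶜ.card = d - 2 := by
      intro k hk
      have := compl_card ({k, p} : Finset (Fin d))
      rw [c2 k hk] at this; omega
    cases α <;> cases β <;> cases α' <;> cases β' <;>
      simp [-Finset.compl_insert, Afam, c1, c2 i hi, c2 j hj, c3 i hi, c3 j hj, hk1, hk2, hk3] at h1 h2 hne <;> omega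
  -- a large orbit exists
  obtain ⟨α, β, i0, hi0, hbig⟩ : ∃ α β, ∃ i, i ≠ p ∧ Afam α β p i ∈ N := by
    by_contra hcon
    push Not at hcon
    obtain ⟨i, hi⟩ := exists_third (by omega : 3 ≤ d) p p
    obtain ⟨j, hj⟩ := exists_third (by omega : 3 ≤ d) p i
    have hij : i ≠ j := Ne.symm hj.2
    have := hfour 1 (flip2 i j) (by
      intro S hS
      rcases hcls S hS with ⟨α, β, k, hk, rfl⟩ | ⟨γ, δ, h⟩
      · exact absurd hS (hcon α β k hk)
      · rw [h, h, par_flip2 hij, par_one]
        have : flip2 i j p = 1 := by simp [flip2, Ne.symm hi.1, Ne.symm hj.1]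
        rw [this]; rfl)
    have := congrFun (hinj this) i
    simp [flip2] at this
  have hbigall : ∀ i, i ≠ p → Afam α β p i ∈ N := fun i hi =>
    htype _ _ hbig (hAtype α β i0 i hi0 hi).1 (hAtype α β i0 i hi0 hi).2
  set A : Finset (Finset (Fin d)) := (Finset.univ.erase p).image (Afam α β p) with hA
  have hAc : A.card = d - 1 := by
    rw [hA, Finset.card_image_of_injOn, Finset.card_erase_of_mem (Finset.mem_univ p)]
    · simp
    · intro i hi j hj h
      exact hAinj α β i j (Finset.mem_erase.1 (Finset.mem_coe.1 hi)).1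
        (Finset.mem_erase.1 (Finset.mem_coe.1 hj)).1 h
  have hAN : A ⊆ N := by
    intro S hS
    obtain ⟨i, hi, rfl⟩ := Finset.mem_image.1 hS
    exact hbigall i (Finset.mem_erase.1 hi).1
  -- N is not A
  have hneq : ∃ B ∈ N, B ∉ A := by
    by_contra hcon
    push Not at hcon
    -- pigeonhole
    have hcard : Fintype.card ({i : Fin d // i ≠ p} → ℤˣ) < Fintype.card (Fin d → ℤˣ) := by
      rw [Fintype.card_fun, Fintype.card_fun]
      have h1 : Fintype.card ℤˣ = 2 := rfl
      have h2 : Fintype.card {i : Fin d // i ≠ p} = d - 1 := by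
        rw [Fintype.card_subtype_compl]; simp
      rw [h1, h2, Fintype.card_fin]
      exact Nat.pow_lt_pow_right (by norm_num) (by omega)
    obtain ⟨x, y, hxy, he⟩ := Fintype.exists_ne_map_eq_of_card_lt
      (fun (x : Fin d → ℤˣ) (i : {i : Fin d // i ≠ p}) => chi (Afam α β p i) x) hcard
    apply hxy
    apply hinj
    apply hfour
    intro S hS
    obtain ⟨i, hi, rfl⟩ := Finset.mem_image.1 (hcon S hS)
    exact congrFun he ⟨i, (Finset.mem_erase.1 hi).1⟩
  obtain ⟨B, hBN, hBA⟩ := hneq
  have hNeq : N = insert B A := by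
    symm
    apply Finset.eq_of_subset_of_card_le
    · intro S hS
      rcases Finset.mem_insert.1 hS with rfl | h
      · exact hBN
      · exact hAN h
    · rw [Finset.card_insert_of_notMem hBA, hAc]; omega
  -- B is small
  obtain ⟨γ, δ, hB⟩ : ∃ γ δ : Bool, ∀ x, chi B x = (if γ then x p else 1) * (if δ then par x else 1) := by
    rcases hcls B hBN with ⟨α', β', i, hi, rfl⟩ | h
    · exfalso
      by_cases hab : (α, β) = (α', β')
      · obtain ⟨rfl, rfl⟩ := Prod.mk.inj hab
        exact hBA (Finset.mem_image.2 ⟨i, Finset.mem_erase.2 ⟨hi, Finset.mem_univ i⟩, rfl⟩)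
      · obtain ⟨j, hj1, hj2⟩ := exists_third (by omega : 3 ≤ d) p i
        have h1 : Afam α' β' p j ∈ N :=
          htype _ _ hBN (hAtype α' β' i j hi hj1).1 (hAtype α' β' i j hi hj1).2
        rw [hNeq, Finset.mem_insert] at h1
        rcases h1 with h1 | h1
        · exact hj2 (hAinj α' β' j i hj1 hi h1)
        · obtain ⟨k, hk, hk'⟩ := Finset.mem_image.1 h1
          exact hAne α β α' β' k j (Finset.mem_erase.1 hk).1 hj1 hab hk'
    · exact h
  -- the basis
  let v : Fin d → E d := fun i => if i = p then hat g B else hat g (Afam α β p i)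
  have hvp : v p = hat g B := by simp [v]
  have hvi : ∀ i, i ≠ p → v i = hat g (Afam α β p i) := fun i hi => by simp [v, hi]
  have hBne : ∀ i, i ≠ p → B ≠ Afam α β p i := by
    intro i hi h
    exact hBA (Finset.mem_image.2 ⟨i, Finset.mem_erase.2 ⟨hi, Finset.mem_univ i⟩, h.symm⟩)
  have hBn := (hNm B).1 hBN
  have hAn : ∀ i, i ≠ p → (Afam α β p i).Nonempty ∧ hat g (Afam α β p i) ≠ 0 :=
    fun i hi => (hNm _).1 (hbigall i hi)
  have hvo : ∀ i j, i ≠ j → ⟪v i, v j⟫ = 0 := by
    intro i j hij
    by_cases hi : i = p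
    · subst hi
      rw [hvp, hvi j (Ne.symm hij)]
      exact orth_all g hT _ _ hBn.1 (hAn j (Ne.symm hij)).1 (hBne j (Ne.symm hij))
    · by_cases hj : j = p
      · subst hj
        rw [hvp, hvi i hi]
        exact orth_all g hT _ _ (hAn i hi).1 hBn.1 (Ne.symm (hBne i hi))
      · rw [hvi i hi, hvi j hj]
        exact orth_all g hT _ _ (hAn i hi).1 (hAn j hj).1 (fun h => hij (hAinj α β i j hi hj h))
  have hvne : ∀ i, v i ≠ 0 := by
    intro i
    by_cases hi : i = p
    · subst hi; rw [hvp]; exact hBn.2
    · rw [hvi i hi]; exact (hAn i hi).2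
  obtain ⟨u, hu⟩ := orthoBasis_of v hvo hvne
  refine ⟨hat g ∅, u, α, β, γ, δ, ‖hat g (Afam α β p i0)‖, ‖hat g B‖,
    norm_pos_iff.2 (hAn i0 hi0).2, norm_pos_iff.2 hBn.2, fun x => ?_⟩
  have hsum : g x = ∑ S ∈ insert ∅ (insert B A), sg (chi S x) • hat g S := by
    rw [hat_inv g x]
    symm
    apply Finset.sum_subset (Finset.subset_univ _)
    intro S _ hS
    rw [Finset.mem_insert, not_or] at hS
    have : S ∉ N := by rw [hNeq]; exact hS.2
    rw [hNm, not_and_or, not_not] at this
    rcases this with h | h
    · exact absurd (Finset.not_nonempty_iff_eq_empty.1 h) hS.1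
    · rw [h, smul_zero]
  have hemp : (∅ : Finset (Fin d)) ∉ insert B A := by
    rw [← hNeq, hNm]; simp
  rw [hsum, Finset.sum_insert hemp, Finset.sum_insert hBA, hA, Finset.sum_image]
  · rw [chi_empty, sg_one, one_smul, hB x]
    have e1 : hat g B = ‖hat g B‖ • u p := by
      have := hu p; rw [hvp] at this; exact this
    have e2 : ∀ i ∈ Finset.univ.erase p, sg (chi (Afam α β p i) x) • hat g (Afam α β p i) =
        (‖hat g (Afam α β p i0)‖ * sg (x i * (if α then x p else 1) * (if β then par x else 1))) • u i := by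
      intro i hi
      have hip := (Finset.mem_erase.1 hi).1
      have h1 := hu i
      rw [hvi i hip] at h1
      have h2 : ‖hat g (Afam α β p i)‖ = ‖hat g (Afam α β p i0)‖ :=
        hnorm _ _ (hAn i0 hi0).1 (hAtype α β i0 i hi0 hip).1 (hAtype α β i0 i hi0 hip).2
      rw [chi_Afam α β hip x]
      conv_lhs => rw [h1]
      rw [h2, smul_smul, mul_comm]
    rw [Finset.sum_congr rfl e2]
    conv_lhs => rw [e1]
    rw [smul_smul, mul_comm (sg _) ‖hat g B‖, ← add_assoc]
  · intro i hi j hj h
    exact hAinj α β i j (Finset.mem_erase.1 (Finset.mem_coe.1 hi)).1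
      (Finset.mem_erase.1 (Finset.mem_coe.1 hj)).1 h

end Lib_helper64.FO
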