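import Pool.Agent.Lib_helper64.FO.CubeThm

namespace Lib_helper64.FO

open Subgroup
open scoped RealInnerProductSpace Pointwise

/-- sign of the special coordinate -/
def cB {d : ℕ} (γ δ : Bool) (p : Fin d) (x : Fin d → ℤˣ) : ℤˣ :=
  (if γ then x p else 1) * (if δ then par x else 1)

/-- signs of the other coordinates -/
def cA {d : ℕ} (α β : Bool) (p i : Fin d) (x : Fin d → ℤˣ) : ℤˣ :=
  x i * (if α then x p else 1) * (if β then par x else 1)

theorem cB_bx {d : ℕ} (γ δ : Bool) (p : Fin d) (B : Bn d) (hB : B.right p = p) (x : Fin d → ℤˣ) :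
    cB γ δ p (bx B x) = cB γ δ p B.left * cB γ δ p x := by
  have h1 : bx B x p = B.left p * x p := by
    unfold bx
    rw [show B.right.symm p = p by rw [Equiv.symm_apply_eq]; exact hB.symm]
  unfold cB
  rw [h1, par_bx]
  cases γ <;> cases δ <;> simp [mul_assoc, mul_comm, mul_left_comm]

theorem cA_bx {d : ℕ} (α β : Bool) (p i : Fin d) (B : Bn d) (hB : B.right p = p)
    (x : Fin d → ℤˣ) :
    cA α β p i (bx B x) = cA α β p i B.left * cA α β p (B.right.symm i) x := by
  have h1 : bx B x p = B.left p * x p := by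
    unfold bx
    rw [show B.right.symm p = p by rw [Equiv.symm_apply_eq]; exact hB.symm]
  have h2 : bx B x i = B.left i * x (B.right.symm i) := rfl
  unfold cA
  rw [h1, h2, par_bx]
  cases α <;> cases β <;> simp [mul_assoc, mul_comm, mul_left_comm]

theorem FormII.dist_sq {d : ℕ} {g : (Fin d → ℤˣ) → E d} {c : E d}
    {u : OrthonormalBasis (Fin d) ℝ (E d)} {p : Fin d} {α β γ δ : Bool} {a b : ℝ}
    (h : FormII g c u p α β γ δ a b) (x y : Fin d → ℤˣ) :
    dist (g x) (g y) ^ 2 = b ^ 2 * (sg (cB γ δ p x) - sg (cB γ δ p y)) ^ 2 +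
      ∑ i ∈ Finset.univ.erase p, a ^ 2 * (sg (cA α β p i x) - sg (cA α β p i y)) ^ 2 := by
  classical
  set w : Fin d → ℝ := fun i => if i = p then b * (sg (cB γ δ p x) - sg (cB γ δ p y)) else
    a * (sg (cA α β p i x) - sg (cA α β p i y)) with hw
  have e : g x - g y = ∑ i, w i • u i := by
    rw [h.2.2 x, h.2.2 y, add_sub_add_comm, add_sub_add_left_eq_sub, ← sub_smul, ← mul_sub,
      ← Finset.sum_sub_distrib, ← Finset.add_sum_erase _ _ (Finset.mem_univ p)]
    congr 1
    · simp only [hw, if_true]; rfl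
    · refine Finset.sum_congr rfl (fun i hi => ?_)
      rw [← sub_smul, ← mul_sub]
      simp only [hw, if_neg (Finset.mem_erase.1 hi).1]; rfl
  rw [dist_eq_norm, e, norm_sq_sum, ← Finset.add_sum_erase _ _ (Finset.mem_univ p)]
  congr 1
  · simp only [hw, if_true]; ring
  · refine Finset.sum_congr rfl (fun i hi => ?_)
    simp only [hw, if_neg (Finset.mem_erase.1 hi).1]; ring

theorem sq_sub_mul (e x y : ℤˣ) : (sg (e * x) - sg (e * y)) ^ 2 = (sg x - sg y) ^ 2 := by
  rw [sg_mul, sg_mul]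
  have := sg_mul_self e
  linear_combination (sg x - sg y) ^ 2 * this

theorem FormII.mem_of_fix {d : ℕ} {f : (WithTop (SV d))ᵒᵈ → E d} {c : E d}
    {u : OrthonormalBasis (Fin d) ℝ (E d)} {p : Fin d} {α β γ δ : Bool} {a b : ℝ}
    (h : FormII (fun x => f (cubeVertex x)) c u p α β γ δ a b) (B : Bn d) (hB : B.right p = p) :
    B ∈ (symGroup rkCube f).comap (actC d) := by
  rw [mem_iff_dist]
  intro x y
  have h1 := h.dist_sq x y
  have h2 := h.dist_sq (bx B x) (bx B y)
  rw [cB_bx γ δ p B hB, cB_bx γ δ p B hB, sq_sub_mul] at h2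
  have h3 : ∑ i ∈ Finset.univ.erase p, a ^ 2 * (sg (cA α β p i (bx B x)) -
      sg (cA α β p i (bx B y))) ^ 2 =
      ∑ i ∈ Finset.univ.erase p, a ^ 2 * (sg (cA α β p i x) - sg (cA α β p i y)) ^ 2 := by
    refine Finset.sum_nbij' (fun i => B.right.symm i) (fun i => B.right i) ?_ ?_ ?_ ?_ ?_
    · intro i hi
      rw [Finset.mem_erase] at hi ⊢
      refine ⟨fun h' => hi.1 ?_, Finset.mem_univ _⟩
      rw [Equiv.symm_apply_eq, hB] at h'; exact h'
    · intro i hi
      rw [Finset.mem_erase] at hi ⊢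
      refine ⟨fun h' => hi.1 ?_, Finset.mem_univ _⟩
      exact B.right.injective (h'.trans hB.symm)
    · intro i _; simp
    · intro i _; simp
    · intro i _
      rw [cA_bx α β p i B hB, cA_bx α β p i B hB, sq_sub_mul]
  rw [h3, ← h1] at h2
  exact ((pow_left_inj₀ dist_nonneg dist_nonneg two_ne_zero).1 h2).symm

theorem sum_flip1 {d : ℕ} (q : Fin d) : ∑ l, sg (flip1 q l) = (d : ℝ) - 2 := by
  classical
  have h1 : ∀ l, sg (flip1 q l) = 1 - 2 * (if l = q then 1 else 0) := by
    intro l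
    unfold flip1
    by_cases h1 : l = q
    · subst h1; simp [sg]; norm_num
    · simp [h1, sg]
  rw [Finset.sum_congr rfl (fun l _ => h1 l), Finset.sum_sub_distrib, ← Finset.mul_sum,
    Finset.sum_ite_eq']
  simp

theorem sum_erase_sg {d : ℕ} (p : Fin d) (x : Fin d → ℤˣ) :
    ∑ i ∈ Finset.univ.erase p, sg (x i) = (∑ i, sg (x i)) - sg (x p) := by
  rw [← Finset.add_sum_erase _ _ (Finset.mem_univ p)]; ring

theorem par_flip1 {d : ℕ} (q : Fin d) : par (flip1 q) = -1 := by
  rw [← chi_univ, chi_flip1]; simp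

/-- squared distance to the vertex `1` -/
theorem FormII.dist_one {d : ℕ} {g : (Fin d → ℤˣ) → E d} {c : E d}
    {u : OrthonormalBasis (Fin d) ℝ (E d)} {p : Fin d} {α β γ δ : Bool} {a b : ℝ}
    (h : FormII g c u p α β γ δ a b) (x : Fin d → ℤˣ) :
    dist (g x) (g 1) ^ 2 = 2 * b ^ 2 * (1 - sg (cB γ δ p x)) +
      2 * a ^ 2 * (((d : ℝ) - 1) - sg ((if α then x p else 1) * (if β then par x else 1)) *
        ((∑ i, sg (x i)) - sg (x p))) := by
  classical
  rw [h.dist_sq x 1]
  have e1 : cB γ δ p (1 : Fin d → ℤˣ) = 1 := by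
    unfold cB; rw [par_one]; simp
  have e2 : ∀ i, cA α β p i (1 : Fin d → ℤˣ) = 1 := by
    intro i; unfold cA; rw [par_one]; simp
  have e3 : ∀ y : ℤˣ, (sg y - sg 1) ^ 2 = 2 * (1 - sg y) := by
    intro y
    have := sg_mul_self y
    rw [sg_one]
    linear_combination this
  rw [e1, e3]
  have e4 : ∀ i, a ^ 2 * (sg (cA α β p i x) - sg (cA α β p i 1)) ^ 2 =
      2 * a ^ 2 - 2 * a ^ 2 * sg ((if α then x p else 1) * (if β then par x else 1)) * sg (x i) := by
    intro i
    rw [e2, e3]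
    have : cA α β p i x = x i * ((if α then x p else 1) * (if β then par x else 1)) := by
      unfold cA; rw [mul_assoc]
    rw [this, sg_mul (x i)]; ring
  rw [Finset.sum_congr rfl (fun i _ => e4 i), Finset.sum_sub_distrib, Finset.sum_const,
    ← Finset.mul_sum, sum_erase_sg, Finset.card_erase_of_mem (Finset.mem_univ p), nsmul_eq_mul]
  have hd : 1 ≤ d := by have := p.2; omega
  have : (((Finset.univ : Finset (Fin d)).card - 1 : ℕ) : ℝ) = (d : ℝ) - 1 := by
    rw [Finset.card_univ, Fintype.card_fin, Nat.cast_sub hd]; simp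
  rw [this]; ring

theorem FormII.crit {d : ℕ} (hd : 4 ≤ d) {f : (WithTop (SV d))ᵒᵈ → E d} {c : E d}
    {u : OrthonormalBasis (Fin d) ℝ (E d)} {p : Fin d} {α β γ δ : Bool} {a b : ℝ}
    (h : FormII (fun x => f (cubeVertex x)) c u p α β γ δ a b) (B : Bn d)
    (hB : B ∈ (symGroup rkCube f).comap (actC d)) (hp : B.right p ≠ p) :
    α = false ∧ γ = true ∧ β = δ ∧ a = b := by
  classical
  -- reduce to a pure permutation
  have hinl : (SemidirectProduct.inl B.left : Bn d) ∈ (symGroup rkCube f).comap (actC d) :=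
    h.mem_of_fix _ rfl
  have hinr : (SemidirectProduct.inr B.right : Bn d) ∈ (symGroup rkCube f).comap (actC d) := by
    have : (SemidirectProduct.inr B.right : Bn d) = (SemidirectProduct.inl B.left)⁻¹ * B := by
      rw [eq_inv_mul_iff_mul_eq, SemidirectProduct.inl_left_mul_inr_right]
    rw [this]
    exact Subgroup.mul_mem _ (Subgroup.inv_mem _ hinl) hB
  set σ := B.right with hσ
  rw [mem_iff_dist] at hinr
  have hbx : ∀ x : Fin d → ℤˣ, bx (SemidirectProduct.inr σ : Bn d) x = fun i => x (σ.symm i) := by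
    intro x; funext i
    change (1 : ℤˣ) * x (σ.symm i) = _
    rw [one_mul]
  have hf1 : ∀ q : Fin d, bx (SemidirectProduct.inr σ : Bn d) (flip1 q) = flip1 (σ q) := by
    intro q; rw [hbx]; funext i
    unfold flip1
    have : σ.symm i = q ↔ i = σ q := Equiv.symm_apply_eq _
    simp only [this]
  have hf2 : ∀ q r : Fin d, bx (SemidirectProduct.inr σ : Bn d) (flip2 q r) = flip2 (σ q) (σ r) := by
    intro q r; rw [hbx]; funext i
    unfold flip2
    have e : ∀ k, (σ.symm i = k ↔ i = σ k) := fun k => Equiv.symm_apply_eq σ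
    simp only [e]
  have hone : bx (SemidirectProduct.inr σ : Bn d) (1 : Fin d → ℤˣ) = 1 := by
    rw [hbx]; rfl
  -- choose r with r ≠ p, σ r ≠ p
  obtain ⟨r, hr1, hr2⟩ := exists_third (by omega : 3 ≤ d) p (σ.symm p)
  have hr3 : σ r ≠ p := fun h' => hr2 (by rw [← h', Equiv.symm_apply_apply])
  have hqr : σ p ≠ σ r := fun h' => hr1 (σ.injective h').symm
  have E1 := h.dist_one (flip1 p)
  have E2 := h.dist_one (flip1 (σ p))
  have E3 := h.dist_one (flip2 p r)
  have E4 := h.dist_one (flip2 (σ p) (σ r))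
  have D1 := hinr (flip1 p) 1
  have D2 := hinr (flip2 p r) 1
  rw [hf1, hone] at D1
  rw [hf2, hone] at D2
  rw [D1, E2] at E1
  rw [D2, E4] at E3
  have s1 : ∀ (i j : Fin d), i ≠ j → ∑ l, sg (flip2 i j l) = (d : ℝ) - 4 := by
    intro i j hij
    rw [← sum_flip2 hij]
    refine Finset.sum_congr rfl (fun l _ => ?_)
    rw [Pi.one_apply, sg_one, one_mul]
  rw [sum_flip1, sum_flip1] at E1
  rw [s1 _ _ hqr, s1 _ _ (Ne.symm hr1)] at E3
  unfold cB at E1 E3
  rw [par_flip1, par_flip1] at E1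
  rw [par_flip2 hqr, par_flip2 (Ne.symm hr1)] at E3
  have v1 : flip1 p p = (-1 : ℤˣ) := by simp [flip1]
  have v2 : flip1 (σ p) p = (1 : ℤˣ) := by simp [flip1, Ne.symm hp]
  have v3 : flip2 p r p = (-1 : ℤˣ) := by simp [flip2]
  have v4 : flip2 (σ p) (σ r) p = (1 : ℤˣ) := by simp [flip2, Ne.symm hp, Ne.symm hr3]
  rw [v1, v2] at E1
  rw [v3, v4] at E3
  have ha := h.1
  have hb := h.2.1
  have ha2 : 0 < a ^ 2 := by positivity
  have hb2 : 0 < b ^ 2 := by positivity
  have hd' : (4 : ℝ) ≤ d := by exact_mod_cast hd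
  have hm : 0 ≤ a ^ 2 * ((d : ℝ) - 4) := mul_nonneg ha2.le (by linarith)
  cases α <;> cases β <;> cases γ <;> cases δ <;>
    simp only [Bool.false_eq_true, if_true, if_false, sg_one, sg_neg, mul_one, one_mul, mul_neg,
      neg_mul, neg_neg, true_and, and_true, reduceCtorEq, false_and, and_false] at E1 E3 ⊢ <;>
    first
      | exact False.elim (by linarith)
      | exact (pow_left_inj₀ ha.le hb.le two_ne_zero).1 (by linarith)

end Lib_helper64.FO
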