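import Pool.Agent.Lib_helper64.FO.Fourier

namespace Lib_helper64.FO

open MulAction

section Dual

variable {P : Type} [PartialOrder P]

/-- dual flag -/
def dualFlag (Φ : Flag P) : Flag Pᵒᵈ where
  carrier := {x | OrderDual.ofDual x ∈ Φ}
  Chain' := by
    intro x hx y hy _
    rcases Φ.le_or_le hx hy with h | h
    · right; exact h
    · left; exact h
  max_chain' := by
    intro s hs hsub
    refine Set.Subset.antisymm hsub ?_
    intro x hx
    have h1 : IsChain (· ≤ ·) {y : P | OrderDual.toDual y ∈ s} := by
      intro a ha b hb hab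
      rcases hs ha hb (fun h => hab (OrderDual.toDual.injective h)) with h | h
      · right; exact h
      · left; exact h
    have h2 : (Φ : Set P) ⊆ {y : P | OrderDual.toDual y ∈ s} := fun y hy => hsub hy
    have h3 := Φ.maxChain.2 h1 h2
    have : OrderDual.ofDual x ∈ (Φ : Set P) := by rw [h3]; exact hx
    exact this

theorem mem_dualFlag (Φ : Flag P) (x : Pᵒᵈ) : x ∈ dualFlag Φ ↔ OrderDual.ofDual x ∈ Φ := Iff.rfl

/-- dual automorphisms -/
def dualHom (P : Type) [PartialOrder P] : (P ≃o P) →* (Pᵒᵈ ≃o Pᵒᵈ) where
  toFun γ := γ.dual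
  map_one' := rfl
  map_mul' _ _ := rfl

theorem dualHom_surjective : Function.Surjective (dualHom P) := by
  intro γ
  refine ⟨{ toFun := fun x => OrderDual.ofDual (γ (OrderDual.toDual x))
            invFun := fun x => OrderDual.ofDual (γ.symm (OrderDual.toDual x))
            left_inv := fun x => by simp
            right_inv := fun x => by simp
            map_rel_iff' := ?_ }, ?_⟩
  · intro a b
    change γ (OrderDual.toDual b) ≤ γ (OrderDual.toDual a) ↔ a ≤ b
    rw [γ.le_iff_le]; exact Iff.rfl
  · rfl

theorem dualHom_smul (γ : P ≃o P) (Φ : Flag P) : dualHom P γ • dualFlag Φ = dualFlag (γ • Φ) := by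
  apply SetLike.coe_injective
  ext x
  change x ∈ ((dualHom P γ • dualFlag Φ : Flag Pᵒᵈ) : Set Pᵒᵈ) ↔
    OrderDual.ofDual x ∈ ((γ • Φ : Flag P) : Set P)
  rw [Flag.coe_smul, Flag.coe_smul]
  constructor
  · rintro ⟨y, hy, rfl⟩
    exact ⟨OrderDual.ofDual y, hy, rfl⟩
  · rintro ⟨y, hy, hyx⟩
    refine ⟨OrderDual.toDual y, hy, ?_⟩
    change OrderDual.toDual (γ y) = x
    have : γ y = OrderDual.ofDual x := hyx
    rw [this]; rfl

theorem dualFlag_injective : Function.Injective (dualFlag (P := P)) := by
  intro Φ Ψ h
  apply SetLike.coe_injective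
  ext x
  have : (OrderDual.toDual x ∈ dualFlag Φ) ↔ (OrderDual.toDual x ∈ dualFlag Ψ) := by rw [h]
  exact this

theorem dualFlag_surjective : Function.Surjective (dualFlag (P := P)) := by
  intro Ψ
  refine ⟨{ carrier := {x | OrderDual.toDual x ∈ Ψ}
            Chain' := ?_
            max_chain' := ?_ }, ?_⟩
  · intro x hx y hy _
    rcases Ψ.le_or_le hx hy with h | h
    · right; exact h
    · left; exact h
  · intro s hs hsub
    refine Set.Subset.antisymm hsub ?_
    intro x hx
    have h1 : IsChain (· ≤ ·) {y : Pᵒᵈ | OrderDual.ofDual y ∈ s} := by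
      intro a ha b hb hab
      rcases hs ha hb (fun h => hab (OrderDual.ofDual.injective h)) with h | h
      · right; exact h
      · left; exact h
    have h2 : (Ψ : Set Pᵒᵈ) ⊆ {y : Pᵒᵈ | OrderDual.ofDual y ∈ s} := fun y hy => hsub hy
    have h3 := Ψ.maxChain.2 h1 h2
    have : OrderDual.toDual x ∈ (Ψ : Set Pᵒᵈ) := by rw [h3]; exact hx
    exact this
  · apply SetLike.coe_injective
    ext x
    exact Iff.rfl

end Dual

/-- The hyperoctahedral group acting on the faces of the cube. -/
def actC (d : ℕ) : Bn d →* ((WithTop (SV d))ᵒᵈ ≃o (WithTop (SV d))ᵒᵈ) :=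
  (dualHom (WithTop (SV d))).comp (actX d)

theorem flagOrbits_cube {d : ℕ} (hd : 0 < d) (f : (WithTop (SV d))ᵒᵈ → E d) :
    flagOrbits rkCube f = ((symGroup rkCube f).comap (actC d)).index := by
  have hsurj : Function.Surjective (actC d) := by
    intro γ
    obtain ⟨γ', rfl⟩ := dualHom_surjective γ
    obtain ⟨b, rfl⟩ := actX_surjective hd γ'
    exact ⟨b, rfl⟩
  have h1 : flagOrbits rkCube f = (symGroup rkCube f).index := by
    refine card_orbits_eq_index (dualFlag (baseX d)) ?_ ?_ _
    · intro Φ
      obtain ⟨Φ', rfl⟩ := dualFlag_surjective Φ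
      obtain ⟨σ, hσ⟩ := baseX_trans Φ'
      exact ⟨dualHom _ (actX d σ), by rw [dualHom_smul, hσ]⟩
    · intro g hg
      obtain ⟨γ', rfl⟩ := dualHom_surjective g
      rw [dualHom_smul] at hg
      rw [baseX_free hd γ' (dualFlag_injective hg), map_one]
  rw [h1]
  exact (Subgroup.index_comap_of_surjective _ hsurj).symm

theorem svFun_full {d : ℕ} (b : Bn d) (x : Fin d → ℤˣ) : svFun b (SV.full x) = SV.full (bx b x) := by
  funext i; rfl

theorem weight_full {d : ℕ} (x : Fin d → ℤˣ) : (SV.full x).weight = d := by
  rw [SV.weight_eq]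
  have : (SV.full x).supp = Finset.univ := by
    ext i; rw [SV.mem_supp]; simp [SV.full]
  rw [this]; simp

theorem rkCube_vertex {d : ℕ} (x : Fin d → ℤˣ) : rkCube (cubeVertex x) = 0 := by
  change (d : ℤ) - 1 - (((SV.full x).weight : ℤ) - 1) = 0
  rw [weight_full]; ring

theorem rkCube_coe {d : ℕ} (s : SV d) :
    rkCube (OrderDual.toDual (s : WithTop (SV d))) = (d : ℤ) - s.weight := by
  change (d : ℤ) - 1 - ((s.weight : ℤ) - 1) = _
  ring

theorem rkCube_top {d : ℕ} : rkCube (OrderDual.toDual (⊤ : WithTop (SV d))) = -1 := by
  change (d : ℤ) - 1 - (d : ℤ) = _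
  ring

theorem exists_cubeVertex {d : ℕ} (v : (WithTop (SV d))ᵒᵈ) (hv : rkCube v = 0) :
    ∃ x, v = cubeVertex x := by
  obtain ⟨v, rfl⟩ := OrderDual.toDual.surjective v
  induction v using WithTop.recTopCoe with
  | top => rw [rkCube_top] at hv; omega
  | coe s =>
    rw [rkCube_coe] at hv
    have hw : s.weight = d := by omega
    have hs : s.supp = Finset.univ := by
      apply Finset.eq_univ_of_card
      rw [← SV.weight_eq, hw, Fintype.card_fin]
    have hall : ∀ i, ∃ a, s i = some a := by
      intro i
      rw [← SV.mem_supp, hs]; simp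
    choose x hx using hall
    refine ⟨x, ?_⟩
    unfold cubeVertex
    congr 2
    funext i
    exact hx i

theorem rkCube_actC {d : ℕ} (b : Bn d) (F : (WithTop (SV d))ᵒᵈ) : rkCube (actC d b F) = rkCube F := by
  obtain ⟨F, rfl⟩ := OrderDual.toDual.surjective F
  change (d : ℤ) - 1 - rkCross (actX d b F) = (d : ℤ) - 1 - rkCross F
  rw [rkCross_actX]

theorem actC_vertex {d : ℕ} (b : Bn d) (x : Fin d → ℤˣ) :
    actC d b (cubeVertex x) = cubeVertex (bx b x) := rfl

theorem mem_symGroup_cube {d : ℕ} (f : (WithTop (SV d))ᵒᵈ → E d) (b : Bn d) :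
    b ∈ (symGroup rkCube f).comap (actC d) ↔
      ∃ T : E d ≃ᵢ E d, ∀ x, T (f (cubeVertex x)) = f (cubeVertex (bx b x)) := by
  rw [Subgroup.mem_comap]
  constructor
  · rintro ⟨_, T, hT⟩
    refine ⟨T, fun x => ?_⟩
    rw [hT _ (rkCube_vertex x), actC_vertex]
  · rintro ⟨T, hT⟩
    refine ⟨rkCube_actC b, T, ?_⟩
    intro v hv
    obtain ⟨x, rfl⟩ := exists_cubeVertex v hv
    rw [hT x, actC_vertex]

/-- membership in terms of distances -/
theorem mem_iff_dist {d : ℕ} (f : (WithTop (SV d))ᵒᵈ → E d) (b : Bn d) :
    b ∈ (symGroup rkCube f).comap (actC d) ↔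
      ∀ x y, dist (f (cubeVertex x)) (f (cubeVertex y)) =
        dist (f (cubeVertex (bx b x))) (f (cubeVertex (bx b y))) := by
  rw [mem_symGroup_cube]
  constructor
  · rintro ⟨T, hT⟩ x y
    rw [← hT, ← hT, T.isometry.dist_eq]
  · intro h
    exact exists_isometry (fun x => f (cubeVertex x)) (fun x => f (cubeVertex (bx b x))) h

theorem cube_faithful_iff {d : ℕ} (f : (WithTop (SV d))ᵒᵈ → E d) :
    Faithful rkCube f ↔ Function.Injective (fun x => f (cubeVertex x)) := by
  constructor
  · intro hf x y h
    have h1 : cubeVertex x = cubeVertex y :=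
      hf 0 _ _ (by rw [rkCube_vertex]; rfl) (by rw [rkCube_vertex]; rfl) h
    have h2 : (SV.full x : SV d) = SV.full y := WithTop.coe_injective (OrderDual.toDual.injective h1)
    funext i
    exact Option.some_injective _ (congrFun h2 i)
  · intro hinj
    apply faithful_of_injective
    · intro F G hF hG h
      obtain ⟨x, rfl⟩ := exists_cubeVertex F hF
      obtain ⟨y, rfl⟩ := exists_cubeVertex G hG
      rw [hinj h]
    · intro m F G hF hG h1 h2
      have key : ∀ s t : SV d, (s.weight : ℤ) = d - 1 - m →
          (∀ K, rkCube K = (m : ℤ) → K ≤ OrderDual.toDual (s : WithTop (SV d)) →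
            K ≤ OrderDual.toDual (t : WithTop (SV d))) → t ≤ s := by
        intro s t hs h i a hta
        have hex : ∃ j, s j = none := by
          by_contra hcon
          push Not at hcon
          have : s.supp = Finset.univ := by
            ext j
            simp only [Finset.mem_univ, iff_true]
            by_contra hj
            exact hcon j ((SV.not_mem_supp s j).1 hj)
          have h3 : s.weight = d := by rw [SV.weight_eq, this]; simp
          omega
        -- adding one entry
        have hadd : ∀ j (e : ℤˣ), s j = none →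
            t ≤ (fun l => if l = j then some e else s l : SV d) := by
          intro j e hj
          let r : SV d := fun l => if l = j then some e else s l
          have hr : r.supp = insert j s.supp := by
            ext l
            rw [SV.mem_supp, Finset.mem_insert, SV.mem_supp]
            simp only [r]
            by_cases hl : l = j
            · simp [hl]
            · simp [hl]
          have hrw : r.weight = s.weight + 1 := by
            rw [SV.weight_eq, SV.weight_eq, hr, Finset.card_insert_of_notMem]
            exact (SV.not_mem_supp s j).2 hj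
          have hsr : s ≤ r := by
            intro l c hc
            simp only [r]
            by_cases hl : l = j
            · rw [hl, hj] at hc; exact absurd hc (by simp)
            · rw [if_neg hl]; exact hc
          have h4 := h (OrderDual.toDual (r : WithTop (SV d)))
            (by rw [rkCube_coe, hrw]; push_cast; omega) (by
              change (s : WithTop (SV d)) ≤ (r : WithTop (SV d))
              exact WithTop.coe_le_coe.2 hsr)
          have h5 : (t : WithTop (SV d)) ≤ (r : WithTop (SV d)) := h4
          exact WithTop.coe_le_coe.1 h5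
        cases hsi : s i with
        | none =>
          exfalso
          have h6 := hadd i (-a) hsi i a hta
          simp at h6
        | some b =>
          obtain ⟨j, hj⟩ := hex
          have hij : i ≠ j := by
            intro h'
            rw [h', hj] at hsi
            exact absurd hsi (by simp)
          have h6 := hadd j 1 hj i a hta
          simp only [hij, if_false] at h6
          rw [hsi] at h6
          exact h6
      obtain ⟨F, rfl⟩ := OrderDual.toDual.surjective F
      obtain ⟨G, rfl⟩ := OrderDual.toDual.surjective G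
      induction F using WithTop.recTopCoe with
      | top => rw [rkCube_top] at hF; omega
      | coe s =>
        induction G using WithTop.recTopCoe with
        | top => rw [rkCube_top] at hG; omega
        | coe t =>
          rw [rkCube_coe] at hF hG
          rw [le_antisymm (key t s (by omega) h2) (key s t (by omega) h1)]

end Lib_helper64.FO
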