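import Pool.Agent.Lib_helper64.FO.CubeII

namespace Lib_helper64.FO

open Subgroup
open scoped RealInnerProductSpace Pointwise

theorem exists_alt_point {d : ℕ} (hd : 4 ≤ d) (i j : Fin d) :
    ∃ σ ∈ alternatingGroup (Fin d), σ i = j := by
  obtain ⟨k, hk, _⟩ := exists_third (by omega : 3 ≤ d) i i
  obtain ⟨l, hl, _⟩ := exists_third (by omega : 3 ≤ d) j j
  obtain ⟨σ, hσ, h1, _⟩ := exists_alt_pair (n := d) (by omega) (Ne.symm hk) (Ne.symm hl)
  exact ⟨σ, hσ, h1⟩

theorem cube_forms {d : ℕ} (hd : 4 ≤ d) (f : (WithTop (SV d))ᵒᵈ → E d)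
    (hf : Faithful rkCube f) (ho : flagOrbits rkCube f ≤ d) :
    (∃ c u a b, FormI (fun x => f (cubeVertex x)) c u a b) ∨
    (∃ c u p α β γ δ a b, FormII (fun x => f (cubeVertex x)) c u p α β γ δ a b) := by
  classical
  set g : (Fin d → ℤˣ) → E d := fun x => f (cubeVertex x) with hg
  have hinj : Function.Injective g := (cube_faithful_iff f).1 hf
  rw [flagOrbits_cube (by omega)] at ho
  set H := (symGroup rkCube f).comap (actC d) with hH
  have hacts : ∀ b ∈ H, Acts g b := by
    intro b hb
    obtain ⟨T, hT⟩ := (mem_symGroup_cube f b).1 hb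
    exact exists_lin g b T hT
  obtain ⟨hfl, hor⟩ := Bn_small_index (by omega) H ho
  have hflip : ∀ i j : Fin d, i ≠ j → Acts g (SemidirectProduct.inl (flip2 i j)) :=
    fun i j hij => hacts _ (hfl i j hij)
  rcases hor with hA | hT
  · left
    have htr' : ∀ i j : Fin d, ∃ σ : Equiv.Perm (Fin d),
        Acts g (SemidirectProduct.inr σ) ∧ σ i = j := by
      intro i j
      obtain ⟨σ, hσ, h1⟩ := exists_alt_point hd i j
      exact ⟨σ, hacts _ (hA σ hσ), h1⟩
    apply formI_of (by omega) g hinj hflip htr'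
    · intro S h1 h2
      rcases Nat.lt_or_ge d 5 with h5 | h5
      · exact mid_zero_four (by omega) g hinj hflip htr' S (by omega)
      · exact mid_zero_of_alt h5 g hflip (fun σ hσ => hacts _ (hA σ hσ)) S h1 h2
  · set K := H.comap (SemidirectProduct.inr : _ →* Bn d) with hK
    have hKi : K.index ≤ d := (index_comap_le _ H).trans ho
    have hTa : ∀ t, Acts g (SemidirectProduct.inl t) := fun t => hacts _ (hT t)
    by_cases htr : MulAction.IsPretransitive K (Fin d)
    · left
      have htr' : ∀ i j : Fin d, ∃ σ : Equiv.Perm (Fin d),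
          Acts g (SemidirectProduct.inr σ) ∧ σ i = j := by
        intro i j
        obtain ⟨σ, hσ⟩ := MulAction.exists_smul_eq K i j
        exact ⟨σ, hacts _ σ.2, hσ⟩
      apply formI_of (by omega) g hinj hflip htr'
      · intro S h1 h2
        rcases Nat.lt_or_ge d 5 with h5 | h5
        · exact mid_zero_four (by omega) g hinj hflip htr' S (by omega)
        by_contra hne
        let s : Set.powersetCard (Fin d) S.card := ⟨S, rfl⟩
        apply orbit_large h5 K hKi h1 h2 s
        set N : Finset (Finset (Fin d)) :=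
          Finset.univ.filter (fun S => S.Nonempty ∧ hat g S ≠ 0) with hN
        have hNm : ∀ S, S ∈ N ↔ S.Nonempty ∧ hat g S ≠ 0 := by intro S; simp [hN]
        have hNc : N.card ≤ d := card_le_of_orth g N (fun S hS => ((hNm S).1 hS).2)
          (fun S hS S' hS' hne => orth_all g hTa S S' ((hNm S).1 hS).1 ((hNm S').1 hS').1 hne)
        have hmap : ∀ t : MulAction.orbit K s, ((t : Set.powersetCard (Fin d) S.card) : Finset (Fin d)) ∈ N := by
          rintro ⟨_, ⟨σ, rfl⟩⟩
          have hSn : S.Nonempty := Finset.card_pos.1 (by omega)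
          have e1 : (((σ : K) • s : Set.powersetCard (Fin d) S.card) : Finset (Fin d)) =
              S.map (σ : Equiv.Perm (Fin d)).toEmbedding := by
            change ((((σ : Equiv.Perm (Fin d)) • s : Set.powersetCard (Fin d) S.card)) : Finset (Fin d)) = _
            rw [Set.powersetCard.coe_smul]
            ext i
            rw [Finset.mem_map_equiv, ← Finset.inv_smul_mem_iff]
            exact Iff.rfl
          change ((((σ : K) • s : Set.powersetCard (Fin d) S.card)) : Finset (Fin d)) ∈ N
          rw [e1, hNm]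
          refine ⟨by simpa using hSn, ?_⟩
          have h3 := hat_norm g _ (hacts _ σ.2) S hSn
          have h4 : (SemidirectProduct.inr (σ : Equiv.Perm (Fin d)) : Bn d).right = σ := rfl
          have h5 : ‖hat g (S.map (σ : Equiv.Perm (Fin d)).toEmbedding)‖ = ‖hat g S‖ := h3
          rw [← norm_ne_zero_iff, h5]
          exact norm_ne_zero_iff.2 hne
        have h6 : Nat.card (MulAction.orbit K s) ≤ Nat.card N :=
          Nat.card_le_card_of_injective (fun t => (⟨_, hmap t⟩ : N)) (by
            intro t1 t2 h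
            have h7 := congrArg (fun z : N => (z : Finset (Fin d))) h
            exact Subtype.ext (Subtype.ext h7))
        rw [Nat.card_eq_fintype_card (α := N), Fintype.card_coe] at h6
        omega
    · right
      -- find the fixed point
      obtain ⟨i, j, hij⟩ : ∃ i j : Fin d, ∀ σ : K, σ • i ≠ j := by
        by_contra hcon
        push Not at hcon
        exact htr ⟨hcon⟩
      rcases small_index_fun (by omega : 3 ≤ d) (fun l => l ∈ MulAction.orbit K i) K hKi (by
        intro σ hσ l
        apply propext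
        constructor
        · rintro ⟨τ, hτ⟩
          refine ⟨(⟨σ, hσ⟩ : K)⁻¹ * τ, ?_⟩
          change ((⟨σ, hσ⟩ : K)⁻¹ * τ) • i = l
          rw [mul_smul]
          have : τ • i = (⟨σ, hσ⟩ : K) • l := hτ
          rw [this, inv_smul_smul]
        · rintro ⟨τ, hτ⟩
          refine ⟨(⟨σ, hσ⟩ : K) * τ, ?_⟩
          change ((⟨σ, hσ⟩ : K) * τ) • i = σ l
          rw [mul_smul]
          have : τ • i = l := hτ
          rw [this]; rfl) with h1 | ⟨p, h1, h2⟩
      · exfalso
        have h3 := h1 i j
        have h4 : j ∈ MulAction.orbit K i := by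
          rw [← h3]; exact MulAction.mem_orbit_self i
        obtain ⟨σ, hσ⟩ := h4
        exact hij σ hσ
      · have hfix : ∀ σ ∈ K, σ p = p := by
          intro σ hσ
          by_contra hne
          apply h2 _ hne
          apply propext
          constructor
          · rintro ⟨τ, hτ⟩
            refine ⟨(⟨σ, hσ⟩ : K)⁻¹ * τ, ?_⟩
            change ((⟨σ, hσ⟩ : K)⁻¹ * τ) • i = p
            rw [mul_smul]
            have : τ • i = (⟨σ, hσ⟩ : K) • p := hτ
            rw [this, inv_smul_smul]
          · rintro ⟨τ, hτ⟩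
            refine ⟨(⟨σ, hσ⟩ : K) * τ, ?_⟩
            change ((⟨σ, hσ⟩ : K) * τ) • i = σ p
            rw [mul_smul]
            have : τ • i = p := hτ
            rw [this]; rfl
        have hle : K ≤ MulAction.stabilizer (Equiv.Perm (Fin d)) p := fun σ hσ => hfix σ hσ
        have hKeq : K = MulAction.stabilizer (Equiv.Perm (Fin d)) p := by
          by_contra hne
          have h3 := index_strictAnti (lt_of_le_of_ne hle hne)
          rw [MulAction.index_stabilizer_of_transitive] at h3
          simp at h3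
          omega
        obtain ⟨c, u, α, β, γ, δ, a, b, h⟩ := formII_of hd g hinj hTa p (fun σ hσ => by
          have : σ ∈ K := by rw [hKeq]; exact hσ
          exact hacts _ this)
        exact ⟨c, u, p, α, β, γ, δ, a, b, h⟩

theorem norm_sq_sum {d : ℕ} (u : OrthonormalBasis (Fin d) ℝ (E d)) (w : Fin d → ℝ) :
    ‖∑ i, w i • u i‖ ^ 2 = ∑ i, w i ^ 2 := by
  rw [← real_inner_self_eq_norm_sq, sum_inner]
  refine Finset.sum_congr rfl (fun i _ => ?_)
  rw [inner_sum, Finset.sum_eq_single i]
  · rw [inner_smul_left, inner_smul_right, real_inner_self_eq_norm_sq, u.orthonormal.1 i]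
    simp only [conj_trivial]; ring
  · intro j _ hj
    rw [inner_smul_left, inner_smul_right, u.orthonormal.2 (Ne.symm hj)]
    simp
  · intro h; exact absurd (Finset.mem_univ i) h

/-- coefficient of the first family -/
noncomputable def coI {d : ℕ} (a b : ℝ) (x : Fin d → ℤˣ) : ℝ := if par x = 1 then a else b

theorem FormI.dist_sq {d : ℕ} {g : (Fin d → ℤˣ) → E d} {c : E d}
    {u : OrthonormalBasis (Fin d) ℝ (E d)} {a b : ℝ} (h : FormI g c u a b) (x y : Fin d → ℤˣ) :
    dist (g x) (g y) ^ 2 =
      (d : ℝ) * (coI a b x ^ 2 + coI a b y ^ 2) - 2 * (coI a b x * coI a b y) *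
        ∑ i, sg (x i) * sg (y i) := by
  have e : g x - g y = ∑ i, (coI a b x * sg (x i) - coI a b y * sg (y i)) • u i := by
    rw [h x, h y, add_sub_add_left_eq_sub, Finset.smul_sum, Finset.smul_sum,
      ← Finset.sum_sub_distrib]
    refine Finset.sum_congr rfl (fun i _ => ?_)
    rw [smul_smul, smul_smul, ← sub_smul]
    rfl
  rw [dist_eq_norm, e, norm_sq_sum]
  have e2 : ∀ i, (coI a b x * sg (x i) - coI a b y * sg (y i)) ^ 2 =
      (coI a b x ^ 2 + coI a b y ^ 2) - 2 * (coI a b x * coI a b y) * (sg (x i) * sg (y i)) := by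
    intro i
    have h1 := sg_mul_self (x i)
    have h2 := sg_mul_self (y i)
    linear_combination coI a b x ^ 2 * h1 + coI a b y ^ 2 * h2
  rw [Finset.sum_congr rfl (fun i _ => e2 i), Finset.sum_sub_distrib, Finset.sum_const,
    Finset.card_univ, Fintype.card_fin, ← Finset.mul_sum, nsmul_eq_mul]

theorem par_bx {d : ℕ} (b : Bn d) (x : Fin d → ℤˣ) : par (bx b x) = par b.left * par x := by
  unfold par bx
  rw [Finset.prod_mul_distrib]
  congr 1
  exact Equiv.prod_comp b.right.symm x

theorem sum_bx {d : ℕ} (b : Bn d) (x y : Fin d → ℤˣ) :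
    ∑ i, sg (bx b x i) * sg (bx b y i) = ∑ i, sg (x i) * sg (y i) := by
  have : ∀ i, sg (bx b x i) * sg (bx b y i) = sg (x (b.right.symm i)) * sg (y (b.right.symm i)) := by
    intro i
    unfold bx
    rw [sg_mul, sg_mul]
    have := sg_mul_self (b.left i)
    linear_combination (sg (x (b.right.symm i)) * sg (y (b.right.symm i))) * this
  rw [Finset.sum_congr rfl (fun i _ => this i)]
  exact Equiv.sum_comp b.right.symm (fun i => sg (x i) * sg (y i))

theorem sum_flip2 {d : ℕ} {i j : Fin d} (hij : i ≠ j) :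
    ∑ l, sg ((1 : Fin d → ℤˣ) l) * sg (flip2 i j l) = (d : ℝ) - 4 := by
  classical
  have h1 : ∀ l, sg ((1 : Fin d → ℤˣ) l) * sg (flip2 i j l) =
      1 - 2 * (if l = i then 1 else 0) - 2 * (if l = j then 1 else 0) := by
    intro l
    rw [Pi.one_apply, sg_one, one_mul]
    unfold flip2
    by_cases h1 : l = i
    · subst h1; simp [hij, sg]; norm_num
    · by_cases h2 : l = j
      · subst h2; simp [h1, sg]; norm_num
      · simp [h1, h2, sg]
  rw [Finset.sum_congr rfl (fun l _ => h1 l), Finset.sum_sub_distrib, Finset.sum_sub_distrib,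
    ← Finset.mul_sum, ← Finset.mul_sum, Finset.sum_ite_eq', Finset.sum_ite_eq']
  simp
  ring

theorem FormI.mem_of_par {d : ℕ} {f : (WithTop (SV d))ᵒᵈ → E d} {c : E d}
    {u : OrthonormalBasis (Fin d) ℝ (E d)} {a b : ℝ}
    (h : FormI (fun x => f (cubeVertex x)) c u a b) (B : Bn d)
    (hB : parHom d B = 1 ∨ a ^ 2 = b ^ 2) : B ∈ (symGroup rkCube f).comap (actC d) := by
  rw [mem_iff_dist]
  intro x y
  have h1 := h.dist_sq x y
  have h2 := h.dist_sq (bx B x) (bx B y)
  rw [sum_bx] at h2
  have h3 : coI a b (bx B x) ^ 2 + coI a b (bx B y) ^ 2 = coI a b x ^ 2 + coI a b y ^ 2 ∧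
      coI a b (bx B x) * coI a b (bx B y) = coI a b x * coI a b y := by
    unfold coI
    rw [par_bx, par_bx]
    have e : par B.left = parHom d B := rfl
    rw [e]
    rcases hB with hB | hB
    · rw [hB, one_mul, one_mul]; exact ⟨rfl, rfl⟩
    · rcases Int.units_eq_one_or (parHom d B) with h4 | h4 <;>
        rcases Int.units_eq_one_or (par x) with h5 | h5 <;>
        rcases Int.units_eq_one_or (par y) with h6 | h6 <;>
        rw [h4, h5, h6] <;> simp <;> constructor <;> nlinarith
  rw [h3.1, h3.2, ← h1] at h2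
  exact ((pow_left_inj₀ dist_nonneg dist_nonneg two_ne_zero).1 h2).symm

theorem FormI.orbits_one {d : ℕ} (hd : 0 < d) {f : (WithTop (SV d))ᵒᵈ → E d} {c : E d}
    {u : OrthonormalBasis (Fin d) ℝ (E d)} {a b : ℝ}
    (h : FormI (fun x => f (cubeVertex x)) c u a b) (hab : a ^ 2 = b ^ 2) :
    flagOrbits rkCube f = 1 := by
  rw [flagOrbits_cube hd, index_eq_one, eq_top_iff]
  intro B _
  exact h.mem_of_par B (Or.inr hab)

theorem FormI.orbits_two {d : ℕ} (hd : 2 ≤ d) {f : (WithTop (SV d))ᵒᵈ → E d} {c : E d}
    {u : OrthonormalBasis (Fin d) ℝ (E d)} {a b : ℝ}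
    (h : FormI (fun x => f (cubeVertex x)) c u a b) (hab : a ^ 2 ≠ b ^ 2) :
    flagOrbits rkCube f = 2 := by
  have hd0 : 0 < d := by omega
  rw [flagOrbits_cube hd0]
  have hH : (symGroup rkCube f).comap (actC d) = (parHom d).ker := by
    ext B
    constructor
    · intro hB
      rw [MonoidHom.mem_ker]
      by_contra hne
      have hpar : par B.left = -1 := by
        rcases Int.units_eq_one_or (par B.left) with h1 | h1
        · exact absurd h1 hne
        · exact h1
      rw [mem_iff_dist] at hB
      let z : Fin d := ⟨0, by omega⟩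
      let z1 : Fin d := ⟨1, by omega⟩
      have hz : z ≠ z1 := by intro h; have := congrArg Fin.val h; simp [z, z1] at this
      have h1 := h.dist_sq 1 (flip2 z z1)
      have h2 := h.dist_sq (bx B 1) (bx B (flip2 z z1))
      rw [sum_bx, ← hB 1 (flip2 z z1)] at h2
      rw [h1, sum_flip2 hz] at h2
      unfold coI at h2
      rw [par_bx, par_bx, hpar, par_one, par_flip2 hz] at h2
      have e : ((-1 : ℤˣ) * 1 = 1) ↔ False := by decide
      simp only [if_true, e, if_false] at h2
      apply hab
      nlinarith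
    · intro hB
      exact h.mem_of_par B (Or.inl (MonoidHom.mem_ker.1 hB))
  rw [hH, index_ker]
  have hsurj : Function.Surjective (parHom d) := by
    intro e
    rcases Int.units_eq_one_or e with he | he
    · exact ⟨1, by rw [map_one, he]⟩
    · refine ⟨SemidirectProduct.inl (flip1 ⟨0, by omega⟩), ?_⟩
      change par (flip1 _) = e
      rw [← chi_univ, chi_flip1, he]; simp
  rw [MonoidHom.range_eq_top.2 hsurj]
  rw [Subgroup.card_top]
  simp

end Lib_helper64.FO
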