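import Mathlib

/-!
# Few-orbit Euclidean realizations: definitions

`E d` is Euclidean `d`-space.  A polytope is given by its face poset `P` with its rank function
`rk : P → ℤ`.  A realization is given by the images of the vertices (faces of rank `0`): it is a map
`f : P → E d` of which only the values at faces of rank `0` are ever used.
-/

namespace Lib_helper64.FO

/-- Euclidean `d`-space. -/
abbrev E (d : ℕ) := EuclideanSpace ℝ (Fin d)

/-- The type in which images of faces of rank `m` live: a vertex goes to a point, and a face of rank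
`m + 1` is identified with the set of the images of the `m`-faces it contains. -/
def FaceImg (d : ℕ) : ℕ → Type
  | 0 => E d
  | m + 1 => Set (FaceImg d m)

section General

variable {P : Type} [PartialOrder P] {d : ℕ}

/-- The image of the face `F` of rank `m` under the realization with vertex map `f`. -/
def faceImg (rk : P → ℤ) (f : P → E d) : (m : ℕ) → P → FaceImg d m
  | 0, F => f F
  | m + 1, F => {x | ∃ G : P, rk G = (m : ℤ) ∧ G ≤ F ∧ faceImg rk f m G = x}

/-- The realization with vertex map `f` is faithful: for every `m ≥ 0` the induced map on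
`m`-faces is injective. -/
def Faithful (rk : P → ℤ) (f : P → E d) : Prop :=
  ∀ (m : ℕ) (F G : P), rk F = (m : ℤ) → rk G = (m : ℤ) →
    faceImg rk f m F = faceImg rk f m G → F = G

/-- The automorphisms of `P` that are induced by an isometry of `E d` (the symmetry group of a
faithful realization, acting on the faces). -/
def symGroup (rk : P → ℤ) (f : P → E d) : Subgroup (P ≃o P) where
  carrier := {γ | (∀ F, rk (γ F) = rk F) ∧
    ∃ T : E d ≃ᵢ E d, ∀ v, rk v = 0 → T (f v) = f (γ v)}
  mul_mem' := by
    rintro γ δ ⟨h1, T, hT⟩ ⟨h2, U, hU⟩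
    refine ⟨fun F => ?_, U.trans T, fun v hv => ?_⟩
    · change rk (γ (δ F)) = rk F
      rw [h1, h2]
    · change T (U (f v)) = f (γ (δ v))
      rw [hU v hv, hT (δ v) (by rw [h2, hv])]
  one_mem' := ⟨fun _ => rfl, IsometryEquiv.refl _, fun _ _ => rfl⟩
  inv_mem' := by
    rintro γ ⟨h1, T, hT⟩
    refine ⟨fun F => ?_, T.symm, fun v hv => ?_⟩
    · have := h1 (γ⁻¹ F)
      rw [show γ (γ⁻¹ F) = F from γ.apply_symm_apply F] at this
      exact this.symm
    · have h2 : rk (γ⁻¹ v) = 0 := by
        have := h1 (γ⁻¹ v)
        rw [show γ (γ⁻¹ v) = v from γ.apply_symm_apply v] at this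
        rw [← this, hv]
      have := hT (γ⁻¹ v) h2
      rw [show γ (γ⁻¹ v) = v from γ.apply_symm_apply v] at this
      rw [← this, T.symm_apply_apply]

/-- The number of orbits of the symmetry group on the flags (maximal chains) of `P`. -/
noncomputable def flagOrbits (rk : P → ℤ) (f : P → E d) : ℕ :=
  Nat.card (MulAction.orbitRel.Quotient (symGroup rk f) (Flag P))

/-- `f` is the vertex map of a `k`-orbit realization in `E d` of the polytope `P`: it is faithful
and its symmetry group has exactly `k` orbits on the flags. -/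
def IsOrbitRealization (rk : P → ℤ) (f : P → E d) (k : ℕ) : Prop :=
  Faithful rk f ∧ flagOrbits rk f = k

end General

/-! ### The three classical polytopes -/

/-- The rank function of the `d`-simplex, whose face poset is `Finset (Fin (d + 1))`. -/
def rkSimplex {d : ℕ} (F : Finset (Fin (d + 1))) : ℤ := (F.card : ℤ) - 1

/-- Sign vectors of length `d`: entries `none` (for `0`) or `some 1`, `some (-1)`.  The sign vector
`s` is the face of the `d`-cross-polytope whose vertices are the signed unit vectors `a • e_i` with
`s i = some a`. -/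
def SV (d : ℕ) := Fin d → Option ℤˣ

instance instPartialOrderSV (d : ℕ) : PartialOrder (SV d) where
  le s t := ∀ i a, s i = some a → t i = some a
  le_refl _ _ _ h := h
  le_trans _ _ _ h1 h2 i a h := h2 i a (h1 i a h)
  le_antisymm s t h1 h2 := by
    funext i
    cases hs : s i with
    | none =>
      cases ht : t i with
      | none => rfl
      | some a => rw [h2 i a ht] at hs; exact absurd hs (by simp)
    | some a => rw [h1 i a hs]

theorem SV.le_def {d : ℕ} {s t : SV d} : s ≤ t ↔ ∀ i a, s i = some a → t i = some a := Iff.rfl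

/-- number of nonzero entries of a sign vector -/
def SV.weight {d : ℕ} (s : SV d) : ℕ := (Finset.univ.filter (fun i => (s i).isSome = true)).card

/-- The rank function of the `d`-cross-polytope, whose face poset is `WithTop (SV d)`. -/
def rkCross {d : ℕ} : WithTop (SV d) → ℤ
  | ⊤ => d
  | (s : SV d) => (s.weight : ℤ) - 1

/-- The rank function of the `d`-cube, whose face poset is the dual of that of the cross-polytope.-/
def rkCube {d : ℕ} (F : (WithTop (SV d))ᵒᵈ) : ℤ := (d : ℤ) - 1 - rkCross (OrderDual.ofDual F)

/-- The signed unit vector `a • e_i` as a sign vector. -/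
def SV.unit {d : ℕ} (i : Fin d) (a : ℤˣ) : SV d := fun j => if j = i then some a else none

/-- The sign vector without zero entries with the entries `x i = ± 1`. -/
def SV.full {d : ℕ} (x : Fin d → ℤˣ) : SV d := fun i => some (x i)

/-- The vertex `a • e_i` of the cross-polytope. -/
def crossVertex {d : ℕ} (i : Fin d) (a : ℤˣ) : WithTop (SV d) := (SV.unit i a : WithTop (SV d))

/-- The vertex of the cube with the coordinates `x i = ± 1`. -/
def cubeVertex {d : ℕ} (x : Fin d → ℤˣ) : (WithTop (SV d))ᵒᵈ :=
  OrderDual.toDual (SV.full x : WithTop (SV d))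

/-! ### The forms of the realizations -/

/-- The real number `1` or `-1` given by a sign. -/
def sg (a : ℤˣ) : ℝ := ((a : ℤ) : ℝ)

/-- The product of all the signs `x i`. -/
def par {d : ℕ} (x : Fin d → ℤˣ) : ℤˣ := ∏ i, x i

/-- The tetrahedron with two opposite edges of length `s` and the four other edges of length
`t ≠ s`. -/
def Disphenoid {d : ℕ} (f : Finset (Fin (d + 1)) → E d) : Prop :=
  ∃ (e : Fin 4 ≃ Fin (d + 1)) (s t : ℝ), 0 < s ∧ 0 < t ∧ s ≠ t ∧
    dist (f {e 0}) (f {e 1}) = s ∧ dist (f {e 2}) (f {e 3}) = s ∧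
    dist (f {e 0}) (f {e 2}) = t ∧ dist (f {e 0}) (f {e 3}) = t ∧
    dist (f {e 1}) (f {e 2}) = t ∧ dist (f {e 1}) (f {e 3}) = t

/-- Realization of the cross-polytope with centre `c`, orthogonal axes `u i` and half-diagonals
`s i > 0`: the vertex `a • e_i` goes to `c + a s_i u_i`. -/
def CrossForm {d : ℕ} (f : WithTop (SV d) → E d) (c : E d) (u : OrthonormalBasis (Fin d) ℝ (E d))
    (s : Fin d → ℝ) : Prop :=
  (∀ i, 0 < s i) ∧ ∀ (i : Fin d) (a : ℤˣ), f (crossVertex i a) = c + (((a : ℤ) : ℝ) * s i) • u i

/-- First family of realizations of the cube: the vertex `x` goes to `c + a ∑ x_i u_i` if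
`∏ x_i = 1` and to `c + b ∑ x_i u_i` if `∏ x_i = -1`. -/
def FormI {d : ℕ} (g : (Fin d → ℤˣ) → E d) (c : E d) (u : OrthonormalBasis (Fin d) ℝ (E d))
    (a b : ℝ) : Prop :=
  ∀ x, g x = c + (if par x = 1 then a else b) • ∑ i, sg (x i) • u i

/-- Second family of realizations of the cube, with a distinguished coordinate `p`: with
`π = ∏ x_i`, the vertex `x` goes to
`c + b x_p ^ γ π ^ δ u_p + ∑_{i ≠ p} a x_i x_p ^ α π ^ β u_i` (exponents `0` or `1`, as Booleans). -/
def FormII {d : ℕ} (g : (Fin d → ℤˣ) → E d) (c : E d) (u : OrthonormalBasis (Fin d) ℝ (E d))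
    (p : Fin d) (α β γ δ : Bool) (a b : ℝ) : Prop :=
  0 < a ∧ 0 < b ∧ ∀ x, g x = c +
    (b * sg ((if γ then x p else 1) * (if δ then par x else 1))) • u p +
    ∑ i ∈ Finset.univ.erase p,
      (a * sg (x i * (if α then x p else 1) * (if β then par x else 1))) • u i

/-- The condition on the exponents of the second family under which it is injective on vertices. -/
def Indep (d : ℕ) (α β γ δ : Bool) : Prop :=
  match α, β with
  | false, false => γ ≠ δ
  | true, false => (γ = true ∧ δ = false) ∨ (γ = true ∧ δ = true ∧ Even d) ∨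
      (γ = false ∧ δ = true ∧ Odd d)
  | false, true => (γ = false ∧ δ = true) ∨ (γ = true ∧ δ = false ∧ Odd d) ∨
      (γ = true ∧ δ = true ∧ Even d)
  | true, true => Odd d ∧ γ ≠ δ

end Lib_helper64.FO
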