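import Pool.Agent.Lib_helper64.FO.CrossThm

namespace Lib_helper64.FO

open Subgroup
open scoped RealInnerProductSpace

theorem sg_one : sg 1 = 1 := by simp [sg]
theorem sg_mul (a b : ℤˣ) : sg (a * b) = sg a * sg b := by simp [sg]
theorem sg_neg (a : ℤˣ) : sg (-a) = -sg a := by simp [sg]
theorem sg_mul_self (a : ℤˣ) : sg a * sg a = 1 := by
  rcases Int.units_eq_one_or a with h | h <;> rw [h] <;> simp [sg]
theorem sg_eq_or (a : ℤˣ) : sg a = 1 ∨ sg a = -1 := by
  rcases Int.units_eq_one_or a with h | h <;> rw [h] <;> simp [sg]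
theorem sg_injective : Function.Injective sg := by
  intro a b h
  apply Units.ext
  have : ((a : ℤ) : ℝ) = ((b : ℤ) : ℝ) := h
  exact_mod_cast this
theorem sg_prod {ι : Type*} (S : Finset ι) (f : ι → ℤˣ) : sg (∏ i ∈ S, f i) = ∏ i ∈ S, sg (f i) := by
  classical
  induction S using Finset.induction_on with
  | empty => simp [sg_one]
  | insert a S ha ih => rw [Finset.prod_insert ha, Finset.prod_insert ha, sg_mul, ih]
theorem units_mul_self (a : ℤˣ) : a * a = 1 := by rw [← sq, Int.units_sq]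

/-- characters of the group of sign changes -/
def chi {d : ℕ} (S : Finset (Fin d)) (x : Fin d → ℤˣ) : ℤˣ := ∏ i ∈ S, x i

theorem chi_mul {d : ℕ} (S : Finset (Fin d)) (x y : Fin d → ℤˣ) :
    chi S (x * y) = chi S x * chi S y := by
  unfold chi; simp [Finset.prod_mul_distrib]

theorem sum_chi {d : ℕ} (z : Fin d → ℤˣ) :
    ∑ S : Finset (Fin d), sg (chi S z) = if z = 1 then (2 : ℝ) ^ d else 0 := by
  classical
  have h1 : ∑ S : Finset (Fin d), sg (chi S z) = ∏ i : Fin d, (1 + sg (z i)) := by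
    rw [Finset.prod_one_add, Finset.powerset_univ]
    refine Finset.sum_congr rfl (fun S _ => ?_)
    rw [chi, sg_prod]
  rw [h1]
  by_cases hz : z = 1
  · rw [if_pos hz, hz]
    simp only [Pi.one_apply, sg_one]
    rw [Finset.prod_const, Finset.card_univ, Fintype.card_fin]
    norm_num
  · rw [if_neg hz]
    obtain ⟨i, hi⟩ : ∃ i, z i ≠ 1 := by
      by_contra hcon
      push Not at hcon
      exact hz (funext hcon)
    rw [Finset.prod_eq_zero (Finset.mem_univ i)]
    rcases Int.units_eq_one_or (z i) with h | h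
    · exact absurd h hi
    · rw [h, sg_neg, sg_one]; ring

/-- Fourier coefficients -/
noncomputable def hat {d : ℕ} (g : (Fin d → ℤˣ) → E d) (S : Finset (Fin d)) : E d :=
  ((2 : ℝ) ^ d)⁻¹ • ∑ x, sg (chi S x) • g x

theorem hat_inv {d : ℕ} (g : (Fin d → ℤˣ) → E d) (x : Fin d → ℤˣ) :
    g x = ∑ S : Finset (Fin d), sg (chi S x) • hat g S := by
  classical
  unfold hat
  have h2 : ((2 : ℝ) ^ d) ≠ 0 := by positivity
  have h1 : ∀ S : Finset (Fin d), sg (chi S x) • (((2 : ℝ) ^ d)⁻¹ • ∑ y, sg (chi S y) • g y) =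
      ∑ y, ((((2 : ℝ) ^ d)⁻¹ * sg (chi S (x * y))) • g y) := by
    intro S
    rw [smul_smul, Finset.smul_sum]
    refine Finset.sum_congr rfl (fun y _ => ?_)
    rw [smul_smul, chi_mul, sg_mul]
    congr 1; ring
  rw [Finset.sum_congr rfl (fun S _ => h1 S), Finset.sum_comm]
  rw [Finset.sum_eq_single x]
  · rw [← Finset.sum_smul, ← Finset.mul_sum, sum_chi, if_pos, inv_mul_cancel₀ h2, one_smul]
    funext i
    exact units_mul_self (x i)
  · intro y _ hy
    rw [← Finset.sum_smul, ← Finset.mul_sum, sum_chi, if_neg, mul_zero, zero_smul]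
    intro h
    apply hy
    funext i
    have := congrFun h i
    rw [Pi.mul_apply, Pi.one_apply] at this
    have h3 : x i * (x i * y i) = x i := by rw [this, mul_one]
    rw [← mul_assoc, units_mul_self, one_mul] at h3
    exact h3
  · intro h; exact absurd (Finset.mem_univ x) h

/-- single sign change -/
def flip1 {d : ℕ} (i : Fin d) : Fin d → ℤˣ := fun l => if l = i then -1 else 1

theorem chi_flip1 {d : ℕ} (S : Finset (Fin d)) (i : Fin d) :
    chi S (flip1 i) = if i ∈ S then -1 else 1 := by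
  classical
  unfold chi flip1
  by_cases h : i ∈ S
  · rw [if_pos h, Finset.prod_eq_single i]
    · simp
    · intro b _ hb; simp [hb]
    · intro h'; exact absurd h h'
  · rw [if_neg h, Finset.prod_eq_one]
    intro j hj
    rw [if_neg]
    rintro rfl; exact h hj

theorem flip2_eq {d : ℕ} {i j : Fin d} (hij : i ≠ j) : flip2 i j = flip1 i * flip1 j := by
  funext l
  rw [Pi.mul_apply]
  unfold flip2 flip1
  by_cases h1 : l = i
  · subst h1; simp [hij]
  · by_cases h2 : l = j
    · subst h2; simp [h1]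
    · simp [h1, h2]

theorem sum_chi_x {d : ℕ} (S : Finset (Fin d)) (hS : S.Nonempty) :
    ∑ x : Fin d → ℤˣ, sg (chi S x) = 0 := by
  classical
  obtain ⟨i, hi⟩ := hS
  have h1 : ∑ x : Fin d → ℤˣ, sg (chi S x) = ∑ x : Fin d → ℤˣ, sg (chi S (flip1 i * x)) :=
    (Equiv.sum_comp (Equiv.mulLeft (flip1 i)) (fun x => sg (chi S x))).symm
  have h2 : ∑ x : Fin d → ℤˣ, sg (chi S (flip1 i * x)) = - ∑ x : Fin d → ℤˣ, sg (chi S x) := by
    rw [← Finset.sum_neg_distrib]
    refine Finset.sum_congr rfl (fun x _ => ?_)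
    rw [chi_mul, chi_flip1, if_pos hi, sg_mul, sg_neg, sg_one]; ring
  linarith

/-- The hyperoctahedral group acting on the vertices of the cube. -/
def bx {d : ℕ} (b : Bn d) (x : Fin d → ℤˣ) : Fin d → ℤˣ := fun i => b.left i * x (b.right.symm i)

theorem bx_mul {d : ℕ} (a b : Bn d) (x : Fin d → ℤˣ) : bx (a * b) x = bx a (bx b x) := by
  funext i
  unfold bx
  rw [Bn.mul_left_apply, mul_assoc]
  rfl

theorem bx_one {d : ℕ} (x : Fin d → ℤˣ) : bx (1 : Bn d) x = x := by
  funext i
  change (1 : ℤˣ) * x i = x i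
  rw [one_mul]

/-- as a permutation -/
def bxEquiv {d : ℕ} (b : Bn d) : (Fin d → ℤˣ) ≃ (Fin d → ℤˣ) where
  toFun := bx b
  invFun := bx b⁻¹
  left_inv x := by rw [← bx_mul, inv_mul_cancel, bx_one]
  right_inv x := by rw [← bx_mul, mul_inv_cancel, bx_one]

theorem chi_bx {d : ℕ} (b : Bn d) (S : Finset (Fin d)) (x : Fin d → ℤˣ) :
    chi (S.map b.right.toEmbedding) (bx b x) = chi (S.map b.right.toEmbedding) b.left * chi S x := by
  unfold chi bx
  rw [Finset.prod_map, Finset.prod_map, ← Finset.prod_mul_distrib]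
  refine Finset.prod_congr rfl (fun i _ => ?_)
  simp

/-- The linear parts of the symmetries act on Fourier coefficients. -/
theorem hat_lin {d : ℕ} (g : (Fin d → ℤˣ) → E d) (b : Bn d) (L : E d ≃ₗᵢ[ℝ] E d)
    (hL : ∀ x y, L (g x - g y) = g (bx b x) - g (bx b y)) (S : Finset (Fin d)) (hS : S.Nonempty) :
    L (hat g S) = sg (chi (S.map b.right.toEmbedding) b.left) • hat g (S.map b.right.toEmbedding) := by
  classical
  have h0 := sum_chi_x S hS
  have h1 : ∀ h : (Fin d → ℤˣ) → E d, ∀ v : E d,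
      ∑ x, sg (chi S x) • (h x - v) = ∑ x, sg (chi S x) • h x := by
    intro h v
    simp only [smul_sub, Finset.sum_sub_distrib]
    rw [← Finset.sum_smul, h0, zero_smul, sub_zero]
  have h2 : hat g S = ((2 : ℝ) ^ d)⁻¹ • ∑ x, sg (chi S x) • (g x - g 1) := by
    rw [h1 g (g 1)]; rfl
  have h3 : L (hat g S) = ((2 : ℝ) ^ d)⁻¹ • ∑ x, sg (chi S x) • g (bx b x) := by
    rw [h2, map_smul, map_sum]
    congr 1
    rw [← h1 (fun x => g (bx b x)) (g (bx b 1))]
    refine Finset.sum_congr rfl (fun x _ => ?_)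
    rw [map_smul, hL]
  rw [h3]
  unfold hat
  rw [smul_comm (sg (chi (S.map b.right.toEmbedding) b.left)) (((2 : ℝ) ^ d)⁻¹)]
  congr 1
  rw [Finset.smul_sum]
  rw [← Equiv.sum_comp (bxEquiv b) (fun y => sg (chi (S.map b.right.toEmbedding) b.left) •
    sg (chi (S.map b.right.toEmbedding) y) • g y)]
  refine Finset.sum_congr rfl (fun x _ => ?_)
  change sg (chi S x) • g (bx b x) = sg (chi (S.map b.right.toEmbedding) b.left) •
    sg (chi (S.map b.right.toEmbedding) (bx b x)) • g (bx b x)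
  rw [chi_bx, sg_mul, smul_smul, ← mul_assoc, sg_mul_self, one_mul]

theorem exists_lin {d : ℕ} (g : (Fin d → ℤˣ) → E d) (b : Bn d) (T : E d ≃ᵢ E d)
    (hT : ∀ x, T (g x) = g (bx b x)) :
    ∃ L : E d ≃ₗᵢ[ℝ] E d, ∀ x y, L (g x - g y) = g (bx b x) - g (bx b y) := by
  refine ⟨T.toRealAffineIsometryEquiv.linearIsometryEquiv, fun x y => ?_⟩
  have := T.toRealAffineIsometryEquiv.map_vsub (g x) (g y)
  rw [vsub_eq_sub, vsub_eq_sub] at this
  change _ = T (g x) - T (g y) at this
  rw [hT, hT] at this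
  exact this

end Lib_helper64.FO
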