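import Mathlib

namespace Lib_helper64.FO

open Equiv.Perm MulAction Subgroup
open scoped Pointwise

/-- A subgroup of `Sym(α)` of index smaller than `|α|` contains the alternating group. -/
theorem alt_le_of_index_lt {α : Type*} [Fintype α] [DecidableEq α] (h5 : 5 ≤ Fintype.card α)
    (S : Subgroup (Equiv.Perm α)) (h : S.index < Fintype.card α) : alternatingGroup α ≤ S := by
  classical
  have hpos : S.index ≠ 0 := index_ne_zero_of_finite
  by_cases hN : S.normalCore = ⊥
  · exfalso
    rw [Subgroup.normalCore_eq_ker] at hN
    have hinj : Function.Injective (MulAction.toPermHom (Equiv.Perm α) (Equiv.Perm α ⧸ S)) :=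
      (MonoidHom.ker_eq_bot_iff _).1 hN
    have hc := Nat.card_le_card_of_injective _ hinj
    rw [Nat.card_perm, Nat.card_perm, Nat.card_eq_fintype_card] at hc
    have : (Nat.card (Equiv.Perm α ⧸ S)).factorial < (Fintype.card α).factorial := by
      rw [Nat.factorial_lt (by rw [← Subgroup.index_eq_card]; omega)]
      rw [← Subgroup.index_eq_card]; exact h
    omega
  · have hnt : Nontrivial S.normalCore := (Subgroup.nontrivial_iff_ne_bot _).2 hN
    exact (alternatingGroup_le_of_normal (by rw [Nat.card_eq_fintype_card]; exact h5) hnt).trans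
      S.normalCore_le

theorem choose_ge_of_mid : ∀ (d m : ℕ), 2 ≤ m → m + 2 ≤ d → d.choose 2 ≤ d.choose m := by
  intro d
  induction d with
  | zero => intro m h1 h2; omega
  | succ d ih =>
    intro m h1 h2
    rcases Nat.lt_or_ge m 3 with h3 | h3
    · have : m = 2 := by omega
      subst this; exact le_rfl
    rcases Nat.lt_or_ge (m + 2) (d + 1) with h4 | h4
    · obtain ⟨m', rfl⟩ : ∃ m', m = m' + 1 := ⟨m - 1, by omega⟩
      rw [Nat.choose_succ_succ' d m']
      have e1 := ih m' (by omega) (by omega)
      have e2 := ih (m' + 1) (by omega) (by omega)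
      have e3 : (d + 1).choose 2 ≤ d.choose 2 + d.choose 2 := by
        rw [show (d+1).choose 2 = d.choose 1 + d.choose 2 from Nat.choose_succ_succ' d 1, Nat.choose_one_right]
        have : d ≤ d.choose 2 := by
          rw [Nat.choose_two_right]
          have : 2 * d ≤ d * (d - 1) := by
            obtain ⟨e, rfl⟩ : ∃ e, d = e + 3 := ⟨d - 3, by omega⟩
            have : e + 3 - 1 = e + 2 := by omega
            rw [this]; nlinarith
          omega
        omega
      omega
    · have : m = (d + 1) - 2 := by omega
      rw [this, Nat.choose_symm (by omega)]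

/-- index of the set stabiliser -/
theorem index_stab_powersetCard (d m : ℕ) (s : Set.powersetCard (Fin d) m) :
    (stabilizer (Equiv.Perm (Fin d)) s).index = d.choose m := by
  have := Set.powersetCard.isPretransitive (α := Fin d) (n := m)
  rw [MulAction.index_stabilizer_of_transitive, Set.powersetCard.card]
  simp


/-- The stabiliser of a set, as a subset stabiliser. -/
theorem mem_stab_iff {d m : ℕ} (s : Set.powersetCard (Fin d) m) (g : Equiv.Perm (Fin d)) :
    g ∈ stabilizer (Equiv.Perm (Fin d)) s ↔ ∀ x, g x ∈ (s : Finset (Fin d)) ↔ x ∈ (s : Finset (Fin d)) := by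
  rw [mem_stabilizer_iff, ← Subtype.coe_inj, Set.powersetCard.coe_smul]
  constructor
  · intro h x
    have e := Finset.smul_mem_smul_finset_iff g (s := (s : Finset (Fin d))) (b := x)
    rw [h] at e; exact e
  · intro h
    ext x
    rw [← Finset.inv_smul_mem_iff, ← h]
    simp

theorem two_choose_ge {d : ℕ} (hd : 5 ≤ d) : d * 2 ≤ d.choose 2 := by
  rw [Nat.choose_two_right]
  have : d * 2 * 2 ≤ d * (d - 1) := by
    obtain ⟨e, rfl⟩ : ∃ e, d = e + 5 := ⟨d - 5, by omega⟩
    have : e + 5 - 1 = e + 4 := by omega
    rw [this]; nlinarith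
  omega

theorem two_choose_eq (d : ℕ) : 2 * d.choose 2 = d * (d - 1) := by
  rw [Nat.choose_two_right]
  have : 2 ∣ d * (d - 1) := by
    rcases Nat.even_or_odd d with h | h
    · exact (h.two_dvd).mul_right _
    · exact Dvd.dvd.mul_left (by rcases h with ⟨k, rfl⟩; simp) _
  omega

/-- Key group-theoretic lemma: a transitive subgroup of `Sym(d)` of index at most `d` has no orbit of
length at most `d` on the `m`-subsets, `2 ≤ m ≤ d - 2`. -/
theorem orbit_large {d m : ℕ} (hd : 5 ≤ d) (K : Subgroup (Equiv.Perm (Fin d))) (hK : K.index ≤ d)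
    [htr : IsPretransitive K (Fin d)] (h2 : 2 ≤ m) (hm : m + 2 ≤ d)
    (s : Set.powersetCard (Fin d) m) (hs : Nat.card (orbit K s) ≤ d) : False := by
  classical
  set St := stabilizer (Equiv.Perm (Fin d)) s with hSt
  have hStK : St.relIndex K ≤ d := by
    have e1 : St.subgroupOf K = stabilizer K s := by
      ext g; rfl
    rw [Subgroup.relIndex, e1, MulAction.index_stabilizer]
    exact hs
  have hStidx : St.index = d.choose m := index_stab_powersetCard d m s
  have hKpos : K.index ≠ 0 := index_ne_zero_of_finite
  have hR : (K ⊓ St).index ≤ d * d := by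
    rw [← relIndex_mul_index (inf_le_left : K ⊓ St ≤ K), inf_relIndex_left]
    exact Nat.mul_le_mul hStK hK
  have hR2 : K.relIndex St ≤ 2 := by
    rw [← relIndex_mul_index (inf_le_right : K ⊓ St ≤ St), inf_relIndex_right, hStidx] at hR
    by_contra hcon
    have h3 : 3 ≤ K.relIndex St := by omega
    have h4 : 3 * d.choose 2 ≤ d * d :=
      (Nat.mul_le_mul h3 (choose_ge_of_mid d m h2 hm)).trans hR
    have h5 := two_choose_eq d
    obtain ⟨e, rfl⟩ : ∃ e, d = e + 5 := ⟨d - 5, by omega⟩
    have : e + 5 - 1 = e + 4 := by omega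
    rw [this] at h5
    nlinarith
  -- the larger side
  obtain ⟨L, hL3, hLd, hLst⟩ : ∃ L : Finset (Fin d), 3 ≤ L.card ∧ d ≤ 2 * L.card ∧
      ∀ g : Equiv.Perm (Fin d), (∀ x, x ∉ L → g x = x) → g ∈ St := by
    rcases Nat.lt_or_ge (2 * m) d with h | h
    · refine ⟨(s : Finset (Fin d))ᶜ, ?_, ?_, ?_⟩
      · rw [Finset.card_compl, Set.powersetCard.card_eq]; simp; omega
      · rw [Finset.card_compl, Set.powersetCard.card_eq]; simp; omega
      · intro g hg
        rw [hSt, mem_stab_iff]
        intro x
        constructor
        · intro hx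
          by_contra hx'
          have h1 := hg (g x) (by simpa using hx)
          exact hx' (by rw [g.injective h1] at hx; exact hx)
        · intro hx
          rw [hg x (by simpa using hx)]; exact hx
    · refine ⟨(s : Finset (Fin d)), ?_, ?_, ?_⟩
      · rw [Set.powersetCard.card_eq]; omega
      · rw [Set.powersetCard.card_eq]; omega
      · intro g hg
        rw [hSt, mem_stab_iff]
        intro x
        constructor
        · intro hx
          by_contra hx'
          rw [hg x hx'] at hx; exact hx' hx
        · intro hx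
          by_contra hx'
          have h1 := hg (g x) hx'
          exact hx' (by rw [g.injective h1]; exact hx)
  -- the alternating group of L lies in K
  have hAlt : ∀ x y z : Fin d, x ∈ L → y ∈ L → z ∈ L → x ≠ y → x ≠ z → y ≠ z →
      (Equiv.swap x z * Equiv.swap x y) ∈ K := by
    intro x y z hx hy hz hxy hxz hyz
    let φ : Equiv.Perm {a // a ∈ L} →* Equiv.Perm (Fin d) := Equiv.Perm.ofSubtype
    have hφ : φ.range ≤ St := by
      rintro _ ⟨g, rfl⟩
      exact hLst _ (fun x hx => Equiv.Perm.ofSubtype_apply_of_not_mem g hx)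
    have hidx : (K.comap φ).index ≤ 2 := by
      rw [Subgroup.index_comap]
      refine le_trans ?_ hR2
      exact relIndex_le_of_le_right hφ (by
        intro h0
        exact hKpos (index_eq_zero_of_relIndex_eq_zero h0))
    have hal := alternatingGroup_le_of_index_le_two hidx
    have hmem : (Equiv.swap (⟨x, hx⟩ : {a // a ∈ L}) ⟨z, hz⟩ * Equiv.swap ⟨x, hx⟩ ⟨y, hy⟩) ∈
        alternatingGroup {a // a ∈ L} := by
      rw [Equiv.Perm.mem_alternatingGroup, Equiv.Perm.sign_mul, Equiv.Perm.sign_swap (by simpa using hxz),
        Equiv.Perm.sign_swap (by simpa using hxy)]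
      simp
    have := hal hmem
    rw [Subgroup.mem_comap, map_mul] at this
    simpa [φ, Equiv.Perm.ofSubtype_swap_eq] using this
  -- primitivity
  have hprim : IsPreprimitive K (Fin d) := by
    obtain ⟨a, ha⟩ : L.Nonempty := Finset.card_pos.1 (by omega)
    refine IsPreprimitive.of_isTrivialBlock_base a (fun {B} haB hB => ?_)
    by_cases hex : ∃ y ∈ B, y ∈ L ∧ y ≠ a
    · obtain ⟨y, hyB, hyL, hya⟩ := hex
      have hLB : (L : Set (Fin d)) ⊆ B := by
        intro z hz
        by_cases hza : z = a
        · subst hza; exact haB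
        by_cases hzy : z = y
        · subst hzy; exact hyB
        have hg := hAlt a y z ha hyL hz (Ne.symm hya) (Ne.symm hza) (Ne.symm hzy)
        set g : K := ⟨_, hg⟩ with hgdef
        have e1 : g • a = y := by
          change (Equiv.swap a z * Equiv.swap a y) a = y
          rw [Equiv.Perm.mul_apply, Equiv.swap_apply_left,
            Equiv.swap_apply_of_ne_of_ne hya (Ne.symm hzy)]
        have e2 : g • y = z := by
          change (Equiv.swap a z * Equiv.swap a y) y = z
          rw [Equiv.Perm.mul_apply, Equiv.swap_apply_right, Equiv.swap_apply_left]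
        have e3 : g • B = B := hB.smul_eq_of_mem haB (by rw [e1]; exact hyB)
        rw [← e3, ← e2]
        exact Set.smul_mem_smul_set hyB
      have hcard : L.card ≤ B.ncard := by
        rw [← Set.ncard_coe_finset L]
        exact Set.ncard_le_ncard hLB (Set.toFinite _)
      by_cases hlt : Nat.card (Fin d) < B.ncard * 2
      · exact Or.inr (hB.eq_univ_of_card_lt hlt)
      · exfalso
        rw [Nat.card_eq_fintype_card, Fintype.card_fin] at hlt
        have hBc : B.ncard = L.card := by omega
        have hBL : (L : Set (Fin d)) = B := by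
          refine Set.eq_of_subset_of_ncard_le hLB ?_ (Set.toFinite _)
          rw [Set.ncard_coe_finset, hBc]
        have horb := hB.ncard_block_mul_ncard_orbit_eq ⟨a, haB⟩
        rw [Nat.card_eq_fintype_card, Fintype.card_fin] at horb
        have horb2 : (orbit K B).ncard = 2 := by
          have : B.ncard * (orbit K B).ncard = B.ncard * 2 := by omega
          exact Nat.eq_of_mul_eq_mul_left (by omega) this
        let l : Set.powersetCard (Fin d) L.card := ⟨L, rfl⟩
        have hKl : (stabilizer (Equiv.Perm (Fin d)) l).relIndex K = 2 := by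
          have e1 : (stabilizer (Equiv.Perm (Fin d)) l).subgroupOf K = stabilizer K B := by
            ext g
            rw [Subgroup.mem_subgroupOf, mem_stab_iff, mem_stabilizer_iff]
            constructor
            · intro h
              ext x
              rw [Set.mem_smul_set_iff_inv_smul_mem, ← hBL]
              have := h ((g : Equiv.Perm (Fin d))⁻¹ x)
              rw [show (g : Equiv.Perm (Fin d)) ((g : Equiv.Perm (Fin d))⁻¹ x) = x by simp] at this
              exact this.symm
            · intro h x
              change (g : Equiv.Perm (Fin d)) x ∈ L ↔ x ∈ L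
              have e : ∀ y, y ∈ L ↔ y ∈ B := fun y => by rw [← hBL]; rfl
              rw [e, e]
              have : g • x ∈ g • B ↔ x ∈ B := Set.smul_mem_smul_set_iff
              rw [h] at this
              exact this
          rw [Subgroup.relIndex, e1, MulAction.index_stabilizer, horb2]
        have h1 : (K ⊓ stabilizer (Equiv.Perm (Fin d)) l).index ≤ 2 * d := by
          rw [← relIndex_mul_index (inf_le_left : K ⊓ stabilizer (Equiv.Perm (Fin d)) l ≤ K),
            inf_relIndex_left, hKl]
          exact Nat.mul_le_mul le_rfl hK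
        have h2' : d.choose L.card ≤ (K ⊓ stabilizer (Equiv.Perm (Fin d)) l).index := by
          rw [← index_stab_powersetCard d L.card l]
          exact index_antitone inf_le_right
        have h3 := choose_ge_of_mid d L.card (by omega) (by omega)
        have h5 := two_choose_eq d
        obtain ⟨e, rfl⟩ : ∃ e, d = e + 6 := ⟨d - 6, by omega⟩
        have : e + 6 - 1 = e + 5 := by omega
        rw [this] at h5
        nlinarith
    · left
      push Not at hex
      have honly : ∀ y ∈ B, y ∈ L → y = a := hex
      intro u hu v hv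
      by_contra huv
      -- some element of B outside L
      obtain ⟨y, hyB, hyL⟩ : ∃ y ∈ B, y ∉ L := by
        by_contra hcon
        push Not at hcon
        exact huv ((honly u hu (hcon u hu)).trans (honly v hv (hcon v hv)).symm)
      obtain ⟨z, hz, w, hw, hza, hwa, hzw⟩ : ∃ z ∈ L, ∃ w ∈ L, z ≠ a ∧ w ≠ a ∧ z ≠ w := by
        have : 1 < (L.erase a).card := by rw [Finset.card_erase_of_mem ha]; omega
        obtain ⟨z, hz, w, hw, hzw⟩ := Finset.one_lt_card.1 this
        rw [Finset.mem_erase] at hz hw
        exact ⟨z, hz.2, w, hw.2, hz.1, hw.1, hzw⟩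
      have hg := hAlt a z w ha hz hw (Ne.symm hza) (Ne.symm hwa) hzw
      set g : K := ⟨_, hg⟩ with hgdef
      have e1 : g • a = z := by
        change (Equiv.swap a w * Equiv.swap a z) a = z
        rw [Equiv.Perm.mul_apply, Equiv.swap_apply_left,
          Equiv.swap_apply_of_ne_of_ne hza hzw]
      have e2 : g • y = y := by
        change (Equiv.swap a w * Equiv.swap a z) y = y
        have hya : y ≠ a := fun h => hyL (h ▸ ha)
        have hyz : y ≠ z := fun h => hyL (h ▸ hz)
        have hyw : y ≠ w := fun h => hyL (h ▸ hw)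
        rw [Equiv.Perm.mul_apply, Equiv.swap_apply_of_ne_of_ne hya hyz,
          Equiv.swap_apply_of_ne_of_ne hya hyw]
      have e3 : g • B = B := hB.smul_eq_of_mem hyB (by rw [e2]; exact hyB)
      have : z ∈ B := by
        rw [← e3, ← e1]; exact Set.smul_mem_smul_set haB
      exact hza (honly z this hz)
  -- three cycle
  have hA : alternatingGroup (Fin d) ≤ K := by
    obtain ⟨a, b, c, ha, hb, hc, hab, hac, hbc⟩ : ∃ a b c, a ∈ L ∧ b ∈ L ∧ c ∈ L ∧ a ≠ b ∧ a ≠ c ∧ b ≠ c := by
      obtain ⟨a, b, c, h⟩ := Finset.two_lt_card_iff.1 (show 2 < L.card by omega)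
      exact ⟨a, b, c, h.1, h.2.1, h.2.2.1, h.2.2.2.1, h.2.2.2.2.1, h.2.2.2.2.2⟩
    exact alternatingGroup_le_of_isPreprimitive_of_isThreeCycle_mem hprim
      (isThreeCycle_swap_mul_swap_same (a := a) (b := c) (c := b) hac hab (Ne.symm hbc)) (hAlt a b c ha hb hc hab hac hbc)
  -- the orbit is everything
  have horb : orbit K s = Set.univ := by
    rw [Set.eq_univ_iff_forall]
    intro t
    have := Set.powersetCard.isPretransitive (α := Fin d) (n := m)
    obtain ⟨g, hg⟩ := MulAction.exists_smul_eq (Equiv.Perm (Fin d)) s t
    rcases Int.units_eq_one_or (Equiv.Perm.sign g) with h1 | h1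
    · exact ⟨⟨g, hA (Equiv.Perm.mem_alternatingGroup.2 h1)⟩, hg⟩
    · obtain ⟨a, ha, b, hb, hab⟩ := Finset.one_lt_card.1
        (show 1 < (s : Finset (Fin d)).card by rw [Set.powersetCard.card_eq]; omega)
      have hsw : Equiv.swap a b ∈ St := by
        rw [hSt, mem_stab_iff]
        intro x
        by_cases hxa : x = a
        · subst hxa; simp [ha, hb]
        by_cases hxb : x = b
        · subst hxb; simp [ha, hb]
        rw [Equiv.swap_apply_of_ne_of_ne hxa hxb]
      refine ⟨⟨g * Equiv.swap a b, hA ?_⟩, ?_⟩
      · rw [Equiv.Perm.mem_alternatingGroup, Equiv.Perm.sign_mul, h1, Equiv.Perm.sign_swap hab]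
        simp
      · change (g * Equiv.swap a b) • s = t
        rw [mul_smul, mem_stabilizer_iff.1 hsw, hg]
  have hcard : Nat.card (orbit K s) = d.choose m := by
    rw [horb]
    rw [Nat.card_congr (Equiv.Set.univ _), Set.powersetCard.card]
    simp
  rw [hcard] at hs
  have := choose_ge_of_mid d m h2 hm
  have := two_choose_ge hd
  omega

end Lib_helper64.FO
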