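import Pool.Agent.Lib_helper64.FO.Flags
import Pool.Agent.Lib_helper64.FO.Grp

namespace Lib_helper64.FO

open MulAction

theorem flag_eq_of_subset {P : Type*} [PartialOrder P] (Φ Ψ : Flag P) (h : ∀ x ∈ Φ, x ∈ Ψ) :
    Φ = Ψ := by
  apply SetLike.coe_injective
  exact (Φ.maxChain.2 Ψ.chain_le h)

/-- A lower set of `Fin n` is an initial segment. -/
theorem lower_eq {n : ℕ} (A : Finset (Fin n)) (h : ∀ a b, b ∈ A → a ≤ b → a ∈ A) :
    A = Finset.univ.filter (fun i : Fin n => (i : ℕ) < A.card) := by
  ext i
  simp only [Finset.mem_filter, Finset.mem_univ, true_and]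
  constructor
  · intro hi
    have : (Finset.Iic i) ⊆ A := fun a ha => h a i hi (Finset.mem_Iic.1 ha)
    have := Finset.card_le_card this
    rw [Fin.card_Iic] at this
    omega
  · intro hi
    by_contra hni
    have : A ⊆ Finset.Iio i := by
      intro a ha
      rw [Finset.mem_Iio]
      by_contra hcon
      exact hni (h i a ha (not_lt.1 hcon))
    have := Finset.card_le_card this
    rw [Fin.card_Iio] at this
    omega

theorem card_init {n j : ℕ} (hj : j ≤ n) :
    (Finset.univ.filter (fun i : Fin n => (i : ℕ) < j)).card = j := by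
  rcases Nat.eq_zero_or_pos n with rfl | hn
  · simp; omega
  · have : (Finset.univ.filter (fun i : Fin n => (i : ℕ) < j)) =
        (Finset.range j).attachFin (fun k hk => by rw [Finset.mem_range] at hk; omega) := by
      ext i; simp
    rw [this, Finset.card_attachFin, Finset.card_range]

/-- Ordering the coordinates by the time of their appearance in a chain. -/
theorem exists_sort {n : ℕ} {P : Type*} [Finite P] (C : Set P)
    (supp : P → Finset (Fin n))
    (hC : ∀ x ∈ C, ∀ y ∈ C, supp x ⊆ supp y ∨ supp y ⊆ supp x) :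
    ∃ σ : Equiv.Perm (Fin n), ∀ x ∈ C,
      (supp x).map σ.symm.toEmbedding = Finset.univ.filter (fun i : Fin n => (i : ℕ) < (supp x).card) := by
  classical
  have := Fintype.ofFinite P
  let key : Fin n → ℕ := fun i => (Finset.univ.filter (fun x : P => x ∈ C ∧ i ∉ supp x)).card
  have hkey : ∀ x ∈ C, ∀ i j, i ∈ supp x → key j ≤ key i → j ∈ supp x := by
    intro x hx i j hi hji
    by_contra hj
    have : (Finset.univ.filter (fun y : P => y ∈ C ∧ i ∉ supp y)) ⊂
        (Finset.univ.filter (fun y : P => y ∈ C ∧ j ∉ supp y)) := by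
      rw [Finset.ssubset_iff_of_subset]
      · refine ⟨x, ?_, ?_⟩
        · simp [hx, hj]
        · simp [hi]
      · intro y hy
        simp only [Finset.mem_filter, Finset.mem_univ, true_and] at hy ⊢
        refine ⟨hy.1, fun hjy => ?_⟩
        rcases hC x hx y hy.1 with h | h
        · exact hy.2 (h hi)
        · exact hj (h hjy)
    have := Finset.card_lt_card this
    change key i < key j at this
    omega
  refine ⟨Tuple.sort key, fun x hx => ?_⟩
  have hmono := Tuple.monotone_sort key
  have h1 := lower_eq ((supp x).map (Tuple.sort key).symm.toEmbedding) (by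
    intro a b hb hab
    rw [Finset.mem_map_equiv, Equiv.symm_symm] at hb ⊢
    exact hkey x hx _ _ hb (hmono hab))
  rw [Finset.card_map] at h1
  exact h1

/-! ### The simplex -/

/-- The action of a permutation of the vertices on the faces of the simplex. -/
def actS (n : ℕ) : Equiv.Perm (Fin n) →* (Finset (Fin n) ≃o Finset (Fin n)) where
  toFun σ :=
    { toEquiv := σ.finsetCongr
      map_rel_iff' := by
        intro a b
        simp [Equiv.finsetCongr] }
  map_one' := by ext s x; simp [Equiv.finsetCongr]; exact Iff.rfl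
  map_mul' σ τ := by
    ext s x
    simp [Equiv.finsetCongr]; exact Iff.rfl

theorem actS_apply {n : ℕ} (σ : Equiv.Perm (Fin n)) (s : Finset (Fin n)) :
    actS n σ s = s.map σ.toEmbedding := rfl

/-- initial segments -/
def initS (n j : ℕ) : Finset (Fin n) := Finset.univ.filter (fun i : Fin n => (i : ℕ) < j)

/-- The base flag of the simplex. -/
def baseS (n : ℕ) : Flag (Finset (Fin n)) where
  carrier := {S | ∃ j ≤ n, S = initS n j}
  Chain' := by
    rintro _ ⟨j, hj, rfl⟩ _ ⟨k, hk, rfl⟩ _
    rcases le_total j k with h | h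
    · left; intro i; simp only [initS, Finset.mem_filter, Finset.mem_univ, true_and]; omega
    · right; intro i; simp only [initS, Finset.mem_filter, Finset.mem_univ, true_and]; omega
  max_chain' := by
    have := maxChain_of_ranks (P := Finset (Fin n)) (fun S => (S.card : ℤ))
      (fun x y h => by exact_mod_cast Finset.card_lt_card h) {S | ∃ j ≤ n, S = initS n j}
      (by
        rintro _ ⟨j, hj, rfl⟩ _ ⟨k, hk, rfl⟩ _
        rcases le_total j k with h | h
        · left; intro i; simp only [initS, Finset.mem_filter, Finset.mem_univ, true_and]; omega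
        · right; intro i; simp only [initS, Finset.mem_filter, Finset.mem_univ, true_and]; omega)
      (by
        intro x
        refine ⟨initS n x.card, ⟨x.card, by simpa using Finset.card_le_univ x, rfl⟩, ?_⟩
        rw [initS, card_init (by simpa using Finset.card_le_univ x)])
    intro s hs h
    exact this.2 hs h

theorem baseS_free {n : ℕ} (γ : Finset (Fin n) ≃o Finset (Fin n)) (h : γ • baseS n = baseS n) :
    γ = 1 := by
  have hfix := fix_of_smul_flag_eq (baseS n) γ h
  have hI : ∀ j ≤ n, γ (initS n j) = initS n j := fun j hj => hfix _ ⟨j, hj, rfl⟩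
  have hatom : ∀ i : Fin n, γ {i} = {i} := by
    intro i
    have h1 : IsAtom (γ {i}) := (OrderIso.isAtom_iff γ {i}).2 (Finset.isAtom_singleton i)
    obtain ⟨j, hj⟩ := Finset.isAtom_iff.1 h1
    have h2 : γ {i} ≤ initS n (i + 1) := by
      rw [← hI (i + 1) (by omega), γ.le_iff_le]
      intro k hk
      rw [Finset.mem_singleton] at hk
      subst hk
      simp [initS]
    have h3 : ¬ γ {i} ≤ initS n i := by
      rw [← hI i (by omega), γ.le_iff_le]
      intro hk
      have := hk (Finset.mem_singleton_self i)
      simp [initS] at this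
    rw [hj] at h2 h3 ⊢
    have h4 : (j : ℕ) < i + 1 := by
      have := h2 (Finset.mem_singleton_self j)
      simpa [initS] using this
    have h5 : ¬ (j : ℕ) < i := by
      intro hlt
      apply h3
      intro k hk
      rw [Finset.mem_singleton] at hk
      subst hk
      simpa [initS] using hlt
    have : j = i := Fin.ext (by omega)
    rw [this]
  ext S x
  rw [show x ∈ γ S ↔ ({x} : Finset (Fin n)) ≤ γ S from by simp]
  rw [← hatom x, γ.le_iff_le]
  simp

theorem baseS_trans {n : ℕ} (Φ : Flag (Finset (Fin n))) :
    ∃ σ : Equiv.Perm (Fin n), actS n σ • baseS n = Φ := by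
  obtain ⟨σ, hσ⟩ := exists_sort (Φ : Set (Finset (Fin n))) (fun S => S) (by
    intro x hx y hy
    exact Φ.le_or_le hx hy)
  refine ⟨σ, (flag_eq_of_subset _ _ ?_).symm⟩
  intro S hS
  change S ∈ ((actS n σ • baseS n : Flag (Finset (Fin n))) : Set (Finset (Fin n)))
  rw [Flag.coe_smul]
  refine ⟨initS n S.card, ⟨S.card, by simpa using Finset.card_le_univ S, rfl⟩, ?_⟩
  change (actS n σ) (initS n S.card) = S
  rw [actS_apply, initS, ← hσ S hS, Finset.map_map]
  ext x
  simp

theorem flagOrbits_simplex {d : ℕ} (f : Finset (Fin (d + 1)) → E d) :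
    flagOrbits rkSimplex f = ((symGroup rkSimplex f).comap (actS (d + 1))).index := by
  have h1 : flagOrbits rkSimplex f = (symGroup rkSimplex f).index := by
    refine card_orbits_eq_index (baseS (d + 1)) ?_ (fun g hg => baseS_free g hg) _
    intro Φ
    obtain ⟨σ, hσ⟩ := baseS_trans Φ
    exact ⟨_, hσ⟩
  rw [h1]
  refine (Subgroup.index_comap_of_surjective _ ?_).symm
  intro γ
  obtain ⟨σ, hσ⟩ := baseS_trans (γ • baseS (d + 1))
  refine ⟨σ, ?_⟩
  have : ((actS (d + 1) σ)⁻¹ * γ) • baseS (d + 1) = baseS (d + 1) := by
    rw [mul_smul, ← hσ, inv_smul_smul]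
  exact inv_mul_eq_one.1 (baseS_free _ this)

end Lib_helper64.FO
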