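import Pool.Agent.Lib_helper64.FO.SimplexThm

namespace Lib_helper64.FO

open Subgroup

/-- in a subgroup of index at most three, squares of elements of order dividing four lie -/
theorem sq_mem_of_index_le_three {G : Type*} [Group G] [Finite G] (H : Subgroup G)
    (hH : H.index ≤ 3) (c : G) (hc : c ^ 4 = 1) : c ^ 2 ∈ H := by
  classical
  have hq : Fintype (G ⧸ H) := Fintype.ofFinite _
  have hcard : Fintype.card (G ⧸ H) < Fintype.card (Fin 4) := by
    rw [Fintype.card_fin, ← Nat.card_eq_fintype_card, ← Subgroup.index_eq_card]; omega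
  obtain ⟨i, j, hij, he⟩ := Fintype.exists_ne_map_eq_of_card_lt
    (fun i : Fin 4 => ((c ^ (i : ℕ) : G) : G ⧸ H)) hcard
  have key : ∀ i j : Fin 4, i < j → ((c ^ (i : ℕ) : G) : G ⧸ H) = ((c ^ (j : ℕ) : G) : G ⧸ H) →
      c ^ 2 ∈ H := by
    intro i j hlt h
    rw [QuotientGroup.eq] at h
    have h1 : (c ^ (i : ℕ))⁻¹ * c ^ (j : ℕ) = c ^ ((j : ℕ) - (i : ℕ)) := by
      rw [inv_mul_eq_iff_eq_mul, ← pow_add]
      congr 1
      have : (i : ℕ) < j := hlt
      omega
    rw [h1] at h
    have h2 : (j : ℕ) - (i : ℕ) = 1 ∨ (j : ℕ) - (i : ℕ) = 2 ∨ (j : ℕ) - (i : ℕ) = 3 := by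
      have : (i : ℕ) < j := hlt
      omega
    rcases h2 with h2 | h2 | h2
    · rw [h2, pow_one] at h; exact H.pow_mem h 2
    · rw [h2] at h; exact h
    · rw [h2] at h
      have h3 : c = (c ^ 3)⁻¹ := by
        rw [eq_inv_iff_mul_eq_one, ← pow_succ']; exact hc
      rw [h3]
      exact H.pow_mem (H.inv_mem h) 2
  rcases lt_or_gt_of_ne hij with h | h
  · exact key i j h he
  · exact key j i h he.symm

theorem simplex_const_of_alt {d : ℕ} (f : Finset (Fin (d + 1)) → E d)
    (hA : alternatingGroup (Fin (d + 1)) ≤ (symGroup rkSimplex f).comap (actS (d + 1)))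
    {i j k l : Fin (d + 1)} (hij : i ≠ j) (hkl : k ≠ l) :
    dist (f {i}) (f {j}) = dist (f {k}) (f {l}) := by
  obtain ⟨σ, hσ, ⟨h1, h2⟩ | ⟨h1, h2⟩⟩ := exists_alt_unordered hij hkl
  · obtain ⟨T, hT⟩ := (mem_symGroup_simplex f σ).1 (hA hσ)
    rw [← h1, ← h2, ← hT, ← hT, T.isometry.dist_eq]
  · obtain ⟨T, hT⟩ := (mem_symGroup_simplex f σ).1 (hA hσ)
    rw [dist_comm (f {k}), ← h1, ← h2, ← hT, ← hT, T.isometry.dist_eq]

theorem simplex_orbits_one {d : ℕ} (f : Finset (Fin (d + 1)) → E d)
    (h : ∃ s : ℝ, ∀ i j, i ≠ j → dist (f {i}) (f {j}) = s) : flagOrbits rkSimplex f = 1 := by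
  obtain ⟨s, hf⟩ := h
  rw [flagOrbits_simplex, Subgroup.index_eq_one, eq_top_iff]
  intro σ _
  rw [mem_symGroup_simplex]
  apply exists_isometry (fun i => f {i}) (fun i => f {σ i})
  intro i j
  by_cases hij : i = j
  · subst hij; simp
  · rw [hf i j hij, hf (σ i) (σ j) (fun h => hij (σ.injective h))]

theorem simplex_faithful {d : ℕ} (f : Finset (Fin (d + 1)) → E d)
    (hf : ∀ i j, i ≠ j → f {i} ≠ f {j}) : Faithful rkSimplex f := by
  classical
  apply faithful_of_injective
  · intro F G hF hG h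
    have hc : F.card = 1 := by unfold rkSimplex at hF; omega
    have hc' : G.card = 1 := by unfold rkSimplex at hG; omega
    obtain ⟨i, rfl⟩ := Finset.card_eq_one.1 hc
    obtain ⟨j, rfl⟩ := Finset.card_eq_one.1 hc'
    by_contra hne
    exact hf i j (fun h => hne (by rw [h])) h
  · intro m F G hF hG h1 h2
    have key : ∀ F G : Finset (Fin (d + 1)), rkSimplex F = (m : ℤ) + 1 →
        (∀ K, rkSimplex K = (m : ℤ) → K ≤ F → K ≤ G) → F ≤ G := by
      intro F G hF h x hx
      have hc : F.card = m + 2 := by unfold rkSimplex at hF; omega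
      obtain ⟨K, hK1, hK2, hK3⟩ := Finset.exists_subsuperset_card_eq
        (Finset.singleton_subset_iff.2 hx) (n := m + 1) (by simp) (by omega)
      exact h K (by unfold rkSimplex; rw [hK3]; push_cast; ring) hK2
        (hK1 (Finset.mem_singleton_self x))
    exact le_antisymm (key F G hF h1) (key G F hG h2)

theorem disph_centralizer : ∀ σ : Equiv.Perm (Fin 4),
    (∀ i j : Fin 4, ((i : ℕ) / 2 = (j : ℕ) / 2 ↔ ((σ i : Fin 4) : ℕ) / 2 = ((σ j : Fin 4) : ℕ) / 2)) ↔
      (Equiv.swap 0 1 * Equiv.swap 2 3) * σ = σ * (Equiv.swap 0 1 * Equiv.swap 2 3) := by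
  decide

theorem disph_index : (Subgroup.centralizer
    ({Equiv.swap 0 1 * Equiv.swap 2 3} : Set (Equiv.Perm (Fin 4)))).index = 3 := by
  have h1 := (Subgroup.centralizer
    ({Equiv.swap 0 1 * Equiv.swap 2 3} : Set (Equiv.Perm (Fin 4)))).card_mul_index
  have h2 : Nat.card (Equiv.Perm (Fin 4)) = 24 := by rw [Nat.card_perm]; simp [Nat.factorial]
  have h3 : Nat.card (Subgroup.centralizer
      ({Equiv.swap 0 1 * Equiv.swap 2 3} : Set (Equiv.Perm (Fin 4)))) = 8 := by
    have e : (Subgroup.centralizer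
      ({Equiv.swap 0 1 * Equiv.swap 2 3} : Set (Equiv.Perm (Fin 4)))) ≃
      {σ : Equiv.Perm (Fin 4) // (Equiv.swap 0 1 * Equiv.swap 2 3) * σ =
        σ * (Equiv.swap 0 1 * Equiv.swap 2 3)} :=
      Equiv.subtypeEquivRight (fun σ => by
        rw [Subgroup.mem_centralizer_iff]
        simp)
    rw [Nat.card_congr e, Nat.card_eq_fintype_card]
    decide
  rw [h2, h3] at h1
  omega

/-- distances in a disphenoid -/
theorem Disphenoid.dist_eq {d : ℕ} {f : Finset (Fin (d + 1)) → E d} (e : Fin 4 ≃ Fin (d + 1))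
    {s t : ℝ}
    (h01 : dist (f {e 0}) (f {e 1}) = s) (h23 : dist (f {e 2}) (f {e 3}) = s)
    (h02 : dist (f {e 0}) (f {e 2}) = t) (h03 : dist (f {e 0}) (f {e 3}) = t)
    (h12 : dist (f {e 1}) (f {e 2}) = t) (h13 : dist (f {e 1}) (f {e 3}) = t) (i j : Fin 4)
    (hij : i ≠ j) :
    dist (f {e i}) (f {e j}) = if (i : ℕ) / 2 = (j : ℕ) / 2 then s else t := by
  have h10 := (dist_comm (f {e 1}) (f {e 0})).trans h01
  have h32 := (dist_comm (f {e 3}) (f {e 2})).trans h23
  have h20 := (dist_comm (f {e 2}) (f {e 0})).trans h02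
  have h30 := (dist_comm (f {e 3}) (f {e 0})).trans h03
  have h21 := (dist_comm (f {e 2}) (f {e 1})).trans h12
  have h31 := (dist_comm (f {e 3}) (f {e 1})).trans h13
  fin_cases i <;> fin_cases j <;>
    first
      | exact absurd rfl hij
      | simpa using h01
      | simpa using h23
      | simpa using h02
      | simpa using h03
      | simpa using h12
      | simpa using h13
      | simpa using h10
      | simpa using h32
      | simpa using h20
      | simpa using h30
      | simpa using h21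
      | simpa using h31

theorem simplex_orbits_three {d : ℕ} (f : Finset (Fin (d + 1)) → E d) (e : Fin 4 ≃ Fin (d + 1))
    {s t : ℝ} (hst : s ≠ t)
    (hD : ∀ i j : Fin 4, i ≠ j → dist (f {e i}) (f {e j}) = if (i : ℕ) / 2 = (j : ℕ) / 2 then s else t) :
    flagOrbits rkSimplex f = 3 := by
  classical
  rw [flagOrbits_simplex, ← disph_index]
  -- transport by e
  let ψ : Equiv.Perm (Fin 4) ≃* Equiv.Perm (Fin (d + 1)) :=
    { toEquiv := e.permCongr
      map_mul' := fun a b => by ext i; simp [Equiv.permCongr_apply] }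
  rw [← Subgroup.index_comap_of_surjective _ (f := (ψ : Equiv.Perm (Fin 4) →* _)) ψ.surjective]
  congr 1
  ext σ
  rw [mem_comap, mem_symGroup_simplex, mem_centralizer_iff]
  have hc : (∀ h ∈ ({Equiv.swap 0 1 * Equiv.swap 2 3} : Set (Equiv.Perm (Fin 4))), h * σ = σ * h) ↔
      (Equiv.swap 0 1 * Equiv.swap 2 3) * σ = σ * (Equiv.swap 0 1 * Equiv.swap 2 3) := by simp
  rw [hc, ← disph_centralizer]
  have hψ : ∀ i, (ψ σ) (e i) = e (σ i) := by
    intro i
    change e.permCongr σ (e i) = e (σ i)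
    rw [Equiv.permCongr_apply, Equiv.symm_apply_apply]
  constructor
  · rintro ⟨T, hT⟩ i j
    by_cases hij : i = j
    · subst hij; simp
    have h1 := hD i j hij
    have h2 := hD (σ i) (σ j) (fun h => hij (σ.injective h))
    have h3 : dist (f {e i}) (f {e j}) = dist (f {e (σ i)}) (f {e (σ j)}) := by
      rw [← hψ, ← hψ]
      have hT' : ∀ i, T (f {i}) = f {ψ σ i} := hT
      rw [← hT', ← hT', T.isometry.dist_eq]
    rw [h1, h2] at h3
    by_cases c1 : (i : ℕ) / 2 = (j : ℕ) / 2 <;>
      by_cases c2 : ((σ i : Fin 4) : ℕ) / 2 = ((σ j : Fin 4) : ℕ) / 2 <;> simp_all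
  · intro h
    obtain ⟨T, hT⟩ := exists_isometry (fun i => f {i}) (fun i => f {ψ σ i}) (by
      intro a b
      obtain ⟨i, rfl⟩ := e.surjective a
      obtain ⟨j, rfl⟩ := e.surjective b
      by_cases hij : i = j
      · subst hij; simp
      rw [hψ, hψ, hD i j hij, hD (σ i) (σ j) (fun h => hij (σ.injective h))]
      by_cases c1 : (i : ℕ) / 2 = (j : ℕ) / 2
      · rw [if_pos c1, if_pos ((h i j).1 c1)]
      · rw [if_neg c1, if_neg (fun h' => c1 ((h i j).2 h'))])
    exact ⟨T, hT⟩

theorem exists_four {v : Equiv.Perm (Fin 4)} (hv : v = Equiv.swap 0 1 * Equiv.swap 2 3 ∨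
    v = Equiv.swap 0 2 * Equiv.swap 1 3 ∨ v = Equiv.swap 0 3 * Equiv.swap 1 2) :
    ∃ c : Equiv.Perm (Fin 4), c ^ 4 = 1 ∧ c ^ 2 = v := by
  rcases hv with rfl | rfl | rfl
  · exact ⟨Equiv.swap 0 3 * Equiv.swap 0 1 * Equiv.swap 0 2, by decide, by decide⟩
  · exact ⟨Equiv.swap 0 3 * Equiv.swap 0 2 * Equiv.swap 0 1, by decide, by decide⟩
  · exact ⟨Equiv.swap 0 2 * Equiv.swap 0 3 * Equiv.swap 0 1, by decide, by decide⟩

/-- A subgroup of index three of `Sym(4)` identifies two of the three pairings. -/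
theorem exists_disph (D : Fin 4 → Fin 4 → ℝ) (hsymm : ∀ i j, D i j = D j i)
    (H : Subgroup (Equiv.Perm (Fin 4))) (hH : H.index ≤ 3)
    (hinv : ∀ σ ∈ H, ∀ i j, D (σ i) (σ j) = D i j) :
    ∃ e : Equiv.Perm (Fin 4), D (e 2) (e 3) = D (e 0) (e 1) ∧ D (e 0) (e 3) = D (e 0) (e 2) ∧
      D (e 1) (e 2) = D (e 0) (e 2) ∧ D (e 1) (e 3) = D (e 0) (e 2) := by
  classical
  have hV : ∀ v : Equiv.Perm (Fin 4), (v = Equiv.swap 0 1 * Equiv.swap 2 3 ∨
    v = Equiv.swap 0 2 * Equiv.swap 1 3 ∨ v = Equiv.swap 0 3 * Equiv.swap 1 2) → v ∈ H := by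
    intro v hv
    obtain ⟨c, h1, h2⟩ := exists_four hv
    rw [← h2]
    exact sq_mem_of_index_le_three H hH c h1
  have v1 := hV _ (Or.inl rfl)
  have v2 := hV _ (Or.inr (Or.inl rfl))
  have v3 := hV _ (Or.inr (Or.inr rfl))
  have a1 : D 2 3 = D 0 1 := hinv _ v2 0 1
  have a2 : D 1 3 = D 0 2 := hinv _ v1 0 2
  have a3 : D 1 2 = D 0 3 := by
    have := hinv _ v1 0 3
    exact this
  -- an element of H fixing 0 and moving something else
  obtain ⟨h, hh, h0, i, hi0, hi⟩ : ∃ h ∈ H, h 0 = 0 ∧ ∃ i : Fin 4, i ≠ 0 ∧ h i ≠ i := by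
    by_contra hcon
    push Not at hcon
    -- then H has at most four elements
    have hinj : Function.Injective (fun h : H => (h : Equiv.Perm (Fin 4)) 0) := by
      intro g h hgh
      have h1 : ((h : Equiv.Perm (Fin 4))⁻¹ * g) ∈ H := H.mul_mem (H.inv_mem h.2) g.2
      have h2 : ((h : Equiv.Perm (Fin 4))⁻¹ * g) 0 = 0 := by
        rw [Equiv.Perm.mul_apply]
        change (h : Equiv.Perm (Fin 4)).symm ((g : Equiv.Perm (Fin 4)) 0) = 0
        rw [Equiv.symm_apply_eq]; exact hgh
      have h3 : ((h : Equiv.Perm (Fin 4))⁻¹ * g) = 1 := by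
        ext i : 1
        by_cases hi : i = 0
        · rw [hi, h2]; rfl
        · rw [hcon _ h1 h2 i hi]; rfl
      exact Subtype.ext (inv_mul_eq_one.1 h3).symm
    have h4 := Nat.card_le_card_of_injective _ hinj
    have h5 := H.card_mul_index
    rw [Nat.card_perm] at h5
    have h6 : Nat.card (Fin 4) = 4 := by simp
    rw [h6] at h4 h5
    have h7 : Nat.factorial 4 = 24 := rfl
    rw [h7] at h5
    have : Nat.card H * H.index ≤ 4 * 3 := Nat.mul_le_mul h4 hH
    omega
  have hj0 : h i ≠ 0 := fun h' => hi0 (h.injective (h'.trans h0.symm))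
  have hrel : D 0 (h i) = D 0 i := by
    have := hinv h hh 0 i
    rwa [h0] at this
  generalize h i = j at *
  have s10 := hsymm 1 0
  have s20 := hsymm 2 0
  have s30 := hsymm 3 0
  have s21 := hsymm 2 1
  have s31 := hsymm 3 1
  have s32 := hsymm 3 2
  -- choose the third point
  have hcase : (D 0 1 = D 0 2) ∨ (D 0 1 = D 0 3) ∨ (D 0 2 = D 0 3) := by
    fin_cases i <;> fin_cases j <;>
      first
        | exact absurd rfl hi0
        | exact absurd rfl hj0
        | exact absurd rfl hi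
        | exact Or.inl hrel
        | exact Or.inl hrel.symm
        | exact Or.inr (Or.inl hrel)
        | exact Or.inr (Or.inl hrel.symm)
        | exact Or.inr (Or.inr hrel)
        | exact Or.inr (Or.inr hrel.symm)
  rcases hcase with hc | hc | hc
  · -- special pair 0,3
    refine ⟨Equiv.swap 1 3, ?_, ?_, ?_, ?_⟩
    · change D 2 1 = D 0 3; rw [s21, a3]
    · change D 0 1 = D 0 2; exact hc
    · change D 3 2 = D 0 2; rw [s32, a1, hc]
    · change D 3 1 = D 0 2; rw [s31, a2]
  · refine ⟨Equiv.swap 1 2, ?_, ?_, ?_, ?_⟩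
    · change D 1 3 = D 0 2; exact a2
    · change D 0 3 = D 0 1; exact hc.symm
    · change D 2 1 = D 0 1; rw [s21, a3, hc]
    · change D 2 3 = D 0 1; exact a1
  · refine ⟨1, ?_, ?_, ?_, ?_⟩
    · change D 2 3 = D 0 1; exact a1
    · change D 0 3 = D 0 2; exact hc.symm
    · change D 1 2 = D 0 2; rw [a3, hc]
    · change D 1 3 = D 0 2; exact a2

/-- Classification for the simplex, all dimensions. -/
theorem simplex_class_all {d : ℕ} (hd : 1 ≤ d) (f : Finset (Fin (d + 1)) → E d) (k : ℕ)
    (hk : k ≤ d) : IsOrbitRealization rkSimplex f k ↔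
      (k = 1 ∧ ∃ s : ℝ, 0 < s ∧ ∀ i j, i ≠ j → dist (f {i}) (f {j}) = s) ∨
      (k = 3 ∧ Disphenoid f) := by
  classical
  constructor
  · rintro ⟨hfa, hfo⟩
    have hinj : ∀ i j : Fin (d + 1), i ≠ j → f {i} ≠ f {j} := by
      intro i j hij h
      have := hfa 0 {i} {j} (by simp [rkSimplex]) (by simp [rkSimplex]) h
      exact hij (Finset.singleton_injective this)
    have hconst : (∀ i j k l : Fin (d + 1), i ≠ j → k ≠ l →
        dist (f {i}) (f {j}) = dist (f {k}) (f {l})) →
        (k = 1 ∧ ∃ s : ℝ, 0 < s ∧ ∀ i j, i ≠ j → dist (f {i}) (f {j}) = s) := by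
      intro h
      have h01 : (0 : Fin (d + 1)) ≠ Fin.last d := by
        intro h
        have := congrArg Fin.val h
        simp at this
        omega
      have hs : ∃ s : ℝ, 0 < s ∧ ∀ i j, i ≠ j → dist (f {i}) (f {j}) = s :=
        ⟨dist (f {0}) (f {Fin.last d}), dist_pos.2 (hinj _ _ h01), fun i j hij => h i j _ _ hij h01⟩
      refine ⟨?_, hs⟩
      obtain ⟨s, _, h2⟩ := hs
      rw [← hfo, simplex_orbits_one f ⟨s, h2⟩]
    set H := (symGroup rkSimplex f).comap (actS (d + 1)) with hH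
    have hHi : H.index ≤ d := by rw [hH, ← flagOrbits_simplex, hfo]; exact hk
    have hd' : d = 1 ∨ d = 2 ∨ d = 3 ∨ 4 ≤ d := by omega
    have hsmall : H.index ≤ 2 → (k = 1 ∧ ∃ s : ℝ, 0 < s ∧ ∀ i j, i ≠ j → dist (f {i}) (f {j}) = s) := by
      intro h2
      exact hconst (fun i j k l hij hkl => simplex_const_of_alt f
        (Equiv.Perm.alternatingGroup_le_of_index_le_two h2) hij hkl)
    rcases hd' with h | h | h | h
    · left; exact hsmall (by omega)
    · left; exact hsmall (by omega)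
    · subst h
      by_cases h2 : H.index ≤ 2
      · left; exact hsmall h2
      · right
        obtain ⟨e, h1, h3, h4, h5⟩ := exists_disph (fun i j => dist (f {i}) (f {j}))
          (fun i j => dist_comm _ _) H hHi (by
            intro σ hσ i j
            obtain ⟨T, hT⟩ := (mem_symGroup_simplex f σ).1 hσ
            rw [← hT, ← hT, T.isometry.dist_eq])
        have hH3 : H.index = 3 := by omega
        refine ⟨by rw [← hfo, flagOrbits_simplex]; exact hH3, e, _, _, ?_, ?_, ?_, rfl, h1, rfl, h3,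
          h4, h5⟩
        · exact dist_pos.2 (hinj _ _ (fun h => by have := e.injective h; exact absurd this (by decide)))
        · exact dist_pos.2 (hinj _ _ (fun h => by have := e.injective h; exact absurd this (by decide)))
        · intro hst
          have hD := Disphenoid.dist_eq (f := f) e rfl h1 rfl h3 h4 h5
          have : flagOrbits rkSimplex f = 1 := by
            apply simplex_orbits_one
            refine ⟨dist (f {e 0}) (f {e 2}), ?_⟩
            intro i j hij
            obtain ⟨i, rfl⟩ := e.surjective i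
            obtain ⟨j, rfl⟩ := e.surjective j
            rw [hD i j (fun h => hij (by rw [h]))]
            split_ifs
            · exact hst
            · rfl
          rw [flagOrbits_simplex] at this
          exact h2 (by rw [hH, this]; norm_num)
    · left
      have hlt : H.index < Fintype.card (Fin (d + 1)) := by rw [Fintype.card_fin]; omega
      have hA := alt_le_of_index_lt (by rw [Fintype.card_fin]; omega) _ hlt
      exact hconst (fun i j k l hij hkl => simplex_const_of_alt f hA hij hkl)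
  · rintro (⟨rfl, s, hs, hf⟩ | ⟨rfl, e, s, t, hs, ht, hst, h1, h2, h3, h4, h5, h6⟩)
    · refine ⟨simplex_faithful f (fun i j hij h => ?_), simplex_orbits_one f ⟨s, hf⟩⟩
      have := hf i j hij
      rw [h, dist_self] at this
      linarith
    · have hD := Disphenoid.dist_eq (f := f) e h1 h2 h3 h4 h5 h6
      refine ⟨simplex_faithful f (fun i j hij h => ?_), simplex_orbits_three f e hst hD⟩
      obtain ⟨i, rfl⟩ := e.surjective i
      obtain ⟨j, rfl⟩ := e.surjective j
      have := hD i j (fun h => hij (by rw [h]))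
      rw [h, dist_self] at this
      split_ifs at this <;> linarith

end Lib_helper64.FO
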