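import Pool.Agent.Lib_helper64.FO.Simplex
import Pool.Agent.Lib_helper64.FO.Ext

namespace Lib_helper64.FO

open MulAction

theorem faithful_of_injective {P : Type} [PartialOrder P] {d : ℕ} (rk : P → ℤ) (f : P → E d)
    (hinj : ∀ F G : P, rk F = 0 → rk G = 0 → f F = f G → F = G)
    (hst : ∀ (m : ℕ) (F G : P), rk F = (m : ℤ) + 1 → rk G = (m : ℤ) + 1 →
      (∀ K, rk K = (m : ℤ) → K ≤ F → K ≤ G) → (∀ K, rk K = (m : ℤ) → K ≤ G → K ≤ F) → F = G) :
    Faithful rk f := by
  intro m
  induction m with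
  | zero =>
    intro F G hF hG h
    exact hinj F G (by simpa using hF) (by simpa using hG) h
  | succ m ih =>
    intro F G hF hG h
    have key : ∀ F G : P, faceImg rk f (m + 1) F = faceImg rk f (m + 1) G →
        ∀ K, rk K = (m : ℤ) → K ≤ F → K ≤ G := by
      intro F G h K hK hKF
      have h1 : (faceImg rk f m K) ∈ ({x | ∃ G : P, rk G = (m : ℤ) ∧ G ≤ F ∧ faceImg rk f m G = x} :
          Set (FaceImg d m)) := ⟨K, hK, hKF, rfl⟩
      have h2 : ({x | ∃ G : P, rk G = (m : ℤ) ∧ G ≤ F ∧ faceImg rk f m G = x} :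
          Set (FaceImg d m)) = {x | ∃ K : P, rk K = (m : ℤ) ∧ K ≤ G ∧ faceImg rk f m K = x} := h
      rw [h2] at h1
      obtain ⟨K', hK', hKG, he⟩ := h1
      rw [← ih K' K hK' hK he]
      exact hKG
    exact hst m F G (by rw [hF]; push_cast; ring) (by rw [hG]; push_cast; ring) (key F G h)
      (key G F h.symm)

theorem mem_symGroup_simplex {d : ℕ} (f : Finset (Fin (d + 1)) → E d) (σ : Equiv.Perm (Fin (d + 1))) :
    σ ∈ (symGroup rkSimplex f).comap (actS (d + 1)) ↔
      ∃ T : E d ≃ᵢ E d, ∀ i, T (f {i}) = f {σ i} := by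
  rw [Subgroup.mem_comap]
  constructor
  · rintro ⟨_, T, hT⟩
    refine ⟨T, fun i => ?_⟩
    have := hT {i} (by simp [rkSimplex])
    rw [this, actS_apply]
    simp
  · rintro ⟨T, hT⟩
    refine ⟨fun F => ?_, T, ?_⟩
    · simp [rkSimplex, actS_apply]
    · intro v hv
      have hc : v.card = 1 := by
        unfold rkSimplex at hv; omega
      obtain ⟨i, rfl⟩ := Finset.card_eq_one.1 hc
      rw [hT i, actS_apply]
      simp

theorem exists_alt_pair {n : ℕ} (hn : 4 ≤ n) {i j k l : Fin n} (hij : i ≠ j) (hkl : k ≠ l) :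
    ∃ σ ∈ alternatingGroup (Fin n), σ i = k ∧ σ j = l := by
  classical
  obtain ⟨σ, h1, h2⟩ : ∃ σ : Equiv.Perm (Fin n), σ i = k ∧ σ j = l := by
    refine ⟨Equiv.swap (Equiv.swap i k j) l * Equiv.swap i k, ?_, ?_⟩
    · rw [Equiv.Perm.mul_apply, Equiv.swap_apply_left]
      rw [Equiv.swap_apply_of_ne_of_ne _ hkl]
      intro h
      have : Equiv.swap i k i = Equiv.swap i k j := by rw [Equiv.swap_apply_left]; exact h
      exact hij ((Equiv.swap i k).injective this)
    · rw [Equiv.Perm.mul_apply, Equiv.swap_apply_left]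
  rcases Int.units_eq_one_or (Equiv.Perm.sign σ) with hs | hs
  · exact ⟨σ, Equiv.Perm.mem_alternatingGroup.2 hs, h1, h2⟩
  · obtain ⟨a, b, ha, hb, hab⟩ : ∃ a b : Fin n, (a ≠ i ∧ a ≠ j) ∧ (b ≠ i ∧ b ≠ j) ∧ a ≠ b := by
      have : 1 < ((Finset.univ.erase i).erase j).card := by
        rw [Finset.card_erase_of_mem (by simp [Ne.symm hij]), Finset.card_erase_of_mem (by simp)]
        simp; omega
      obtain ⟨a, ha, b, hb, hab⟩ := Finset.one_lt_card.1 this
      simp at ha hb
      exact ⟨a, b, ⟨ha.2, ha.1⟩, ⟨hb.2, hb.1⟩, hab⟩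
    refine ⟨σ * Equiv.swap a b, ?_, ?_, ?_⟩
    · rw [Equiv.Perm.mem_alternatingGroup, Equiv.Perm.sign_mul, hs, Equiv.Perm.sign_swap hab]; simp
    · rw [Equiv.Perm.mul_apply, Equiv.swap_apply_of_ne_of_ne (Ne.symm ha.1) (Ne.symm hb.1), h1]
    · rw [Equiv.Perm.mul_apply, Equiv.swap_apply_of_ne_of_ne (Ne.symm ha.2) (Ne.symm hb.2), h2]

theorem exists_alt_unordered {n : ℕ} {i j k l : Fin n} (hij : i ≠ j) (hkl : k ≠ l) :
    ∃ σ ∈ alternatingGroup (Fin n), (σ i = k ∧ σ j = l) ∨ (σ i = l ∧ σ j = k) := by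
  classical
  obtain ⟨σ, h1, h2⟩ : ∃ σ : Equiv.Perm (Fin n), σ i = k ∧ σ j = l := by
    refine ⟨Equiv.swap (Equiv.swap i k j) l * Equiv.swap i k, ?_, ?_⟩
    · rw [Equiv.Perm.mul_apply, Equiv.swap_apply_left]
      rw [Equiv.swap_apply_of_ne_of_ne _ hkl]
      intro h
      have : Equiv.swap i k i = Equiv.swap i k j := by rw [Equiv.swap_apply_left]; exact h
      exact hij ((Equiv.swap i k).injective this)
    · rw [Equiv.Perm.mul_apply, Equiv.swap_apply_left]
  rcases Int.units_eq_one_or (Equiv.Perm.sign σ) with hs | hs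
  · exact ⟨σ, Equiv.Perm.mem_alternatingGroup.2 hs, Or.inl ⟨h1, h2⟩⟩
  · refine ⟨Equiv.swap k l * σ, ?_, Or.inr ⟨?_, ?_⟩⟩
    · rw [Equiv.Perm.mem_alternatingGroup, Equiv.Perm.sign_mul, hs, Equiv.Perm.sign_swap hkl]; simp
    · rw [Equiv.Perm.mul_apply, h1, Equiv.swap_apply_left]
    · rw [Equiv.Perm.mul_apply, h2, Equiv.swap_apply_right]

/-- Classification for the simplex. -/
theorem simplex_class {d : ℕ} (hd : 4 ≤ d) (f : Finset (Fin (d + 1)) → E d) (k : ℕ) (hk : k ≤ d) :
    IsOrbitRealization rkSimplex f k ↔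
      k = 1 ∧ ∃ s : ℝ, 0 < s ∧ ∀ i j, i ≠ j → dist (f {i}) (f {j}) = s := by
  classical
  have hfull : (∃ s : ℝ, 0 < s ∧ ∀ i j, i ≠ j → dist (f {i}) (f {j}) = s) →
      flagOrbits rkSimplex f = 1 := by
    rintro ⟨s, hs, hf⟩
    rw [flagOrbits_simplex, Subgroup.index_eq_one, eq_top_iff]
    intro σ _
    rw [mem_symGroup_simplex]
    apply exists_isometry (fun i => f {i}) (fun i => f {σ i})
    intro i j
    by_cases hij : i = j
    · subst hij; simp
    · rw [hf i j hij, hf (σ i) (σ j) (fun h => hij (σ.injective h))]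
  constructor
  · rintro ⟨hfa, hfo⟩
    have hlt : ((symGroup rkSimplex f).comap (actS (d + 1))).index < Fintype.card (Fin (d + 1)) := by
      rw [← flagOrbits_simplex, hfo, Fintype.card_fin]; omega
    have hA := alt_le_of_index_lt (by rw [Fintype.card_fin]; omega) _ hlt
    have h01 : (0 : Fin (d + 1)) ≠ 1 := by
      intro h
      have := congrArg Fin.val h
      rw [Fin.val_zero, Fin.val_one'] at this
      rw [Nat.mod_eq_of_lt (by omega)] at this
      omega
    have hs : ∃ s : ℝ, 0 < s ∧ ∀ i j, i ≠ j → dist (f {i}) (f {j}) = s := by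
      refine ⟨dist (f {0}) (f {1}), ?_, ?_⟩
      · rw [dist_pos]
        intro h
        have := hfa 0 {0} {1} (by simp [rkSimplex]) (by simp [rkSimplex]) h
        exact h01 (Finset.singleton_injective this)
      · intro i j hij
        obtain ⟨σ, hσ, h1, h2⟩ := exists_alt_pair (n := d + 1) (by omega) h01 hij
        obtain ⟨T, hT⟩ := (mem_symGroup_simplex f σ).1 (hA hσ)
        rw [← h1, ← h2, ← hT, ← hT, T.isometry.dist_eq]
    exact ⟨by rw [← hfo, hfull hs], hs⟩
  · rintro ⟨rfl, hs⟩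
    refine ⟨?_, hfull hs⟩
    obtain ⟨s, hs, hf⟩ := hs
    apply faithful_of_injective
    · intro F G hF hG h
      have hc : F.card = 1 := by unfold rkSimplex at hF; omega
      have hc' : G.card = 1 := by unfold rkSimplex at hG; omega
      obtain ⟨i, rfl⟩ := Finset.card_eq_one.1 hc
      obtain ⟨j, rfl⟩ := Finset.card_eq_one.1 hc'
      by_contra hne
      have hij : i ≠ j := fun h => hne (by rw [h])
      have := hf i j hij
      rw [h, dist_self] at this
      linarith
    · intro m F G hF hG h1 h2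
      have key : ∀ F G : Finset (Fin (d + 1)), rkSimplex F = (m : ℤ) + 1 →
          (∀ K, rkSimplex K = (m : ℤ) → K ≤ F → K ≤ G) → F ≤ G := by
        intro F G hF h x hx
        have hc : F.card = m + 2 := by unfold rkSimplex at hF; omega
        obtain ⟨K, hK1, hK2, hK3⟩ := Finset.exists_subsuperset_card_eq
          (Finset.singleton_subset_iff.2 hx) (n := m + 1) (by simp) (by omega)
        exact h K (by unfold rkSimplex; rw [hK3]; push_cast; ring) hK2
          (hK1 (Finset.mem_singleton_self x))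
      exact le_antisymm (key F G hF h1) (key G F hG h2)

end Lib_helper64.FO
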